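import Pool.Agent.Lib.MP_d9c039_lc.Spec

set_option autoImplicit false

/-!
# MP_d9c039_lc: the module ARun
-/

namespace Pool.Agent.D9

namespace ARunAux

theorem div_succ (P : Par) (x l : ℕ) : x / P.s (l + 1) = x / P.s l / 2 ^ (P.a l) := by
  rw [P.hs l, Nat.div_div_eq_div_mul]

theorem pend_fire (S : LS) (i j : ℕ) (hij : j ≤ i) : S.pend j ≤ (S.fire i).pend j := by
  unfold LS.pend LS.fire
  simp only
  rw [List.countP_map, List.countP_filter]
  apply List.countP_mono_left
  rintro ⟨e1, e2⟩ - he
  simp only [Function.comp, decide_eq_true_eq, Bool.and_eq_true] at he ⊢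
  exact ⟨⟨he.1, le_min he.2 hij⟩, lt_of_lt_of_le he.1 hij⟩

theorem pend_resp (S : LS) (i j : ℕ) (hij : j ≤ i) : S.pend j ≤ (S.resp i).pend j :=
  pend_fire S i j hij

theorem pend_add (S : LS) (hi i j : ℕ) :
    (S.add hi i).pend j = S.pend j + if i < j ∧ j ≤ hi then 1 else 0 := by
  unfold LS.pend LS.add
  simp only
  rw [List.countP_cons]
  simp only [decide_eq_true_eq]

/-- The inequality between consecutive levels. -/
def Q (P : Par) (G : GS) : Prop := ∀ N l : ℕ,
  arun (P.s (l + 1)) (N / P.s (l + 1)) N G.hist
    ≤ (G.st l (N / P.s (l + 1))).pend (N / P.s l) + arun (P.s l) (N / P.s l) N G.hist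

theorem q_addA (P : Par) (G : GS) (x : ℕ) (h : Q P G) : Q P (G.addA P x) := by
  intro N l
  have h0 := h N l
  have hd1 := div_succ P x l
  have hd2 := div_succ P N l
  simp only [GS.addA]
  by_cases hp : x / P.s (l + 1) = N / P.s (l + 1)
  · rw [if_pos hp, pend_add]
    simp only [arun]
    rw [hp]
    have hj : N / P.s l ≤ (N / P.s (l + 1) + 1) * 2 ^ (P.a l) := by
      rw [hd2]
      have h2 : 0 < 2 ^ (P.a l) := by positivity
      have := Nat.lt_div_mul_add (a := N / P.s l) h2
      nlinarith
    have hle : x ≤ N → x / P.s l ≤ N / P.s l := fun hx => Nat.div_le_div_right hx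
    generalize (N / P.s (l + 1) + 1) * 2 ^ (P.a l) = hi at hj ⊢
    generalize (G.st l (N / P.s (l + 1))).pend (N / P.s l) = A1 at h0 ⊢
    generalize arun (P.s (l + 1)) (N / P.s (l + 1)) N G.hist = A2 at h0 ⊢
    generalize arun (P.s l) (N / P.s l) N G.hist = A3 at h0 ⊢
    generalize x / P.s l = u at hle ⊢
    generalize N / P.s l = v at hle hj ⊢
    simp only [Bool.false_eq_true, if_false, true_and]
    split_ifs <;> omega
  · rw [if_neg hp]
    simp only [arun]
    rw [if_neg (fun h => hp h.1), if_neg]
    · exact h0
    · rintro ⟨h1, -⟩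
      apply hp
      rw [hd1, hd2, h1]

theorem q_addD (P : Par) (G : GS) (y lam : ℕ) (h : Q P G) : Q P (G.addD P y lam) := by
  intro N l
  have h0 := h N l
  have hd1 := div_succ P y l
  have hd2 := div_succ P N l
  simp only [GS.addD]
  by_cases hp : y / P.s (l + 1) = N / P.s (l + 1)
  · rw [if_pos hp]
    simp only [arun]
    rw [hp]
    have h1 : ¬ y ≤ N → (G.st l (N / P.s (l + 1))).pend (N / P.s l) ≤
          (if l = lam then (G.st l (N / P.s (l + 1))).resp (y / P.s l)
            else (G.st l (N / P.s (l + 1))).fire (y / P.s l)).pend (N / P.s l) := by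
      intro hy
      have hle : N / P.s l ≤ y / P.s l := Nat.div_le_div_right (by omega)
      by_cases hl : l = lam
      · rw [if_pos hl]
        exact pend_resp _ _ _ hle
      · rw [if_neg hl]
        exact pend_fire _ _ _ hle
    generalize (if l = lam then (G.st l (N / P.s (l + 1))).resp (y / P.s l)
            else (G.st l (N / P.s (l + 1))).fire (y / P.s l)).pend (N / P.s l) = B1 at h1 ⊢
    generalize (G.st l (N / P.s (l + 1))).pend (N / P.s l) = A1 at h0 h1
    generalize arun (P.s (l + 1)) (N / P.s (l + 1)) N G.hist = A2 at h0 ⊢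
    generalize arun (P.s l) (N / P.s l) N G.hist = A3 at h0 ⊢
    generalize y / P.s l = u
    generalize N / P.s l = v
    simp only [if_true, true_and]
    split_ifs <;> omega
  · rw [if_neg hp]
    simp only [arun]
    rw [if_neg (fun h => hp h.1), if_neg]
    · exact h0
    · rintro ⟨h1, -⟩
      apply hp
      rw [hd1, hd2, h1]

theorem q_reach (P : Par) (G : GS) (h : Reach P G) : Q P G := by
  induction h with
  | init =>
    intro N l
    simp [GS.init, arun]
  | step G x r _ _ _ _ ih =>
    have h1 := q_addA P G x ih
    cases r with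
    | none => exact h1
    | some r => exact q_addD P _ r.1 r.2 h1

theorem arun_le (s q N : ℕ) (H : List (Bool × ℕ)) :
    arun s q N H ≤ ((H.filter (fun e => !e.1)).map Prod.snd).countP (fun x => decide (x / s = q)) := by
  induction H with
  | nil => simp [arun]
  | cons e t ih =>
    obtain ⟨b, z⟩ := e
    simp only [arun]
    cases b with
    | true =>
      simp only [Bool.not_true, Bool.false_eq_true, if_true, not_false_eq_true,
        List.filter_cons_of_neg]
      split_ifs
      · exact Nat.zero_le _
      · exact ih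
    | false =>
      simp only [Bool.not_false, Bool.false_eq_true, if_false, List.filter_cons_of_pos,
        List.map_cons, List.countP_cons, decide_eq_true_eq]
      split_ifs with h1 h2
      · omega
      · exact absurd h1.1 h2
      · omega
      · omega

theorem count_le (s q : ℕ) (hs : 0 < s) (L : List ℕ) (hL : L.Nodup) :
    L.countP (fun x => decide (x / s = q)) ≤ s := by
  rw [List.countP_eq_length_filter]
  have h1 : (L.filter (fun x => decide (x / s = q))).Nodup := hL.filter _
  rw [← List.toFinset_card_of_nodup h1]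
  calc _ ≤ (Finset.Ico (q * s) (q * s + s)).card := by
        apply Finset.card_le_card
        intro x hx
        rw [List.mem_toFinset, List.mem_filter, decide_eq_true_eq] at hx
        rw [Finset.mem_Ico, ← hx.2]
        exact ⟨Nat.div_mul_le_self x s, Nat.lt_div_mul_add hs⟩
    _ = s := by simp

end ARunAux

theorem aRunB : (∀ (P : Par) (G : GS), Reach P G → GInv P G) → CntB → ARunB := by
  intro hI hC P G hG N hN
  have hinv := hI P G hG
  have hQ := ARunAux.q_reach P G hG
  have key : ∀ k ≤ P.d, arun (P.s k) (N / P.s k) N G.hist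
      ≤ P.s 0 + ∑ l ∈ Finset.range k, P.L (l + 1) := by
    intro k
    induction k with
    | zero =>
      intro _
      simp only [Finset.range_zero, Finset.sum_empty, Nat.add_zero]
      have hs0 := P.hs0
      exact (ARunAux.arun_le _ _ _ _).trans (ARunAux.count_le _ _ hs0 _ hinv.nodup)
    | succ k ih =>
      intro hk
      have h1 := ih (by omega)
      have h2 := hQ N k
      have h3 := (hC P G hinv).2 k (by omega) (N / P.s (k + 1)) (N / P.s k)
      rw [Finset.sum_range_succ]
      omega
  have := key P.d le_rfl
  rwa [Nat.div_eq_of_lt hN] at this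

end Pool.Agent.D9
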