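import Pool.Agent.Lib.MP_d9c039_lc.Spec

set_option autoImplicit false

namespace Pool.Agent.D9

namespace AssembleAux

lemma wt_empty (g h c : ℕ) : LS.empty.wt g h c = 1 := by
  simp [LS.wt, LS.u, LS.empty]

lemma inv_empty (g h lo hi : ℕ) (hl : lo ≤ hi) : LS.empty.Inv g h lo hi := by
  refine ⟨by simp [LS.empty], [], by simp [LS.empty], by simp, ?_⟩
  simp only [wt_empty, List.map_nil, List.sum_nil, zero_div, sub_zero, Finset.sum_const,
    Nat.card_Ico, nsmul_eq_mul, mul_one]
  rw [Nat.cast_sub hl]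

lemma ginv_init (P : Par) : GInv P GS.init where
  nodup := by simp [GS.init, GS.pl]
  lt := by simp [GS.init, GS.pl]
  pot := by
    intro l _ p
    exact inv_empty _ _ _ _ (Nat.mul_le_mul_right _ (Nat.le_succ p))
  link := by
    intro l _ q
    simp [GS.init, LS.inChild, LS.empty]
  noviol := by
    rintro l _ p j ⟨e, he, _⟩
    simp [GS.init, LS.empty] at he
  kle := by
    intro l _ q
    simp [GS.init, LS.inChild, LS.empty]
  fcount := by
    intro l _ q
    simp [GS.init, LS.empty, GS.gr, GS.ld]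
  rr := by
    intro l _ q q' _
    simp [GS.init, GS.gr]
  mk_lt := by simp [GS.init]
  mk_nodup := by simp [GS.init]
  mk_hist := by simp [GS.init]

end AssembleAux

theorem reachInv (h1 : StepPot) (h2 : StepLink) (h3 : StepK) (h4 : StepViol) (h5 : StepMk) :
    ∀ (P : Par) (G : GS), Reach P G → GInv P G := by
  intro P G hG
  induction hG with
  | init => exact AssembleAux.ginv_init P
  | step G x r _ hx hn hv ih =>
    obtain ⟨a1, a2, a3, a4, a5, a6, a7⟩ := h5 P G x r ih hx hn hv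
    exact
      { nodup := a1
        lt := a2
        pot := h1 P G x r ih hx hn hv
        link := h2 P G x r ih hx hn hv
        noviol := h4 P G x r ih hx hn hv
        kle := h3 P G x r ih hx hn hv
        fcount := a3
        rr := a4
        mk_lt := a5
        mk_nodup := a6
        mk_hist := a7 }

namespace AssembleAux

lemma off_succ (m : ℕ) : off (m + 1) = off m + bS m := rfl

lemma sum_bR (k : ℕ) : ∑ m ∈ Finset.range (k + 1), bR m ≤ 10000 * (k + 1) ^ 4 := by
  calc ∑ m ∈ Finset.range (k + 1), bR m ≤ ∑ _m ∈ Finset.range (k + 1), 10000 * (k + 1) ^ 3 := by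
        apply Finset.sum_le_sum
        intro m hm
        rw [Finset.mem_range] at hm
        unfold bR
        exact Nat.mul_le_mul_left _ (Nat.pow_le_pow_left (by omega) 3)
    _ = 10000 * (k + 1) ^ 4 := by
        rw [Finset.sum_const, Finset.card_range, smul_eq_mul]; ring

lemma tower_le_off (hP : ParamsB) (k : ℕ) : tower k ≤ off (k + 1) := by
  have h1 := (hP k).2.1
  rw [off_succ]
  have h2 : tower k ≤ tower (k + 1) := by
    show tower k ≤ 2 ^ tower k
    exact Nat.lt_two_pow_self.le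
  omega

lemma re_of_stages (d : ℕ → List ℕ) (hd : Computable d) :
    REPred (fun n : ℕ => ∃ s, n ∈ d s) := by
  -- search for a stage
  have h1 : Computable₂ (fun (n : ℕ) (s : ℕ) => decide (n ∈ d s)) := by
    have hp : PrimrecRel (fun (L : List ℕ) (n : ℕ) => ∃ a ∈ L, a = n) :=
      PrimrecRel.exists_mem_list (R := fun a b : ℕ => a = b) Primrec.eq
    have h2 : Computable (fun t : List ℕ × ℕ => decide (∃ a ∈ t.1, a = t.2)) :=
      (hp.decide).to_comp
    have h3 : Computable (fun t : ℕ × ℕ => decide (∃ a ∈ d t.2, a = t.1)) :=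
      h2.comp (Computable.pair (hd.comp Computable.snd) Computable.fst)
    exact h3.of_eq (fun t => by simp)
  have h2 : Partrec (fun n : ℕ => Nat.rfind (fun s => Part.some (decide (n ∈ d s)))) :=
    Partrec.rfind h1.partrec₂
  refine (Partrec.dom_re h2).of_eq ?_
  intro n
  refine Iff.trans (Nat.rfind_dom (p := fun s => Part.some (decide (n ∈ d s)))) ?_
  constructor
  · rintro ⟨s, hs, _⟩
    exact ⟨s, by simpa using hs⟩
  · rintro ⟨s, hs⟩
    exact ⟨s, by simpa using hs, fun _ => trivial⟩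

end AssembleAux

open AssembleAux in
/-- the assembly: everything except the board strategy -/
theorem finalB (hbd : ∀ m, ∃ σ, Good (bS m) (bR m) σ) (hPar : ParamsB) (hPl : PlaysB)
    (hS : SearchB) (hG : GuessB) (hE : EnumB) (hUC : UnionC) (hUM : UnionM) : FinalB := by
  obtain ⟨T, hT, hTc⟩ := hS (fun m => by
    obtain ⟨σ, hσ⟩ := hbd m
    exact (hPl (bS m) (bR m)).1 σ hσ)
  have hgood : ∀ m, Good (bS m) (bR m) (tabS (T m)) := fun m => (hPl _ _).2 _ (hTc m)
  refine ⟨10000, ?_⟩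
  intro A hA
  obtain ⟨a, ha, hnd, hstep, h0, hlt, hmem⟩ := hE A hA
  have hdc := hUC T a hT ha
  obtain ⟨u1, u2, u3, u4, u5⟩ := hUM (fun m => tabS (T m)) a hgood
    (fun m => ⟨(hPar m).2.2.1, (hPar m).2.2.2⟩) hnd hstep h0 hlt
  set d : ℕ → List ℕ := fun s => allD (fun m => tabS (T m)) s (a s) with hd
  have hmono : ∀ s x, x ∈ a s → x ∈ a (s + 1) := by
    intro s x hx
    rcases hstep s with h | ⟨y, h⟩
    · rw [h]; exact hx
    · rw [h]; exact List.mem_append_left _ hx
  -- the bound function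
  have hex : ∀ n, ∃ k, n ≤ tower k := by
    intro n
    refine ⟨n, ?_⟩
    induction n with
    | zero => exact Nat.zero_le _
    | succ n ih =>
      show n + 1 ≤ 2 ^ tower n
      exact (Nat.succ_le_succ ih).trans Nat.lt_two_pow_self
  classical
  let κ : ℕ → ℕ := fun n => Nat.find (hex n)
  let b : ℕ → ℕ := fun n => ∑ m ∈ Finset.range (κ n + 1), bR m
  have hκ : ∀ n, n ≤ off (κ n + 1) := fun n => (Nat.find_spec (hex n)).trans (tower_le_off hPar _)
  have hb : ∀ k n, n ≤ tower k → b n ≤ 10000 * (k + 1) ^ 4 := by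
    intro k n hn
    have h1 : κ n ≤ k := Nat.find_min' (hex n) hn
    exact (sum_bR (κ n)).trans (Nat.mul_le_mul_left _ (Nat.pow_le_pow_left (by omega) 4))
  refine ⟨{x | ∃ s, x ∈ d s}, re_of_stages d hdc, ?_, ?_, ?_⟩
  · rintro n ⟨s, hs⟩
    exact u3 s n hs
  · obtain ⟨φ, hφ, hφ'⟩ := hG a d A {x | ∃ s, x ∈ d s} b ha hdc hnd u1 hmono u2 hmem
      (fun x => Iff.rfl) (fun n s s' hs h => u4 _ n s s' (hκ n) hs h)
    refine ⟨φ, hφ, ?_⟩
    intro k n hk τ hτ hτ'
    obtain ⟨j, hj, h⟩ := hφ' n τ hτ hτ'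
    exact ⟨j, hj.trans (hb k n hk), h⟩
  · obtain ⟨φ, hφ, hφ'⟩ := hG d a {x | ∃ s, x ∈ d s} A b hdc ha u1 hnd u2 hmono
      (fun x => Iff.rfl) hmem (fun n s s' hs h => u5 _ n s s' (hκ n) hs h)
    refine ⟨φ, hφ, ?_⟩
    intro k n hk τ hτ hτ'
    obtain ⟨j, hj, h⟩ := hφ' n τ hτ hτ'
    exact ⟨j, hj.trans (hb k n hk), h⟩

theorem boards (hB : BoardB)
    (hPar : ParamsB) : ∀ m, ∃ σ, Good (bS m) (bR m) σ := by
  intro m
  obtain ⟨⟨P, h1, h2, h3⟩, _⟩ := hPar m
  obtain ⟨σ, hσ⟩ := hB P (bR m) h2 h3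
  exact ⟨σ, h1 ▸ hσ⟩

end Pool.Agent.D9
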