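import Pool.Agent.Lib.MP_d9c039_lc.Spec

set_option autoImplicit false

namespace Pool.Agent.D9

namespace BoardAux

open Classical in
/-- the chosen response -/
noncomputable def nx (P : Par) (G : GS) (x : ℕ) : Option (ℕ × ℕ) :=
  if h : ∃ r, Valid P (G.addA P x) x r then h.choose else none

/-- the run along a play given newest first -/
noncomputable def runR (P : Par) : List ℕ → GS
  | [] => GS.init
  | x :: t => ((runR P t).addA P x).app P (nx P (runR P t) x)

/-- the strategy -/
noncomputable def strat (P : Par) (p : List ℕ) : Option ℕ :=
  match p.reverse with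
  | [] => none
  | x :: t => (nx P (runR P t) x).map Prod.fst

lemma nx_valid (hC : ChooseB) (P : Par) (G : GS) (x : ℕ) (hG : GInv P G) (hx : x < P.s P.d)
    (hn : x ∉ G.pl) : Valid P (G.addA P x) x (nx P G x) := by
  have h := hC P G x hG hx hn
  unfold nx
  rw [dif_pos h]
  exact h.choose_spec

lemma pl_app (P : Par) (G : GS) (r : Option (ℕ × ℕ)) : (G.app P r).pl = G.pl := by
  cases r with
  | none => rfl
  | some r => simp [GS.app, GS.addD, GS.pl]

lemma pl_addA (P : Par) (G : GS) (x : ℕ) : (G.addA P x).pl = x :: G.pl := by
  simp [GS.addA, GS.pl]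

lemma pl_run (P : Par) (q : List ℕ) : (runR P q).pl = q := by
  induction q with
  | nil => simp [runR, GS.pl, GS.init]
  | cons x t ih => rw [runR, pl_app, pl_addA, ih]

lemma reach_run (hR : ∀ (P : Par) (G : GS), Reach P G → GInv P G) (hC : ChooseB) (P : Par)
    (q : List ℕ) (hq : q.Nodup) (hlt : ∀ x ∈ q, x < P.s P.d) : Reach P (runR P q) := by
  induction q with
  | nil => exact Reach.init
  | cons x t ih =>
    have ht := ih (List.nodup_cons.1 hq).2 (fun y hy => hlt y (List.mem_cons_of_mem _ hy))
    have hx : x ∉ (runR P t).pl := by rw [pl_run]; exact (List.nodup_cons.1 hq).1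
    have hx' := hlt x List.mem_cons_self
    exact Reach.step _ x _ ht hx' hx (nx_valid hC P _ x (hR P _ ht) hx' hx)

lemma mks_app (P : Par) (G : GS) (r : Option (ℕ × ℕ)) :
    (G.app P r).mks.map Prod.fst = (r.map Prod.fst).toList ++ G.mks.map Prod.fst := by
  cases r with
  | none => simp [GS.app]
  | some r => simp [GS.app, GS.addD]

lemma hist_app (P : Par) (G : GS) (r : Option (ℕ × ℕ)) :
    (G.app P r).hist = ((r.map Prod.fst).toList).map (fun y => (true, y)) ++ G.hist := by
  cases r with
  | none => simp [GS.app]
  | some r => simp [GS.app, GS.addD]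

lemma resp_append (σ : List ℕ → Option ℕ) (p : List ℕ) (x : ℕ) :
    resp σ (p ++ [x]) = resp σ p ++ (σ (p ++ [x])).toList := by
  unfold resp
  rw [List.length_append, List.length_singleton, List.range_succ, List.filterMap_append]
  congr 1
  · apply List.filterMap_congr
    intro i hi
    rw [List.mem_range] at hi
    rw [List.take_append_of_le_length (by omega)]
  · have : (p ++ [x]).take (p.length + 1) = p ++ [x] := by
      apply List.take_of_length_le; simp
    simp only [List.filterMap_cons, List.filterMap_nil, this]
    cases σ (p ++ [x]) <;> simp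

lemma strat_append (P : Par) (p : List ℕ) (x : ℕ) :
    strat P (p ++ [x]) = (nx P (runR P p.reverse) x).map Prod.fst := by
  unfold strat
  simp [List.reverse_append]

lemma resp_run (P : Par) (p : List ℕ) :
    resp (strat P) p = ((runR P p.reverse).mks.map Prod.fst).reverse := by
  induction p using List.reverseRecOn with
  | nil => simp [resp, runR, GS.init]
  | append_singleton p x ih =>
    rw [resp_append, ih, strat_append, List.reverse_append]
    simp only [List.reverse_singleton, List.singleton_append, runR]
    rw [mks_app]
    simp only [GS.addA, List.reverse_append]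
    congr 1
    cases nx P (runR P p.reverse) x <;> simp

/-- number of A-events `≤ N` -/
def aN (h : List (Bool × ℕ)) (N : ℕ) : ℕ := h.countP (fun e => !e.1 && decide (e.2 ≤ N))
/-- number of marks `≤ N` -/
def dN (h : List (Bool × ℕ)) (N : ℕ) : ℕ := h.countP (fun e => e.1 && decide (e.2 ≤ N))

lemma cnt_pl (P : Par) (p : List ℕ) (N : ℕ) :
    cnt p (N + 1) = aN (runR P p.reverse).hist N := by
  have h1 : cnt p (N + 1) = cnt p.reverse (N + 1) := by
    unfold cnt; rw [List.countP_reverse]
  have h2 : cnt p.reverse (N + 1) = cnt (runR P p.reverse).pl (N + 1) := by rw [pl_run]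
  rw [h1, h2]
  unfold cnt aN GS.pl
  rw [List.countP_map, List.countP_filter]
  apply List.countP_congr
  intro e _
  simp only [Function.comp, Bool.and_eq_true, decide_eq_true_eq, Bool.not_eq_true']
  constructor
  · rintro ⟨h, h'⟩; exact ⟨h', by omega⟩
  · rintro ⟨h, h'⟩; exact ⟨by omega, h⟩

lemma cnt_resp (hR : ∀ (P : Par) (G : GS), Reach P G → GInv P G) (hC : ChooseB) (P : Par)
    (p : List ℕ) (hp : p.Nodup) (hlt : ∀ x ∈ p, x < P.s P.d) (N : ℕ) :
    cnt (resp (strat P) p) (N + 1) = dN (runR P p.reverse).hist N := by
  have hI := hR P _ (reach_run hR hC P p.reverse (List.nodup_reverse.2 hp)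
    (fun x hx => hlt x (List.mem_reverse.1 hx)))
  rw [resp_run]
  unfold cnt
  rw [List.countP_reverse, hI.mk_hist]
  unfold dN
  rw [List.countP_map, List.countP_filter]
  apply List.countP_congr
  intro e _
  simp only [Function.comp, Bool.and_eq_true, decide_eq_true_eq]
  constructor
  · rintro ⟨h, h'⟩; exact ⟨h', by omega⟩
  · rintro ⟨h, h'⟩; exact ⟨by omega, h⟩

lemma hist_suffix (P : Par) (b a : List ℕ) : ∃ B, (runR P (b ++ a)).hist = B ++ (runR P a).hist := by
  induction b with
  | nil => exact ⟨[], by simp⟩
  | cons x t ih =>
    obtain ⟨B, hB⟩ := ih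
    rw [List.cons_append, runR, hist_app]
    refine ⟨(((nx P (runR P (t ++ a)) x).map Prod.fst).toList).map (fun y => (true, y)) ++
      ((false, x) :: B), ?_⟩
    simp [GS.addA, hB]

lemma arun_append (s q N : ℕ) (B h : List (Bool × ℕ)) (hB : dN B N = 0) :
    B.countP (fun e => !e.1 && decide (e.2 / s = q ∧ e.2 ≤ N)) ≤ arun s q N (B ++ h) := by
  induction B with
  | nil => simp
  | cons e t ih =>
    obtain ⟨b, z⟩ := e
    unfold dN at hB
    rw [List.countP_cons] at hB
    have ht : dN t N = 0 := by unfold dN; omega
    have ih' := ih ht
    rw [List.countP_cons, List.cons_append, arun]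
    by_cases hz : z / s = q ∧ z ≤ N
    · rw [if_pos hz]
      have hb : b = false := by
        by_contra hb
        have hb' : b = true := by simpa using hb
        subst hb'
        simp [hz.2] at hB
      subst hb
      simp [hz]
      simpa using ih'
    · rw [if_neg hz]
      simp only [hz, decide_false, Bool.and_false, Bool.false_eq_true, if_false, add_zero]
      exact ih'

lemma drun_append (N : ℕ) (B h : List (Bool × ℕ)) (hB : aN B N = 0) :
    dN B N ≤ drun N (B ++ h) := by
  induction B with
  | nil => simp [dN]
  | cons e t ih =>
    obtain ⟨b, z⟩ := e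
    unfold aN at hB
    rw [List.countP_cons] at hB
    have ht : aN t N = 0 := by unfold aN; omega
    have ih' := ih ht
    unfold dN at ih' ⊢
    rw [List.countP_cons, List.cons_append, drun]
    by_cases hz : z ≤ N
    · rw [if_pos hz]
      have hb : b = true := by
        by_contra hb
        have hb' : b = false := by simpa using hb
        subst hb'
        simp [hz] at hB
      subst hb
      simp [hz]
      simpa using ih'
    · rw [if_neg hz]
      simp only [hz, decide_false, Bool.and_false, Bool.false_eq_true, if_false, add_zero]
      exact ih'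

end BoardAux

open BoardAux in
theorem boardB (hR : ∀ (P : Par) (G : GS), Reach P G → GInv P G) (hC : ChooseB) (hA : ARunB)
    (hD : DRunB) : BoardB := by
  intro P R hR1 hR2
  refine ⟨strat P, ?_⟩
  intro p hp hlt
  constructor
  · intro y hy hne
    -- split off the last element
    obtain ⟨p', x, rfl⟩ : ∃ p' x, p = p' ++ [x] := by
      rcases List.eq_nil_or_concat p with h | ⟨p', x, h⟩
      · exact absurd h hne
      · exact ⟨p', x, by simpa using h⟩
    have hp' : p'.Nodup := (List.nodup_append.1 hp).1
    have hlt' : ∀ z ∈ p', z < P.s P.d := fun z hz => hlt z (List.mem_append_left _ hz)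
    have hre := reach_run hR hC P p'.reverse (List.nodup_reverse.2 hp')
      (fun x hx => hlt' x (List.mem_reverse.1 hx))
    have hxm : x ∉ (runR P p'.reverse).pl := by
      rw [pl_run, List.mem_reverse]
      intro hx
      exact (List.nodup_append.1 hp).2.2 x hx x (by simp) rfl
    have hxl : x < P.s P.d := hlt x (by simp)
    have hval := nx_valid hC P _ x (hR P _ hre) hxl hxm
    have hre2 := Reach.step _ x _ hre hxl hxm hval
    have hI2 := hR P _ hre2
    rw [strat_append] at hy
    rcases hr : nx P (runR P p'.reverse) x with _ | r
    · rw [hr] at hy; simp at hy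
    · rw [hr] at hy hI2
      simp at hy
      have hmem : r ∈ ((runR P p'.reverse).addA P x |>.app P (some r)).mks := by
        simp [GS.app, GS.addD]
      have h1 := hI2.mk_lt r hmem
      rw [hy] at h1
      refine ⟨h1.1, Nat.even_iff.1 h1.2.1, ?_⟩
      have htake : (p' ++ [x]).take ((p' ++ [x]).length - 1) = p' := by
        simp
      rw [htake, resp_run, List.mem_reverse]
      have h2 := hI2.mk_nodup
      simp only [GS.app, GS.addD, GS.addA, List.map_cons, List.nodup_cons] at h2
      rw [← hy]
      exact h2.1
  · intro i hi n hn
    rcases n with _ | N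
    · simp [cnt]
    · have hN : N < P.s P.d := by omega
      have hp1 : (p.take i).Nodup := hp.sublist (List.take_sublist _ _)
      have hlt1 : ∀ x ∈ p.take i, x < P.s P.d := fun x hx => hlt x (List.mem_of_mem_take hx)
      have hrev : p.reverse = (p.drop i).reverse ++ (p.take i).reverse := by
        rw [← List.reverse_append, List.take_append_drop]
      obtain ⟨B, hB⟩ := hist_suffix P (p.drop i).reverse (p.take i).reverse
      rw [← hrev] at hB
      have hre := reach_run hR hC P p.reverse (List.nodup_reverse.2 hp)
        (fun x hx => hlt x (List.mem_reverse.1 hx))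
      have hI := hR P _ hre
      have e1 := cnt_pl P p N
      have e2 := cnt_pl P (p.take i) N
      have e3 := cnt_resp hR hC P p hp hlt N
      have e4 := cnt_resp hR hC P (p.take i) hp1 hlt1 N
      have ha : aN (runR P p.reverse).hist N = aN B N + aN (runR P (p.take i).reverse).hist N := by
        rw [hB]; unfold aN; rw [List.countP_append]
      have hd : dN (runR P p.reverse).hist N = dN B N + dN (runR P (p.take i).reverse).hist N := by
        rw [hB]; unfold dN; rw [List.countP_append]
      constructor
      · intro h
        have hB0 : dN B N = 0 := by omega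
        have h1 := arun_append (P.s P.d) 0 N B (runR P (p.take i).reverse).hist hB0
        rw [← hB] at h1
        have h2 := hA P _ hre N hN
        have h3 : aN B N ≤ B.countP (fun e => !e.1 && decide (e.2 / P.s P.d = 0 ∧ e.2 ≤ N)) := by
          unfold aN
          apply List.countP_mono_left
          intro e _ he
          simp only [Bool.and_eq_true, decide_eq_true_eq] at he ⊢
          exact ⟨he.1, Nat.div_eq_of_lt (by omega), he.2⟩
        omega
      · intro h
        have hB0 : aN B N = 0 := by omega
        have h1 := drun_append N B (runR P (p.take i).reverse).hist hB0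
        rw [← hB] at h1
        have h2 := hD P _ hre N hN
        omega

end Pool.Agent.D9
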