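import Pool.Agent.Lib.MP_d9c039_lc.Spec

set_option autoImplicit false

namespace Pool.Agent.D9

namespace ChooseAux

theorem s_pos (P : Par) (l : ℕ) : 0 < P.s l := by
  induction l with
  | zero => exact P.hs0
  | succ l ih => rw [P.hs]; positivity

theorem div_succ (P : Par) (y l : ℕ) : y / P.s (l + 1) = y / P.s l / 2 ^ (P.a l) := by
  rw [P.hs, Nat.div_div_eq_div_mul]

/-- the descent to a block of level 0 with minimal loads -/
theorem descend (P : Par) (G : GS) (lam i : ℕ) : ∀ n ≤ lam, ∃ q, ∀ y, y / P.s (lam - n) = q →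
    y / P.s lam = i ∧ ∀ l', lam - n ≤ l' → l' < lam → ∀ q', q' / 2 ^ (P.a l') = y / P.s (l' + 1) →
      G.gr P l' (y / P.s l') ≤ G.gr P l' q' := by
  intro n
  induction n with
  | zero =>
    intro _
    refine ⟨i, fun y hy => ⟨by simpa using hy, fun l' h1 h2 => ?_⟩⟩
    omega
  | succ n ih =>
    intro hn
    obtain ⟨q, hq⟩ := ih (by omega)
    set l := lam - (n + 1) with hl
    have hl1 : lam - n = l + 1 := by omega
    have hpos : 0 < 2 ^ (P.a l) := by positivity
    have hne : (Finset.Ico (q * 2 ^ (P.a l)) ((q + 1) * 2 ^ (P.a l))).Nonempty := by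
      rw [Finset.nonempty_Ico]
      exact Nat.mul_lt_mul_of_pos_right (Nat.lt_succ_self q) hpos
    obtain ⟨c, hc, hmin⟩ := Finset.exists_min_image _ (fun c => G.gr P l c) hne
    have h5 : (q + 1) * 2 ^ (P.a l) = q * 2 ^ (P.a l) + 2 ^ (P.a l) := by ring
    have hcq : c / 2 ^ (P.a l) = q := by
      rw [Finset.mem_Ico] at hc
      rw [Nat.div_eq_iff hpos]
      omega
    refine ⟨c, fun y hy => ?_⟩
    have hyq : y / P.s (lam - n) = q := by
      rw [hl1, div_succ, hy, hcq]
    obtain ⟨h1, h2⟩ := hq y hyq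
    refine ⟨h1, fun l' hl' hlam q' hq' => ?_⟩
    rcases Nat.eq_or_lt_of_le hl' with h | h
    · rw [← h] at hq' ⊢
      rw [hy]
      apply hmin
      rw [← hl1, hyq] at hq'
      rw [Finset.mem_Ico]
      rw [Nat.div_eq_iff hpos] at hq'
      omega
    · exact h2 l' (by omega) hlam q' hq'

/-- a free even number in a block -/
theorem free (P : Par) (G : GS) (hL : LoadB) (hG : GInv P G) (q : ℕ) :
    ∃ y, y / P.s 0 = q ∧ Even y ∧ y ∉ G.mks.map Prod.fst := by
  classical
  by_contra hcon
  push Not at hcon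
  have hs0 := P.hs0
  obtain ⟨r, hr⟩ := P.hev
  have hload := hL P G hG 0 (Nat.zero_le _) q
  rw [Nat.sub_zero] at hload
  have hcard : r ≤ G.ld P 0 q := by
    unfold GS.ld
    rw [List.countP_eq_length_filter]
    set F := G.mks.filter (fun e => decide (e.1 / P.s 0 = q ∧ 0 ≤ e.2)) with hF
    calc r = (Finset.range r).card := (Finset.card_range r).symm
      _ ≤ ((F.map Prod.fst).toFinset).card := by
        apply Finset.card_le_card_of_injOn (fun t => q * P.s 0 + 2 * t)
        · intro t ht
          rw [Finset.coe_range, Set.mem_Iio] at ht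
          rw [Finset.mem_coe, List.mem_toFinset]
          have hdiv : (q * P.s 0 + 2 * t) / P.s 0 = q := by
            rw [Nat.div_eq_iff hs0]
            omega
          have heven : Even (q * P.s 0 + 2 * t) := by
            rw [hr]
            exact ⟨q * r + t, by ring⟩
          have hmem := hcon _ hdiv heven
          rw [List.mem_map] at hmem ⊢
          obtain ⟨e, he, he1⟩ := hmem
          refine ⟨e, ?_, he1⟩
          rw [hF, List.mem_filter]
          refine ⟨he, ?_⟩
          rw [decide_eq_true_eq, he1]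
          exact ⟨hdiv, Nat.zero_le _⟩
        · intro t _ t' _ h
          simp only at h
          omega
      _ ≤ (F.map Prod.fst).length := List.toFinset_card_le _
      _ = F.length := List.length_map _
  have hg : P.g * r ≤ 8 * P.d * P.s 0 := (Nat.mul_le_mul_left _ hcard).trans hload
  have hfree := P.hfree
  have hrpos : 0 < r := by omega
  have h1 : 16 * P.d * r < P.g * r := Nat.mul_lt_mul_of_pos_right hfree hrpos
  rw [hr] at hg
  have h2 : 8 * P.d * (r + r) = 16 * P.d * r := by ring
  omega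

end ChooseAux

theorem chooseB : LoadB → ChooseB := by
  classical
  intro hL P G x hG hx _
  by_cases h0 : ∀ l < P.d, ∀ p j, ¬ ((G.addA P x).st l p).Viol P.K j
  · exact ⟨none, h0⟩
  push Not at h0
  -- the smallest level with a violation
  have h1 : ∃ l, l < P.d ∧ ∃ p j, ((G.addA P x).st l p).Viol P.K j := by
    obtain ⟨l, hl, p, j, hv⟩ := h0
    exact ⟨l, hl, p, j, hv⟩
  obtain ⟨hlam, p, j0, hv0⟩ := Nat.find_spec h1
  have hmin := fun l (hl : l < Nat.find h1) => Nat.find_min h1 hl
  set lam := Nat.find h1 with hlamdef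
  have hnoviol : ∀ l < lam, ∀ p j, ¬ ((G.addA P x).st l p).Viol P.K j := by
    intro l hl p j hv
    exact hmin l hl ⟨by omega, p, j, hv⟩
  -- it is in the block of `x`
  set p0 := x / P.s (lam + 1) with hp0
  have hp : p0 = p := by
    by_contra hne
    have hst : (G.addA P x).st lam p = G.st lam p := if_neg hne
    rw [hst] at hv0
    exact hG.noviol lam hlam p j0 hv0
  rw [← hp] at hv0
  have hst : (G.addA P x).st lam p0
      = (G.st lam p0).add ((p0 + 1) * 2 ^ (P.a lam)) (x / P.s lam) := if_pos rfl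
  -- the smallest boundary
  have h2 : ∃ j, ((G.addA P x).st lam p0).Viol P.K j := ⟨j0, hv0⟩
  have hvj := Nat.find_spec h2
  have hminj := fun j (hj : j < Nat.find h2) => Nat.find_min h2 hj
  set j := Nat.find h2 with hjdef
  obtain ⟨e0, he0, he0j, he0j2, hpend⟩ := hvj
  have hK : 0 < P.K := by
    have h1 := P.hK
    have h2 := P.hg
    omega
  have hpos : 0 < 2 ^ (P.a lam) := by positivity
  have hxp : x / P.s lam / 2 ^ (P.a lam) = p0 := by
    rw [hp0, ChooseAux.div_succ]
  have hxp' := (Nat.div_eq_iff hpos).mp hxp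
  have h5 : (p0 + 1) * 2 ^ (P.a lam) = p0 * 2 ^ (P.a lam) + 2 ^ (P.a lam) := by ring
  have hal : ((G.addA P x).st lam p0).al
      = (x / P.s lam, (p0 + 1) * 2 ^ (P.a lam)) :: (G.st lam p0).al := by
    rw [hst]; rfl
  have hent : ∀ e ∈ ((G.addA P x).st lam p0).al,
      p0 * 2 ^ (P.a lam) ≤ e.1 ∧ e.1 < e.2 ∧ e.2 ≤ (p0 + 1) * 2 ^ (P.a lam) := by
    intro e he
    rw [hal, List.mem_cons] at he
    rcases he with he | he
    · rw [he]
      refine ⟨?_, ?_, le_refl _⟩
      · exact hxp'.1
      · change x / P.s lam < (p0 + 1) * 2 ^ (P.a lam)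
        omega
    · exact (hG.pot lam hlam p0).1 e he
  obtain ⟨hlo, -, hhi⟩ := hent e0 he0
  -- the new event is to the left of `j`
  have hxj : x / P.s lam < j := by
    by_contra hcon
    push Not at hcon
    apply hG.noviol lam hlam p0 j
    rw [hal, List.mem_cons] at he0
    rcases he0 with he0 | he0
    · rw [he0] at he0j
      exact absurd he0j (by simp only; omega)
    · refine ⟨e0, he0, he0j, he0j2, ?_⟩
      have h3 : ((G.addA P x).st lam p0).pend' e0.1 j = (G.st lam p0).pend' e0.1 j := by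
        unfold LS.pend'
        rw [hal, List.countP_cons, if_neg, add_zero]
        simp only [decide_eq_true_eq]
        omega
      rw [← h3]
      exact hpend
  -- the interval is not empty
  have hne : (Finset.Ioo e0.1 j).Nonempty := by
    have h3 : 0 < ((G.addA P x).st lam p0).pend' e0.1 j := lt_of_lt_of_le hK hpend
    unfold LS.pend' at h3
    rw [List.countP_pos_iff] at h3
    obtain ⟨e, -, he⟩ := h3
    rw [decide_eq_true_eq] at he
    exact ⟨e.1, Finset.mem_Ioo.mpr ⟨he.1, he.2.1⟩⟩
  set S := (G.addA P x).st lam p0 with hS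
  obtain ⟨m, hm, hmmin⟩ := Finset.exists_min_image _ (fun c => S.u P.g c) hne
  rw [Finset.mem_Ioo] at hm
  have h3 : ∃ i, e0.1 < i ∧ i < j ∧ S.u P.g i ≤ S.u P.g m + (P.g : ℤ) * (P.h : ℤ) :=
    ⟨m, hm.1, hm.2, by
      have : (0 : ℤ) ≤ (P.g : ℤ) * (P.h : ℤ) := by positivity
      omega⟩
  obtain ⟨hi1, hi2, hi3⟩ := Nat.find_spec h3
  have himin := fun i (hi : i < Nat.find h3) => Nat.find_min h3 hi
  set i := Nat.find h3 with hidef
  have hreq : S.Req P.g P.h P.K e0.1 j i := by
    refine ⟨hi1, hi2, hpend, m, hm.1, hm.2, ?_, hi3, ?_⟩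
    · intro c hc1 hc2
      exact hmmin c (Finset.mem_Ioo.mpr ⟨hc1, hc2⟩)
    · intro c hc1 hc2
      have h4 := himin c hc2
      push Not at h4
      exact h4 hc1 (by omega)
  -- the descent
  obtain ⟨q, hq⟩ := ChooseAux.descend P G lam i lam (le_refl _)
  rw [Nat.sub_self] at hq
  obtain ⟨y, hyq, hyev, hyfree⟩ := ChooseAux.free P G hL hG q
  obtain ⟨hylam, hygr⟩ := hq y hyq
  refine ⟨some (y, lam), hlam, hyev, hyfree, ?_, hnoviol, ?_, j, hxj, ?_, ?_, e0, he0, he0j, he0j2, ?_⟩
  · rw [ChooseAux.div_succ, hylam, ← hp0, Nat.div_eq_iff hpos]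
    omega
  · intro l hl q' hq'
    exact hygr l (Nat.zero_le _) hl q' hq'
  · rw [← hp0]
    omega
  · intro j' hj'
    exact hminj j' hj'
  · rw [hylam]
    exact hreq

end Pool.Agent.D9
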