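import Pool.Agent.Lib.MP_d9c039_lc.Spec

set_option autoImplicit false

namespace Pool.Agent.D9

namespace CntAux

/-- a block of length `s` contains at most `s` entries of a duplicate-free list -/
theorem count_block (l : List ℕ) (hl : l.Nodup) (s q : ℕ) (hs : 0 < s) :
    l.countP (fun x => decide (x / s = q)) ≤ s := by
  classical
  rw [List.countP_eq_length_filter]
  have h1 : (l.filter (fun x => decide (x / s = q))).Nodup := hl.filter _
  rw [← List.toFinset_card_of_nodup h1]
  calc (l.filter (fun x => decide (x / s = q))).toFinset.card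
      ≤ (Finset.Ico (q * s) (q * s + s)).card := by
        apply Finset.card_le_card
        intro x hx
        rw [List.mem_toFinset, List.mem_filter] at hx
        have h2 : x / s = q := of_decide_eq_true hx.2
        rw [Finset.mem_Ico]
        have h3 := (Nat.div_eq_iff hs).mp h2
        constructor
        · exact h3.1
        · have := h3.2
          omega
    _ = s := by simp

/-- entries of a parent block lie in its children -/
theorem inChild_eq_zero (P : Par) (G : GS) (hG : GInv P G) (l : ℕ) (hl : l < P.d) (p c : ℕ)
    (hc : c / 2 ^ (P.a l) ≠ p) : (G.st l p).inChild c = 0 := by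
  unfold LS.inChild
  rw [List.countP_eq_zero]
  intro e he hec
  have h1 : e.1 = c := of_decide_eq_true hec
  obtain ⟨h2, h3, h4⟩ := (hG.pot l hl p).1 e he
  apply hc
  rw [← h1]
  have hpos : 0 < 2 ^ (P.a l) := by positivity
  rw [Nat.div_eq_iff hpos]
  constructor
  · exact h2
  · have h5 : (p + 1) * 2 ^ (P.a l) = p * 2 ^ (P.a l) + 2 ^ (P.a l) := by ring
    omega

/-- the bound for the pending entries -/
theorem pend_le (K B : ℕ) (S : LS) (hin : ∀ c, S.inChild c ≤ B) (j : ℕ)
    (hv : ¬ S.Viol K j) (hK : 0 < K) : S.pend j ≤ B + K := by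
  classical
  by_cases h0 : ∃ e ∈ S.al, e.1 < j ∧ j ≤ e.2
  · have h1 : ∃ c, ∃ e ∈ S.al, e.1 = c ∧ e.1 < j ∧ j ≤ e.2 := by
      obtain ⟨e, he, he'⟩ := h0
      exact ⟨e.1, e, he, rfl, he'⟩
    obtain ⟨e0, he0, he0c, he0j⟩ := Nat.find_spec h1
    have hmin : ∀ e ∈ S.al, e.1 < j → j ≤ e.2 → e0.1 ≤ e.1 := by
      intro e he h2 h3
      rw [he0c]
      exact Nat.find_min' h1 ⟨e, he, rfl, h2, h3⟩
    have h2 : S.pend' e0.1 j < K := by
      by_contra h
      push Not at h
      exact hv ⟨e0, he0, he0j.1, he0j.2, h⟩
    have h3 : S.pend j ≤ S.inChild e0.1 + S.pend' e0.1 j := by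
      unfold LS.pend LS.inChild LS.pend'
      have h4 : ∀ l : List (ℕ × ℕ), (∀ e ∈ l, e ∈ S.al) →
          l.countP (fun e => decide (e.1 < j ∧ j ≤ e.2))
          ≤ l.countP (fun e => decide (e.1 = e0.1))
            + l.countP (fun e => decide (e0.1 < e.1 ∧ e.1 < j ∧ j ≤ e.2)) := by
        intro l
        induction l with
        | nil => intro _; simp
        | cons e t ih =>
          intro hl
          have ih' := ih (fun e he => hl e (List.mem_cons_of_mem _ he))
          have he := hl e List.mem_cons_self
          simp only [List.countP_cons, decide_eq_true_eq]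
          by_cases h5 : e.1 < j ∧ j ≤ e.2
          · have h6 := hmin e he h5.1 h5.2
            rcases h6.eq_or_lt with h7 | h7
            · rw [if_pos h5, if_pos h7.symm]
              omega
            · rw [if_pos h5, if_pos (show e0.1 < e.1 ∧ e.1 < j ∧ j ≤ e.2 from ⟨h7, h5⟩)]
              omega
          · rw [if_neg h5]
            omega
      exact h4 S.al (fun e he => he)
    have h4 := hin e0.1
    omega
  · have h1 : S.pend j = 0 := by
      unfold LS.pend
      rw [List.countP_eq_zero]
      intro e he hec
      exact h0 ⟨e, he, of_decide_eq_true hec⟩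
    omega

end CntAux

theorem cntB : CntB := by
  intro P G hG
  have hK : 0 < P.K := by
    have h1 := P.hK
    have h2 := P.hg
    omega
  have hpend : ∀ l < P.d, (∀ p c, (G.st l p).inChild c ≤ P.L l) →
      ∀ p j, (G.st l p).pend j ≤ P.L (l + 1) := by
    intro l hl hin p j
    have h1 := CntAux.pend_le P.K (P.L l) (G.st l p) (hin p) j (hG.noviol l hl p j) hK
    have h2 : P.L (l + 1) = P.L l + P.K := by
      unfold Par.L
      ring
    omega
  have hin : ∀ l < P.d, ∀ p c, (G.st l p).inChild c ≤ P.L l := by
    intro l
    induction l with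
    | zero =>
      intro hl p c
      by_cases hc : c / 2 ^ (P.a 0) = p
      · have h1 := hG.kle 0 hl c
        rw [hc] at h1
        have h2 := CntAux.count_block G.pl hG.nodup (P.s 0) c P.hs0
        have h3 : P.L 0 = P.s 0 := by
          unfold Par.L
          ring
        omega
      · rw [CntAux.inChild_eq_zero P G hG 0 hl p c hc]
        exact Nat.zero_le _
    | succ l ih =>
      intro hl p c
      by_cases hc : c / 2 ^ (P.a (l + 1)) = p
      · have h1 := hG.link l hl c
        rw [hc] at h1
        have h2 := hpend l (by omega) (ih (by omega)) c ((c + 1) * 2 ^ (P.a l))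
        omega
      · rw [CntAux.inChild_eq_zero P G hG (l + 1) hl p c hc]
        exact Nat.zero_le _
  exact ⟨hin, fun l hl => hpend l hl (hin l hl)⟩

end Pool.Agent.D9
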