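import Pool.Agent.Lib.MP_d9c039_lc.Spec

set_option autoImplicit false

/-!
# MP_d9c039_lc, module DRun
-/

namespace Pool.Agent.D9

namespace DRunAux

open Classical in
/-- number of levels with a straddling alive entry -/
noncomputable def zc (P : Par) (G : GS) (N : ℕ) : ℕ :=
  ((Finset.range P.d).filter (fun l => G.Z P N l)).card

theorem zc_le (P : Par) (G : GS) (N : ℕ) : zc P G N ≤ P.d := by
  classical
  unfold zc
  refine (Finset.card_filter_le _ _).trans ?_
  simp

theorem zc_mono {P : Par} {G G' : GS} {N : ℕ} (h : ∀ l, G'.Z P N l → G.Z P N l) :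
    zc P G' N ≤ zc P G N := by
  classical
  unfold zc
  exact Finset.card_le_card (Finset.monotone_filter_right _ (fun l _ hl => h l hl))

theorem zc_lt {P : Par} {G G' : GS} {N : ℕ} (h : ∀ l, G'.Z P N l → G.Z P N l) {lam : ℕ}
    (hl : lam < P.d) (h1 : G.Z P N lam) (h2 : ¬ G'.Z P N lam) : zc P G' N + 1 ≤ zc P G N := by
  classical
  unfold zc
  apply Nat.succ_le_of_lt
  apply Finset.card_lt_card
  rw [Finset.ssubset_iff_of_subset (Finset.monotone_filter_right _ (fun l _ hl => h l hl))]
  exact ⟨lam, by simp [hl, h1], by simp [h2]⟩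

theorem Z_addA {P : Par} {G : GS} {x N l : ℕ} (hx : N < x) (h : (G.addA P x).Z P N l) :
    G.Z P N l := by
  obtain ⟨e, he, h1, h2⟩ := h
  simp only [GS.addA] at he
  split_ifs at he with hc
  · simp only [LS.add, List.mem_cons] at he
    rcases he with he | he
    · exfalso
      rw [he] at h1
      have : N / P.s l ≤ x / P.s l := Nat.div_le_div_right hx.le
      simp only at h1
      omega
    · exact ⟨e, he, h1, h2⟩
  · exact ⟨e, he, h1, h2⟩

theorem fire_al {S : LS} {i : ℕ} {e : ℕ × ℕ} (he : e ∈ (S.fire i).al) :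
    e.2 ≤ i ∧ ∃ e' ∈ S.al, e'.1 = e.1 ∧ e.2 ≤ e'.2 := by
  simp only [LS.fire, List.mem_map, List.mem_filter] at he
  obtain ⟨e', ⟨he', _⟩, rfl⟩ := he
  exact ⟨min_le_right _ _, e', he', rfl, min_le_left _ _⟩

theorem Z_addD {P : Par} {G : GS} {y lam N l : ℕ} (h : (G.addD P y lam).Z P N l) :
    G.Z P N l := by
  obtain ⟨e, he, h1, h2⟩ := h
  simp only [GS.addD] at he
  split_ifs at he with hc hl
  · obtain ⟨_, e', he', h3, h4⟩ := fire_al (S := G.st l (N / P.s (l + 1))) he
    exact ⟨e', he', by rw [h3]; exact h1, lt_of_lt_of_le h2 h4⟩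
  · obtain ⟨_, e', he', h3, h4⟩ := fire_al (S := G.st l (N / P.s (l + 1))) he
    exact ⟨e', he', by rw [h3]; exact h1, lt_of_lt_of_le h2 h4⟩
  · exact ⟨e, he, h1, h2⟩

theorem not_Z_addD {P : Par} {G : GS} {y lam N : ℕ} (hy : y ≤ N)
    (hN : y / P.s (lam + 1) = N / P.s (lam + 1)) : ¬ (G.addD P y lam).Z P N lam := by
  rintro ⟨e, he, h1, h2⟩
  simp only [GS.addD, if_pos hN, if_true] at he
  obtain ⟨h3, _⟩ := fire_al (S := G.st lam (N / P.s (lam + 1))) he
  have : y / P.s lam ≤ N / P.s lam := Nat.div_le_div_right hy
  omega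

theorem drun_false (N x : ℕ) (t : List (Bool × ℕ)) :
    drun N ((false, x) :: t) = if x ≤ N then 0 else drun N t := by
  simp [drun]

theorem drun_true (N y : ℕ) (t : List (Bool × ℕ)) :
    drun N ((true, y) :: t) = if y ≤ N then drun N t + 1 else drun N t := by
  simp [drun]

theorem main (P : Par) (G : GS) (hG : Reach P G) (N : ℕ) : drun N G.hist + zc P G N ≤ P.d + 1 := by
  induction hG with
  | init =>
    have := zc_le P GS.init N
    simp only [GS.init, drun]
    have h2 : zc P GS.init N ≤ P.d := this
    simp only [GS.init] at h2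
    omega
  | step G x r hG hx hx' hv ih =>
    cases r with
    | none =>
      have hz := zc_le P (G.addA P x) N
      change drun N ((false, x) :: G.hist) + zc P (G.addA P x) N ≤ P.d + 1
      rw [drun_false]
      split_ifs with h
      · omega
      · have := zc_mono (P := P) (G := G) (G' := G.addA P x) (N := N)
          (fun l => Z_addA (not_le.mp h))
        omega
    | some r =>
      obtain ⟨y, lam⟩ := r
      have hz := zc_le P ((G.addA P x).addD P y lam) N
      change drun N ((true, y) :: (false, x) :: G.hist) +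
        zc P ((G.addA P x).addD P y lam) N ≤ P.d + 1
      have hm : zc P ((G.addA P x).addD P y lam) N ≤ zc P (G.addA P x) N :=
        zc_mono (fun l => Z_addD)
      rw [drun_true, drun_false]
      by_cases h : x ≤ N
      · rw [if_pos h]
        split_ifs <;> omega
      · have hm' : zc P (G.addA P x) N ≤ zc P G N := zc_mono (fun l => Z_addA (not_le.mp h))
        rw [if_neg h]
        split_ifs with hy
        · obtain ⟨hlam, _, _, hyx, _, _, j, hj1, hj2, _, e0, he0, he1, he2, hreq⟩ := hv
          have hNx : N < x := not_le.mp h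
          have hN : y / P.s (lam + 1) = N / P.s (lam + 1) := by
            have k1 : y / P.s (lam + 1) ≤ N / P.s (lam + 1) := Nat.div_le_div_right hy
            have k2 : N / P.s (lam + 1) ≤ x / P.s (lam + 1) := Nat.div_le_div_right hNx.le
            omega
          have hlt : zc P ((G.addA P x).addD P y lam) N + 1 ≤ zc P (G.addA P x) N := by
            refine zc_lt (fun l => Z_addD) hlam ?_ (not_Z_addD hy hN)
            refine ⟨e0, ?_, ?_, ?_⟩
            · rw [← hN, hyx]; exact he0
            · have k1 : e0.1 < y / P.s lam := hreq.1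
              have k2 : y / P.s lam ≤ N / P.s lam := Nat.div_le_div_right hy
              omega
            · have k3 : N / P.s lam ≤ x / P.s lam := Nat.div_le_div_right hNx.le
              omega
          omega
        · omega

end DRunAux

theorem dRunB : (∀ (P : Par) (G : GS), Reach P G → GInv P G) → DRunB := by
  intro _ P G hG N _
  have := DRunAux.main P G hG N
  omega

end Pool.Agent.D9
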