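import Mathlib

set_option autoImplicit false

/-!
# MP_d9c039_lc: definitions for the theorem with O((log* n)^4) guesses

The board is `[0, s d)`, cut into aligned blocks of level `l` (length `s l`, `s (l+1) = s l * 2^(a l)`),
block `q` of level `l` is `{x | x / s l = q}`.  Events: A-events (numbers enumerated into `A`) and
marks (even numbers enumerated into `D`).
-/

namespace Pool.Agent.D9

/-- The state of one parent block, as seen by the level of its children.
`al`: the alive A-events, as pairs `(i, E)`: `i` the child (absolute index) that contains the event,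
`E > i` the smallest child that received a later mark (or the end index if there is none).
`f i`: number of marks put into child `i` on request of this parent.
`k i`: number of dead A-events of child `i`. -/
structure LS where
  al : List (ℕ × ℕ)
  f : ℕ → ℕ
  k : ℕ → ℕ

/-- the initial state -/
def LS.empty : LS := ⟨[], fun _ => 0, fun _ => 0⟩

/-- a new A-event in child `i`; `hi` is the end index of the parent -/
def LS.add (S : LS) (hi i : ℕ) : LS := { S with al := (i, hi) :: S.al }

/-- a mark in child `i` (not requested by this parent) -/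
def LS.fire (S : LS) (i : ℕ) : LS where
  al := (S.al.filter (fun e => decide (e.1 < i))).map (fun e => (e.1, min e.2 i))
  f := S.f
  k := fun c => if i ≤ c then S.k c + S.al.countP (fun e => decide (e.1 = c)) else S.k c

/-- a mark in child `i` requested by this parent -/
def LS.resp (S : LS) (i : ℕ) : LS where
  al := (S.fire i).al
  f := Function.update S.f i (S.f i + 1)
  k := (S.fire i).k

/-- `g f - k` -/
def LS.u (g : ℕ) (S : LS) (c : ℕ) : ℤ := (g : ℤ) * (S.f c : ℤ) - (S.k c : ℤ)

/-- the weight `2^((g f - k)/(g h))` -/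
noncomputable def LS.wt (g h : ℕ) (S : LS) (c : ℕ) : ℝ :=
  (2 : ℝ) ^ (((S.u g c : ℤ) : ℝ) / ((g : ℝ) * (h : ℝ)))

/-- The potential invariant of a parent with children `lo ≤ c < hi`.  `G` is the list of alive
entries together with ghost values `m ≤ min {wt c | i ≤ c < E}`; the potential
`∑ wt - (1/(4gh)) ∑ m` is at most the number of children. -/
def LS.Inv (g h lo hi : ℕ) (S : LS) : Prop :=
  (∀ e ∈ S.al, lo ≤ e.1 ∧ e.1 < e.2 ∧ e.2 ≤ hi) ∧
  ∃ G : List ((ℕ × ℕ) × ℝ), G.map Prod.fst = S.al ∧
    (∀ e ∈ G, 0 ≤ e.2 ∧ ∀ c, e.1.1 ≤ c → c < e.1.2 → e.2 ≤ S.wt g h c) ∧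
    (∑ c ∈ Finset.Ico lo hi, S.wt g h c) - (G.map Prod.snd).sum / (4 * (g : ℝ) * (h : ℝ))
      ≤ (hi : ℝ) - (lo : ℝ)

/-- number of alive entries in child `c` -/
def LS.inChild (S : LS) (c : ℕ) : ℕ := S.al.countP (fun e => decide (e.1 = c))

/-- number of alive entries that are pending for the boundary `j` (left end of child `j`) -/
def LS.pend (S : LS) (j : ℕ) : ℕ := S.al.countP (fun e => decide (e.1 < j ∧ j ≤ e.2))

/-- number of alive entries pending for the boundary `j` in children `> i1` -/
def LS.pend' (S : LS) (i1 j : ℕ) : ℕ :=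
  S.al.countP (fun e => decide (i1 < e.1 ∧ e.1 < j ∧ j ≤ e.2))

/-- violation at boundary `j`: at least `K` pending entries strictly to the right of the child of
some pending entry -/
def LS.Viol (K : ℕ) (S : LS) (j : ℕ) : Prop :=
  ∃ e0 ∈ S.al, e0.1 < j ∧ j ≤ e0.2 ∧ K ≤ S.pend' e0.1 j

/-- the request rule: child `i` with `i1 < i < j` is the leftmost one whose weight is at most
twice the minimum (in terms of `u`: at most `min u + g h`) -/
def LS.Req (g h K : ℕ) (S : LS) (i1 j i : ℕ) : Prop :=
  i1 < i ∧ i < j ∧ K ≤ S.pend' i1 j ∧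
  ∃ m, i1 < m ∧ m < j ∧ (∀ c, i1 < c → c < j → S.u g m ≤ S.u g c) ∧
    S.u g i ≤ S.u g m + (g : ℤ) * (h : ℤ) ∧
    (∀ c, i1 < c → c < i → S.u g m + (g : ℤ) * (h : ℤ) < S.u g c)

/-- the parameters of a board -/
structure Par where
  d : ℕ
  g : ℕ
  h : ℕ
  K : ℕ
  a : ℕ → ℕ
  s : ℕ → ℕ
  hd : 0 < d
  hg : 0 < g
  hh : 0 < h
  hK : K = 8 * g
  hs0 : 0 < s 0
  hev : Even (s 0)
  hs : ∀ l, s (l + 1) = s l * 2 ^ (a l)
  hM : s 0 + (d + 1) * K + 1 ≤ g * h
  hload : ∀ l < d, g * (h * (a l + 1) + 1) ≤ 7 * s l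
  hfree : 16 * d < g

/-- Global state.  `st l p`: state of the parent block `p` of level `l+1` (children: level `l`).
`mks`: the marks with the level of their request, newest first.
`hist`: the list of all events, newest first, `(false, x)` an A-event, `(true, y)` a mark. -/
structure GS where
  st : ℕ → ℕ → LS
  mks : List (ℕ × ℕ)
  hist : List (Bool × ℕ)

/-- initial state -/
def GS.init : GS := ⟨fun _ _ => LS.empty, [], []⟩

/-- the A-events, newest first -/
def GS.pl (G : GS) : List ℕ := (G.hist.filter (fun e => !e.1)).map Prod.snd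

/-- new A-event `x` -/
def GS.addA (P : Par) (G : GS) (x : ℕ) : GS where
  st := fun l p =>
    if x / P.s (l + 1) = p then (G.st l p).add ((p + 1) * 2 ^ (P.a l)) (x / P.s l) else G.st l p
  mks := G.mks
  hist := (false, x) :: G.hist

/-- new mark `y`, requested at level `lam` -/
def GS.addD (P : Par) (G : GS) (y lam : ℕ) : GS where
  st := fun l p =>
    if y / P.s (l + 1) = p then
      (if l = lam then (G.st l p).resp (y / P.s l) else (G.st l p).fire (y / P.s l))
    else G.st l p
  mks := (y, lam) :: G.mks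
  hist := (true, y) :: G.hist

/-- number of marks in block `q` of level `l` that come from requests of levels `> l` -/
def GS.gr (P : Par) (G : GS) (l q : ℕ) : ℕ :=
  G.mks.countP (fun e => decide (e.1 / P.s l = q ∧ l < e.2))

/-- number of marks in block `q` of level `l` that come from requests of levels `≥ l` -/
def GS.ld (P : Par) (G : GS) (l q : ℕ) : ℕ :=
  G.mks.countP (fun e => decide (e.1 / P.s l = q ∧ l ≤ e.2))

/-- `G` is the state just after the A-event `x`; `r` is a legal response of `D` -/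
def Valid (P : Par) (G : GS) (x : ℕ) : Option (ℕ × ℕ) → Prop
  | none => ∀ l < P.d, ∀ p j, ¬ (G.st l p).Viol P.K j
  | some (y, lam) =>
      lam < P.d ∧ Even y ∧ y ∉ G.mks.map Prod.fst ∧
      y / P.s (lam + 1) = x / P.s (lam + 1) ∧
      (∀ l < lam, ∀ p j, ¬ (G.st l p).Viol P.K j) ∧
      (∀ l < lam, ∀ q, q / 2 ^ (P.a l) = y / P.s (l + 1) → G.gr P l (y / P.s l) ≤ G.gr P l q) ∧
      ∃ j, x / P.s lam < j ∧ j ≤ (x / P.s (lam + 1) + 1) * 2 ^ (P.a lam) ∧
        (∀ j' < j, ¬ (G.st lam (x / P.s (lam + 1))).Viol P.K j') ∧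
        ∃ e0 ∈ (G.st lam (x / P.s (lam + 1))).al, e0.1 < j ∧ j ≤ e0.2 ∧
          (G.st lam (x / P.s (lam + 1))).Req P.g P.h P.K e0.1 j (y / P.s lam)

/-- apply a response -/
def GS.app (P : Par) (G : GS) : Option (ℕ × ℕ) → GS
  | none => G
  | some r => G.addD P r.1 r.2

/-- The invariant of the global state after complete rounds. -/
structure GInv (P : Par) (G : GS) : Prop where
  nodup : G.pl.Nodup
  lt : ∀ x ∈ G.pl, x < P.s P.d
  pot : ∀ l < P.d, ∀ p, (G.st l p).Inv P.g P.h (p * 2 ^ (P.a l)) ((p + 1) * 2 ^ (P.a l))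
  link : ∀ l, l + 1 < P.d → ∀ q,
    (G.st (l + 1) (q / 2 ^ (P.a (l + 1)))).inChild q ≤ (G.st l q).pend ((q + 1) * 2 ^ (P.a l))
  noviol : ∀ l < P.d, ∀ p j, ¬ (G.st l p).Viol P.K j
  kle : ∀ l < P.d, ∀ q, (G.st l (q / 2 ^ (P.a l))).k q + (G.st l (q / 2 ^ (P.a l))).inChild q
    ≤ G.pl.countP (fun x => decide (x / P.s l = q))
  fcount : ∀ l < P.d, ∀ q, (G.st l (q / 2 ^ (P.a l))).f q + G.gr P l q = G.ld P l q
  rr : ∀ l < P.d, ∀ q q', q / 2 ^ (P.a l) = q' / 2 ^ (P.a l) → G.gr P l q ≤ G.gr P l q' + 1
  mk_lt : ∀ e ∈ G.mks, e.1 < P.s P.d ∧ Even e.1 ∧ e.2 < P.d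
  mk_nodup : (G.mks.map Prod.fst).Nodup
  mk_hist : G.mks.map Prod.fst = (G.hist.filter (fun e => e.1)).map Prod.snd

/-- the reachable states (after complete rounds) -/
inductive Reach (P : Par) : GS → Prop
  | init : Reach P GS.init
  | step (G : GS) (x : ℕ) (r : Option (ℕ × ℕ)) : Reach P G → x < P.s P.d → x ∉ G.pl →
      Valid P (G.addA P x) x r → Reach P ((G.addA P x).app P r)

/-- bound for the number of pending events of a level `l` block -/
def Par.L (P : Par) (l : ℕ) : ℕ := P.s 0 + l * P.K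

/-- A-run of block `q` (of size `s`) at the cut after position `N`: the number of A-events
`x ≤ N` in the block since the last mark `y ≤ N` in the block; newest events first -/
def arun (s q N : ℕ) : List (Bool × ℕ) → ℕ
  | [] => 0
  | (b, z) :: t =>
      if z / s = q ∧ z ≤ N then (if b then 0 else arun s q N t + 1) else arun s q N t

/-- D-run at the cut after position `N`: number of marks `y ≤ N` since the last A-event `x ≤ N` -/
def drun (N : ℕ) : List (Bool × ℕ) → ℕ
  | [] => 0
  | (b, z) :: t => if z ≤ N then (if b then drun N t + 1 else 0) else drun N t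

/-- `Z l N`: some alive entry of the level `l+1` block around `N` straddles the child of `N` -/
def GS.Z (P : Par) (G : GS) (N l : ℕ) : Prop :=
  ∃ e ∈ (G.st l (N / P.s (l + 1))).al, e.1 < N / P.s l ∧ N / P.s l < e.2

/-- the number of elements `< n` of a list -/
def cnt (p : List ℕ) (n : ℕ) : ℕ := p.countP (fun x => decide (x < n))

/-- the responses along the play `p` (oldest event first) of a strategy `σ` -/
def resp (σ : List ℕ → Option ℕ) (p : List ℕ) : List ℕ :=
  (List.range p.length).filterMap (fun i => σ (p.take (i + 1)))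

/-- `σ` is a good strategy for the board `[0,S)` with bound `R` -/
def Good (S R : ℕ) (σ : List ℕ → Option ℕ) : Prop :=
  ∀ p : List ℕ, p.Nodup → (∀ x ∈ p, x < S) →
    (∀ y, σ p = some y → p ≠ [] → y < S ∧ y % 2 = 0 ∧ y ∉ resp σ (p.take (p.length - 1))) ∧
    ∀ i ≤ p.length, ∀ n ≤ S,
      (cnt (resp σ (p.take i)) n = cnt (resp σ p) n → cnt p n ≤ cnt (p.take i) n + R) ∧
      (cnt (p.take i) n = cnt p n → cnt (resp σ p) n ≤ cnt (resp σ (p.take i)) n + R)

/-- the tower function -/
def tower : ℕ → ℕ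
  | 0 => 1
  | k + 1 => 2 ^ tower k

/-- length of the board number `m` (levels `d = m+1`) -/
def sz (m l : ℕ) : ℕ :=
  Nat.rec (4 * (32 * (m + 1)) ^ 2) (fun _ s => s * 2 ^ (s / (32 * (m + 1)) ^ 2)) l

/-- length of board `m` -/
def bS (m : ℕ) : ℕ := sz m (m + 1)

/-- bound of board `m` -/
def bR (m : ℕ) : ℕ := 10000 * (m + 1) ^ 3

/-- left end of board `m` -/
def off (m : ℕ) : ℕ := Nat.rec 0 (fun i s => s + bS i) m

/-- the part of a play in board `m`, translated to `[0, bS m)` -/
def loc (m : ℕ) (p : List ℕ) : List ℕ :=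
  (p.filter (fun x => decide (off m ≤ x ∧ x < off (m + 1)))).map (fun x => x - off m)

/-- all marks at a stage with play `p`, boards `< t`, strategy of board `m`: `σ m` -/
def allD (σ : ℕ → List ℕ → Option ℕ) (t : ℕ) (p : List ℕ) : List ℕ :=
  (List.range t).flatMap (fun m => (resp (σ m) (loc m p)).map (fun y => y + off m))

/-- all duplicate-free lists with entries `< S`, of length at most `t` -/
def nplays (S : ℕ) : ℕ → List (List ℕ)
  | 0 => [[]]
  | t + 1 => nplays S t ++
      (nplays S t).flatMap (fun p =>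
        ((List.range S).filter (fun x => decide (x ∉ p))).map (fun x => p ++ [x]))

/-- the strategy given by a table -/
def tabS (T : List (List ℕ × ℕ)) : List ℕ → Option ℕ := fun p => T.lookup p

/-- the check of a table on one play -/
def Chk1 (S R : ℕ) (T : List (List ℕ × ℕ)) (p : List ℕ) : Prop :=
  (∀ y ∈ (tabS T p).toList, p ≠ [] →
      y < S ∧ y % 2 = 0 ∧ y ∉ resp (tabS T) (p.take (p.length - 1))) ∧
  ∀ i < p.length + 1, ∀ n < S + 1,
    (cnt (resp (tabS T) (p.take i)) n = cnt (resp (tabS T) p) n → cnt p n ≤ cnt (p.take i) n + R) ∧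
    (cnt (p.take i) n = cnt p n → cnt (resp (tabS T) p) n ≤ cnt (resp (tabS T) (p.take i)) n + R)

/-- the finite check of a table -/
def Chk (S R : ℕ) (T : List (List ℕ × ℕ)) : Prop := ∀ p ∈ nplays S S, Chk1 S R T p

end Pool.Agent.D9
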