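import Pool.Agent.Lib.MP_d9c039_lc.Spec

set_option autoImplicit false

/-!
# MP_d9c039_lc: enumeration of a c.e. set
-/

namespace Pool.Agent.D9

namespace EnumAux

open Nat.Partrec (Code)

/-- one step of the enumeration -/
def stp (c : Code) (s : ℕ) (l : List ℕ) : List ℕ :=
  cond ((Code.evaln (Nat.unpair s).2 c (Nat.unpair s).1).isSome &&
    (l.idxOf (Nat.unpair s).1 == l.length)) (l ++ [(Nat.unpair s).1]) l

/-- the enumeration -/
def enu (c : Code) (s : ℕ) : List ℕ := Nat.rec [] (fun s l => stp c s l) s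

theorem primrec_stp (c : Code) : Primrec₂ (stp c) := by
  have h1 : Primrec (fun q : ℕ × List ℕ => (Nat.unpair q.1).1) :=
    Primrec.fst.comp (Primrec.unpair.comp Primrec.fst)
  have h2 : Primrec (fun q : ℕ × List ℕ => (Nat.unpair q.1).2) :=
    Primrec.snd.comp (Primrec.unpair.comp Primrec.fst)
  have h3 : Primrec (fun q : ℕ × List ℕ =>
      Code.evaln (Nat.unpair q.1).2 c (Nat.unpair q.1).1) :=
    Code.primrec_evaln.comp ((h2.pair (Primrec.const c)).pair h1)
  have h4 : Primrec (fun q : ℕ × List ℕ =>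
      (Code.evaln (Nat.unpair q.1).2 c (Nat.unpair q.1).1).isSome) :=
    Primrec.option_isSome.comp h3
  have h5 : Primrec (fun q : ℕ × List ℕ => q.2.idxOf (Nat.unpair q.1).1) :=
    Primrec.list_idxOf.comp h1 Primrec.snd
  have h6 : Primrec (fun q : ℕ × List ℕ => q.2.length) := Primrec.list_length.comp Primrec.snd
  have h7 : Primrec (fun q : ℕ × List ℕ => (q.2.idxOf (Nat.unpair q.1).1 == q.2.length)) :=
    Primrec.beq.comp h5 h6
  have h8 := Primrec.and.comp h4 h7
  exact Primrec.cond h8 (Primrec.list_concat.comp Primrec.snd h1) Primrec.snd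

theorem primrec_enu (c : Code) : Primrec (enu c) :=
  Primrec.nat_rec₁ [] (primrec_stp c)

theorem enu_succ (c : Code) (s : ℕ) : enu c (s + 1) = stp c s (enu c s) := rfl

theorem stp_cases (c : Code) (s : ℕ) (l : List ℕ) :
    ((Code.evaln (Nat.unpair s).2 c (Nat.unpair s).1).isSome = true ∧ (Nat.unpair s).1 ∉ l ∧
      stp c s l = l ++ [(Nat.unpair s).1]) ∨
    (¬ ((Code.evaln (Nat.unpair s).2 c (Nat.unpair s).1).isSome = true ∧ (Nat.unpair s).1 ∉ l) ∧
      stp c s l = l) := by
  unfold stp
  have hmem : (l.idxOf (Nat.unpair s).1 == l.length) = true ↔ (Nat.unpair s).1 ∉ l := by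
    rw [beq_iff_eq, List.idxOf_eq_length_iff]
  by_cases h1 : (Code.evaln (Nat.unpair s).2 c (Nat.unpair s).1).isSome = true
  · by_cases h2 : (Nat.unpair s).1 ∉ l
    · left
      refine ⟨h1, h2, ?_⟩
      rw [h1, hmem.mpr h2]
      rfl
    · right
      refine ⟨fun h => h2 h.2, ?_⟩
      have h3 : (l.idxOf (Nat.unpair s).1 == l.length) = false := by
        rw [Bool.eq_false_iff]
        exact fun h => h2 (hmem.mp h)
      rw [h1, h3]
      rfl
  · right
    refine ⟨fun h => h1 h.1, ?_⟩
    rw [Bool.not_eq_true] at h1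
    rw [h1]
    rfl

end EnumAux

theorem enumB : EnumB := by
  intro A hA
  -- a code
  have h1 : Partrec (fun n : ℕ => (Part.assert (n ∈ A) fun _ => Part.some ()).map
      (fun _ : Unit => (0 : ℕ))) := Partrec.map hA ((Computable.const 0).to₂)
  obtain ⟨c, hc⟩ := Nat.Partrec.Code.exists_code.mp (Partrec.nat_iff.mp h1)
  have hdom : ∀ x, x ∈ A ↔ ∃ y, y ∈ c.eval x := by
    intro x
    rw [hc]
    constructor
    · intro hx
      refine ⟨0, ?_⟩
      rw [Part.mem_map_iff]
      exact ⟨(), (Part.mem_assert_iff).mpr ⟨hx, Part.mem_some _⟩, rfl⟩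
    · rintro ⟨y, hy⟩
      rw [Part.mem_map_iff] at hy
      obtain ⟨u, hu, -⟩ := hy
      obtain ⟨hx, -⟩ := (Part.mem_assert_iff).mp hu
      exact hx
  have hlt : ∀ s x, x ∈ EnumAux.enu c s → x < s := by
    intro s
    induction s with
    | zero =>
      intro x hx
      exact absurd hx (List.not_mem_nil)
    | succ s ih =>
      intro x hx
      rw [EnumAux.enu_succ] at hx
      rcases EnumAux.stp_cases c s (EnumAux.enu c s) with ⟨-, -, h⟩ | ⟨-, h⟩
      · rw [h, List.mem_append, List.mem_singleton] at hx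
        rcases hx with hx | hx
        · exact (ih x hx).trans (Nat.lt_succ_self s)
        · rw [hx]
          exact Nat.lt_succ_of_le (Nat.unpair_left_le s)
      · rw [h] at hx
        exact (ih x hx).trans (Nat.lt_succ_self s)
  refine ⟨EnumAux.enu c, (EnumAux.primrec_enu c).to_comp, ?_, ?_, rfl, hlt, ?_⟩
  · intro s
    induction s with
    | zero => exact List.nodup_nil
    | succ s ih =>
      rw [EnumAux.enu_succ]
      rcases EnumAux.stp_cases c s (EnumAux.enu c s) with ⟨-, h2, h⟩ | ⟨-, h⟩
      · rw [h]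
        exact ih.append (List.nodup_singleton _) (by
          intro x hx hx'
          rw [List.mem_singleton] at hx'
          rw [hx'] at hx
          exact h2 hx)
      · rw [h]
        exact ih
  · intro s
    rw [EnumAux.enu_succ]
    rcases EnumAux.stp_cases c s (EnumAux.enu c s) with ⟨-, -, h⟩ | ⟨-, h⟩
    · exact Or.inr ⟨_, h⟩
    · exact Or.inl h
  · intro x
    rw [hdom]
    constructor
    · rintro ⟨y, hy⟩
      obtain ⟨k, hk⟩ := Nat.Partrec.Code.evaln_complete.mp hy
      refine ⟨Nat.pair x k + 1, ?_⟩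
      rw [EnumAux.enu_succ]
      rcases EnumAux.stp_cases c (Nat.pair x k) (EnumAux.enu c (Nat.pair x k)) with
        ⟨-, -, h⟩ | ⟨h2, h⟩
      · rw [h, Nat.unpair_pair]
        exact List.mem_append_right _ (List.mem_singleton.mpr rfl)
      · rw [h]
        rw [Nat.unpair_pair] at h2
        by_contra hcon
        apply h2
        refine ⟨?_, hcon⟩
        rw [Option.isSome_iff_exists]
        exact ⟨y, hk⟩
    · rintro ⟨s, hs⟩
      induction s with
      | zero => exact absurd hs (List.not_mem_nil)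
      | succ s ih =>
        rw [EnumAux.enu_succ] at hs
        rcases EnumAux.stp_cases c s (EnumAux.enu c s) with ⟨h2, -, h⟩ | ⟨-, h⟩
        · rw [h, List.mem_append, List.mem_singleton] at hs
          rcases hs with hs | hs
          · exact ih hs
          · rw [Option.isSome_iff_exists] at h2
            obtain ⟨y, hy⟩ := h2
            rw [← hs] at hy
            exact ⟨y, Nat.Partrec.Code.evaln_complete.mpr ⟨_, hy⟩⟩
        · rw [h] at hs
          exact ih hs

end Pool.Agent.D9
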