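import Pool.Agent.Lib.MP_d9c039_lc.Spec

set_option autoImplicit false

/-!
# MP_d9c039_lc, module Guess
-/

namespace Pool.Agent.D9

namespace GuessAux

/-- the characteristic list of `L` below `n` -/
def cut (L : List ℕ) (n : ℕ) : List Bool := (List.range n).map (fun i => decide (i ∈ L))

theorem cut_length (L : List ℕ) (n : ℕ) : (cut L n).length = n := by simp [cut]

theorem cut_getD (L : List ℕ) (n i : ℕ) (hi : i < n) :
    (cut L n).getD i false = decide (i ∈ L) := by
  rw [List.getD_eq_getElem _ _ (by rw [cut_length]; exact hi)]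
  simp [cut]

theorem eq_cut (τ : List Bool) (L : List ℕ) (n : ℕ) (hτ : τ.length = n)
    (h : ∀ i < n, (τ.getD i false = true ↔ i ∈ L)) : τ = cut L n := by
  apply List.ext_getElem
  · rw [hτ, cut_length]
  · intro i h1 h2
    have hi : i < n := by rw [← hτ]; exact h1
    have h3 := h i hi
    have h4 := cut_getD L n i hi
    rw [List.getD_eq_getElem _ _ h2] at h4
    rw [List.getD_eq_getElem _ _ h1] at h3
    rw [h4, Bool.eq_iff_iff, decide_eq_true_iff]
    exact h3

theorem cnt_eq (L : List ℕ) (n : ℕ) :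
    cnt L n = (L.filter (fun x => decide (x < n))).length := List.countP_eq_length_filter

theorem cnt_congr (L L' : List ℕ) (n : ℕ) (h : L.Nodup) (h' : L'.Nodup)
    (hh : ∀ x < n, (x ∈ L ↔ x ∈ L')) : cnt L n = cnt L' n := by
  rw [cnt_eq, cnt_eq]
  apply List.Perm.length_eq
  rw [List.perm_ext_iff_of_nodup (h.filter _) (h'.filter _)]
  intro x
  simp only [List.mem_filter, decide_eq_true_eq]
  constructor
  · rintro ⟨h1, h2⟩; exact ⟨(hh x h2).mp h1, h2⟩
  · rintro ⟨h1, h2⟩; exact ⟨(hh x h2).mpr h1, h2⟩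

theorem cnt_mono (L L' : List ℕ) (n : ℕ) (h : L.Nodup) (hh : ∀ x ∈ L, x ∈ L') :
    cnt L n ≤ cnt L' n := by
  rw [cnt_eq, cnt_eq]
  apply List.Subperm.length_le
  apply List.subperm_of_subset (h.filter _)
  intro x hx
  simp only [List.mem_filter, decide_eq_true_eq] at hx ⊢
  exact ⟨hh x hx.1, hx.2⟩

theorem mem_of_cnt (L L' : List ℕ) (n : ℕ) (h : L.Nodup) (hh : ∀ x ∈ L, x ∈ L')
    (hc : cnt L' n ≤ cnt L n) (x : ℕ) (hx : x < n) (hL : x ∈ L') : x ∈ L := by
  rw [cnt_eq, cnt_eq] at hc
  have h1 : List.Subperm (L.filter (fun x => decide (x < n)))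
      (L'.filter (fun x => decide (x < n))) := by
    apply List.subperm_of_subset (h.filter _)
    intro x hx
    simp only [List.mem_filter, decide_eq_true_eq] at hx ⊢
    exact ⟨hh x hx.1, hx.2⟩
  have h2 := h1.perm_of_length_le hc
  have h3 : x ∈ L'.filter (fun x => decide (x < n)) := by
    simp only [List.mem_filter, decide_eq_true_eq]
    exact ⟨hL, hx⟩
  have h4 := h2.mem_iff.mpr h3
  simp only [List.mem_filter] at h4
  exact h4.1

theorem rfind_spec (f : ℕ → Bool) (s : ℕ) (h : f s = true) :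
    ∃ s', s' ∈ Nat.rfind (fun s => Part.some (f s)) ∧ f s' = true ∧ s' ≤ s := by
  have hex : ∃ s, f s = true := ⟨s, h⟩
  refine ⟨Nat.find hex, ?_, Nat.find_spec hex, Nat.find_min' hex h⟩
  rw [Nat.mem_rfind]
  constructor
  · rw [Part.mem_some_iff]
    exact (Nat.find_spec hex).symm
  · intro m hm
    rw [Part.mem_some_iff]
    have := Nat.find_min hex hm
    cases hf : f m
    · rfl
    · exact absurd hf this

theorem mem_primrec : PrimrecRel (fun (L : List ℕ) (b : ℕ) => b ∈ L) := by
  have h := (PrimrecRel.exists_mem_list (R := fun a b : ℕ => a = b) Primrec.eq)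
  refine PrimrecPred.of_eq h ?_
  intro p
  simp

theorem cut_primrec : Primrec₂ cut := by
  unfold cut
  refine Primrec.list_map (Primrec.list_range.comp Primrec.snd) ?_
  have h : Primrec₂ (fun (L : List ℕ) (b : ℕ) => decide (b ∈ L)) := mem_primrec.decide
  exact h.comp₂ (Primrec.fst.comp Primrec.fst).to₂ Primrec₂.right

theorem cnt_primrec : Primrec₂ cnt := by
  have h : Primrec₂ (fun (L : List ℕ) (n : ℕ) => L.filter (fun x => decide (x < n))) :=
    PrimrecRel.listFilter (R := fun a b : ℕ => a < b) Primrec.nat_lt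
  have h2 : Primrec₂ (fun (L : List ℕ) (n : ℕ) => (L.filter (fun x => decide (x < n))).length) :=
    Primrec.list_length.comp₂ h
  exact h2.of_eq fun L n => (cnt_eq L n).symm

theorem mono_le (a : ℕ → List ℕ) (h : ∀ s x, x ∈ a s → x ∈ a (s + 1)) (s s' : ℕ) (hs : s ≤ s')
    (x : ℕ) (hx : x ∈ a s) : x ∈ a s' := by
  induction hs with
  | refl => exact hx
  | step _ ih => exact h _ _ ih

/-- a stage at which the set is correct below `n` -/
theorem stage (a : ℕ → List ℕ) (A : Set ℕ) (h : ∀ s x, x ∈ a s → x ∈ a (s + 1))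
    (hA : ∀ x, x ∈ A ↔ ∃ s, x ∈ a s) (n : ℕ) : ∃ S, ∀ i < n, i ∈ A → i ∈ a S := by
  induction n with
  | zero => exact ⟨0, fun i hi => absurd hi (by omega)⟩
  | succ n ih =>
    obtain ⟨S, hS⟩ := ih
    by_cases hn : n ∈ A
    · obtain ⟨s, hs⟩ := (hA n).mp hn
      refine ⟨max S s, fun i hi hiA => ?_⟩
      rcases Nat.lt_succ_iff_lt_or_eq.mp hi with h1 | h1
      · exact mono_le a h S _ (le_max_left _ _) i (hS i h1 hiA)
      · subst h1
        exact mono_le a h s _ (le_max_right _ _) _ hs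
    · refine ⟨S, fun i hi hiA => ?_⟩
      rcases Nat.lt_succ_iff_lt_or_eq.mp hi with h1 | h1
      · exact hS i h1 hiA
      · subst h1
        exact absurd hiA hn

/-- first search -/
def f1 (d : ℕ → List ℕ) (t : List Bool × ℕ) (s : ℕ) : Bool :=
  decide (t.1 = cut (d s) t.1.length)

/-- second search -/
def f2 (a : ℕ → List ℕ) (t : (List Bool × ℕ) × ℕ) (s : ℕ) : Bool :=
  decide (t.2 ≤ s) && decide (cnt (a s) t.1.1.length = cnt (a t.2) t.1.1.length + t.1.2)

/-- the partial function -/
def phi (a d : ℕ → List ℕ) : List Bool × ℕ →. List Bool := fun t =>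
  (Nat.rfind (fun s => Part.some (f1 d t s))).bind fun s0 =>
    (Nat.rfind (fun s => Part.some (f2 a (t, s0) s))).map fun s => cut (a s) t.1.length

theorem f1_comp (d : ℕ → List ℕ) (hd : Computable d) : Computable₂ (f1 d) := by
  unfold f1
  have h : Computable₂ (fun (x y : List Bool) => decide (x = y)) := Primrec.eq.decide.to_comp
  have hl : Computable (fun p : (List Bool × ℕ) × ℕ => p.1.1.length) :=
    Computable.list_length.comp (Computable.fst.comp Computable.fst)
  have hc : Computable (fun p : (List Bool × ℕ) × ℕ => cut (d p.2) p.1.1.length) :=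
    cut_primrec.to_comp.comp (hd.comp Computable.snd) hl
  exact h.comp (Computable.fst.comp Computable.fst) hc

theorem f2_comp (a : ℕ → List ℕ) (ha : Computable a) : Computable₂ (f2 a) := by
  unfold f2
  have h : Computable₂ (fun (x y : ℕ) => decide (x = y)) := Primrec.eq.decide.to_comp
  have h' : Computable₂ (fun (x y : ℕ) => decide (x ≤ y)) := Primrec.nat_le.decide.to_comp
  have hl : Computable (fun p : ((List Bool × ℕ) × ℕ) × ℕ => p.1.1.1.length) :=
    Computable.list_length.comp (Computable.fst.comp (Computable.fst.comp Computable.fst))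
  have hc : Computable (fun p : ((List Bool × ℕ) × ℕ) × ℕ => cnt (a p.2) p.1.1.1.length) :=
    cnt_primrec.to_comp.comp (ha.comp Computable.snd) hl
  have hc' : Computable (fun p : ((List Bool × ℕ) × ℕ) × ℕ => cnt (a p.1.2) p.1.1.1.length) :=
    cnt_primrec.to_comp.comp (ha.comp (Computable.snd.comp Computable.fst)) hl
  have hadd : Computable (fun p : ((List Bool × ℕ) × ℕ) × ℕ =>
      cnt (a p.1.2) p.1.1.1.length + p.1.1.2) :=
    Primrec.nat_add.to_comp.comp hc'
      (Computable.snd.comp (Computable.fst.comp Computable.fst))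
  exact Primrec.and.to_comp.comp
    (h'.comp (Computable.snd.comp Computable.fst) Computable.snd) (h.comp hc hadd)

theorem phi_partrec (a d : ℕ → List ℕ) (ha : Computable a) (hd : Computable d) :
    Partrec (phi a d) := by
  unfold phi
  refine Partrec.bind (Partrec.rfind (f1_comp d hd).partrec₂) ?_
  refine Partrec.map (Partrec.rfind ?_) ?_
  · exact (f2_comp a ha).partrec₂
  · have hl : Computable (fun p : ((List Bool × ℕ) × ℕ) × ℕ => p.1.1.1.length) :=
      Computable.list_length.comp (Computable.fst.comp (Computable.fst.comp Computable.fst))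
    exact cut_primrec.to_comp.comp (ha.comp Computable.snd) hl

end GuessAux

open GuessAux

theorem guessB : GuessB := by
  intro a d A D b ha hd han hdn ham hdm hA hD hb
  refine ⟨phi a d, phi_partrec a d ha hd, ?_⟩
  intro n τ hτ hτD
  obtain ⟨S, hS⟩ := stage d D hdm hD n
  have hτS : τ = cut (d S) n := by
    apply eq_cut τ (d S) n hτ
    intro i hi
    rw [hτD i hi]
    exact ⟨hS i hi, fun h => (hD i).mpr ⟨S, h⟩⟩
  obtain ⟨s0, hs0, hs0t, _⟩ := rfind_spec (f1 d (τ, 0)) S (by
    unfold f1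
    simp only [decide_eq_true_eq, hτ]
    exact hτS)
  have hs0eq : τ = cut (d s0) n := by
    unfold f1 at hs0t
    simpa [hτ] using hs0t
  have hmem0 : ∀ i < n, (i ∈ d s0 ↔ i ∈ D) := by
    intro i hi
    rw [← hτD i hi, hs0eq, cut_getD _ _ _ hi, decide_eq_true_iff]
  have hcd : ∀ s, s0 ≤ s → cnt (d s0) n = cnt (d s) n := by
    intro s hs
    apply cnt_congr _ _ _ (hdn _) (hdn _)
    intro i hi
    constructor
    · exact mono_le d hdm s0 s hs i
    · intro h
      exact (hmem0 i hi).mpr ((hD i).mpr ⟨s, h⟩)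
  obtain ⟨S0, hS0⟩ := stage a A ham hA n
  set S1 := max S0 s0 with hS1
  have hS1A : ∀ i < n, (i ∈ a S1 ↔ i ∈ A) := fun i hi =>
    ⟨fun h => (hA i).mpr ⟨S1, h⟩, fun h => mono_le a ham S0 S1 (le_max_left _ _) i (hS0 i hi h)⟩
  have hs01 : s0 ≤ S1 := le_max_right _ _
  have hmono : cnt (a s0) n ≤ cnt (a S1) n :=
    cnt_mono _ _ _ (han _) (fun x hx => mono_le a ham s0 S1 hs01 x hx)
  have hbound := hb n s0 S1 hs01 (hcd S1 hs01)
  refine ⟨cnt (a S1) n - cnt (a s0) n, by omega, ?_⟩
  obtain ⟨s1, hs1, hs1t, hs1le⟩ := rfind_spec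
    (f2 a ((τ, cnt (a S1) n - cnt (a s0) n), s0)) S1 (by
      unfold f2
      simp only [Bool.and_eq_true, decide_eq_true_eq, hτ]
      omega)
  have hs1' : s0 ≤ s1 ∧ cnt (a s1) n = cnt (a S1) n := by
    unfold f2 at hs1t
    simp only [Bool.and_eq_true, decide_eq_true_eq, hτ] at hs1t
    omega
  refine ⟨cut (a s1) n, ?_, cut_length _ _, ?_⟩
  · unfold phi
    rw [Part.mem_bind_iff]
    refine ⟨s0, hs0, ?_⟩
    rw [Part.mem_map_iff]
    refine ⟨s1, hs1, ?_⟩
    simp only [hτ]
  · intro i hi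
    rw [cut_getD _ _ _ hi, decide_eq_true_iff, ← hS1A i hi]
    constructor
    · exact mono_le a ham s1 S1 hs1le i
    · exact mem_of_cnt (a s1) (a S1) n (han _) (fun x hx => mono_le a ham s1 S1 hs1le x hx)
        hs1'.2.ge i hi

end Pool.Agent.D9
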