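import Pool.Agent.Lib.MP_d9c039_lc.Spec

set_option autoImplicit false

namespace Pool.Agent.D9

namespace LoadAux

/-- a block of length `s` contains at most `s` entries of a duplicate-free list -/
theorem count_block (l : List ℕ) (hl : l.Nodup) (s q : ℕ) (hs : 0 < s) :
    l.countP (fun x => decide (x / s = q)) ≤ s := by
  classical
  rw [List.countP_eq_length_filter]
  have h1 : (l.filter (fun x => decide (x / s = q))).Nodup := hl.filter _
  rw [← List.toFinset_card_of_nodup h1]
  calc (l.filter (fun x => decide (x / s = q))).toFinset.card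
      ≤ (Finset.Ico (q * s) (q * s + s)).card := by
        apply Finset.card_le_card
        intro x hx
        rw [List.mem_toFinset, List.mem_filter] at hx
        have h2 : x / s = q := of_decide_eq_true hx.2
        rw [Finset.mem_Ico]
        have h3 := (Nat.div_eq_iff hs).mp h2
        constructor
        · exact h3.1
        · have := h3.2
          omega
    _ = s := by simp

/-- marks of the children are marks of the parent -/
theorem sum_gr (P : Par) (G : GS) (l p : ℕ) :
    ∑ q ∈ Finset.Ico (p * 2 ^ (P.a l)) ((p + 1) * 2 ^ (P.a l)), G.gr P l q = G.ld P (l + 1) p := by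
  unfold GS.gr GS.ld
  have hpos : 0 < 2 ^ (P.a l) := by positivity
  induction G.mks with
  | nil => simp
  | cons e t ih =>
    simp only [List.countP_cons, decide_eq_true_eq]
    rw [Finset.sum_add_distrib, ih]
    congr 1
    have hdiv : e.1 / P.s (l + 1) = e.1 / P.s l / 2 ^ (P.a l) := by
      rw [P.hs, Nat.div_div_eq_div_mul]
    by_cases hl : l < e.2
    · by_cases hp : e.1 / P.s (l + 1) = p
      · rw [if_pos ⟨hp, hl⟩]
        have hmem : e.1 / P.s l ∈ Finset.Ico (p * 2 ^ (P.a l)) ((p + 1) * 2 ^ (P.a l)) := by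
          rw [Finset.mem_Ico]
          rw [hdiv, Nat.div_eq_iff hpos] at hp
          have h5 : (p + 1) * 2 ^ (P.a l) = p * 2 ^ (P.a l) + 2 ^ (P.a l) := by ring
          omega
        rw [Finset.sum_eq_single (e.1 / P.s l)]
        · rw [if_pos ⟨rfl, hl⟩]
        · intro q _ hq
          rw [if_neg]
          rintro ⟨h1, -⟩
          exact hq h1.symm
        · intro h
          exact absurd hmem h
      · rw [if_neg (fun h => hp h.1)]
        apply Finset.sum_eq_zero
        intro q hq
        rw [if_neg]
        rintro ⟨h1, -⟩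
        apply hp
        rw [Finset.mem_Ico] at hq
        rw [hdiv, Nat.div_eq_iff hpos, h1]
        have h5 : (p + 1) * 2 ^ (P.a l) = p * 2 ^ (P.a l) + 2 ^ (P.a l) := by ring
        omega
    · rw [if_neg (fun h => hl h.2)]
      apply Finset.sum_eq_zero
      intro q _
      rw [if_neg (fun h => hl h.2)]

theorem s_pos (P : Par) (l : ℕ) : 0 < P.s l := by
  induction l with
  | zero => exact P.hs0
  | succ l ih => rw [P.hs]; positivity

end LoadAux

theorem loadB : PotBound → CntB → LoadB := by
  intro hPB hC P G hG l hl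
  obtain ⟨hin, -⟩ := hC P G hG
  obtain ⟨e, he⟩ : ∃ e, e = P.d - l := ⟨_, rfl⟩
  induction e generalizing l with
  | zero =>
    intro q
    have h1 : l = P.d := by omega
    subst h1
    have h2 : G.ld P P.d q = 0 := by
      unfold GS.ld
      rw [List.countP_eq_zero]
      intro e he hec
      have h3 := (hG.mk_lt e he).2.2
      have h4 := (of_decide_eq_true hec).2
      omega
    rw [h2]
    omega
  | succ e ih =>
    intro q
    have hl' : l < P.d := by omega
    have ih' := ih (l + 1) (by omega) (by omega)
    set p := q / 2 ^ (P.a l) with hp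
    have hs := LoadAux.s_pos P l
    have hpos : 0 < 2 ^ (P.a l) := by positivity
    have hlo : p * 2 ^ (P.a l) ≤ q := Nat.div_mul_le_self q _
    have hhi : q < (p + 1) * 2 ^ (P.a l) := by
      have h6 := Nat.lt_div_mul_add (a := q) hpos
      rw [← hp] at h6
      have h5 : (p + 1) * 2 ^ (P.a l) = p * 2 ^ (P.a l) + 2 ^ (P.a l) := by ring
      omega
    -- the requests of this level
    have hkle := hG.kle l hl' q
    have hcnt := LoadAux.count_block G.pl hG.nodup (P.s l) q hs
    have hinle : ∀ c, (G.st l p).inChild c ≤ P.g * P.h := by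
      intro c
      have h1 := hin l hl' p c
      have h2 := P.hM
      have h3 : P.L l ≤ P.s 0 + (P.d + 1) * P.K := by
        unfold Par.L
        have : l * P.K ≤ (P.d + 1) * P.K := Nat.mul_le_mul_right _ (by omega)
        omega
      omega
    have hf := hPB P.g P.h (p * 2 ^ (P.a l)) ((p + 1) * 2 ^ (P.a l)) (P.a l) (G.st l p) P.hg P.hh
      (by ring) hinle (hG.pot l hl' p) q hlo hhi
    have hload := P.hload l hl'
    -- the marks from above
    have hsum := LoadAux.sum_gr P G l p
    have hgr : 2 ^ (P.a l) * G.gr P l q ≤ G.ld P (l + 1) p + 2 ^ (P.a l) := by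
      have h1 : ∀ q' ∈ Finset.Ico (p * 2 ^ (P.a l)) ((p + 1) * 2 ^ (P.a l)),
          G.gr P l q ≤ G.gr P l q' + 1 := by
        intro q' hq'
        rw [Finset.mem_Ico] at hq'
        apply hG.rr l hl'
        rw [← hp]
        symm
        rw [Nat.div_eq_iff hpos]
        have h5 : (p + 1) * 2 ^ (P.a l) = p * 2 ^ (P.a l) + 2 ^ (P.a l) := by ring
        omega
      have h2 := Finset.sum_le_sum h1
      have h6 : (Finset.Ico (p * 2 ^ (P.a l)) ((p + 1) * 2 ^ (P.a l))).card = 2 ^ (P.a l) := by
        rw [Nat.card_Ico]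
        have h5 : (p + 1) * 2 ^ (P.a l) = p * 2 ^ (P.a l) + 2 ^ (P.a l) := by ring
        omega
      rw [Finset.sum_const, Finset.sum_add_distrib, hsum, Finset.sum_const, h6, smul_eq_mul,
        smul_eq_mul, mul_one] at h2
      exact h2
    have hgr2 : P.g * G.gr P l q ≤ 8 * e * P.s l + P.g := by
      have h1 := ih' p
      have h2 : P.d - (l + 1) = e := by omega
      rw [h2, P.hs] at h1
      have h3 : 2 ^ (P.a l) * (P.g * G.gr P l q) ≤ 2 ^ (P.a l) * (8 * e * P.s l + P.g) := by
        calc 2 ^ (P.a l) * (P.g * G.gr P l q) = P.g * (2 ^ (P.a l) * G.gr P l q) := by ring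
          _ ≤ P.g * (G.ld P (l + 1) p + 2 ^ (P.a l)) := Nat.mul_le_mul_left _ hgr
          _ = P.g * G.ld P (l + 1) p + P.g * 2 ^ (P.a l) := by ring
          _ ≤ 8 * e * (P.s l * 2 ^ (P.a l)) + P.g * 2 ^ (P.a l) := Nat.add_le_add_right h1 _
          _ = 2 ^ (P.a l) * (8 * e * P.s l + P.g) := by ring
      exact Nat.le_of_mul_le_mul_left h3 hpos
    have hfc := hG.fcount l hl' q
    rw [← hp] at hfc hkle
    have h2 : P.d - l = e + 1 := by omega
    rw [h2, ← hfc]
    have h7 : P.g * (P.h * (P.a l + 1) + 1) = P.g * P.h * (P.a l + 1) + P.g := by ring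
    rw [h7] at hload
    have h8 : 8 * (e + 1) * P.s l = 8 * e * P.s l + 8 * P.s l := by ring
    rw [h8, mul_add]
    omega

end Pool.Agent.D9
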