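import Pool.Agent.Lib.MP_d9c039_lc.PotFire

set_option autoImplicit false

namespace Pool.Agent.D9

open PotFireAux in
theorem potBound : PotBound := by
  intro g h lo hi a S hg hh hhi hn hS c hc1 hc2
  obtain ⟨hb, G, hG, hm, hpot⟩ := hS
  have hg' : (0 : ℝ) < g := by exact_mod_cast hg
  have hh' : (0 : ℝ) < h := by exact_mod_cast hh
  -- sum of ghost values
  have h1 := drop_le (S.wt g h) G 0 hi (by
    intro e he
    have he' : e.1 ∈ S.al := by rw [← hG]; exact List.mem_map_of_mem he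
    obtain ⟨a1, a2, a3⟩ := hb _ he'
    exact ⟨by omega, (hm e he).2 _ le_rfl a2⟩)
  simp only [Nat.not_lt_zero, if_false] at h1
  rw [hG] at h1
  have h2 : ∑ c ∈ Finset.Ico 0 hi, ((S.al.countP (fun e => decide (e.1 = c)) : ℕ) : ℝ) * S.wt g h c
      = ∑ c ∈ Finset.Ico lo hi, ((S.al.countP (fun e => decide (e.1 = c)) : ℕ) : ℝ) * S.wt g h c := by
    symm
    apply Finset.sum_subset (Finset.Ico_subset_Ico_left (Nat.zero_le _))
    intro c' hc' hc''
    have : S.al.countP (fun e => decide (e.1 = c')) = 0 := by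
      rw [List.countP_eq_zero]
      intro e he
      simp only [decide_eq_true_eq]
      have := hb e he
      simp only [Finset.mem_Ico] at hc' hc''
      omega
    rw [this]
    simp
  rw [h2] at h1
  have h3 : ∑ c ∈ Finset.Ico lo hi, ((S.al.countP (fun e => decide (e.1 = c)) : ℕ) : ℝ) * S.wt g h c
      ≤ ((g : ℝ) * (h : ℝ)) * ∑ c ∈ Finset.Ico lo hi, S.wt g h c := by
    rw [Finset.mul_sum]
    apply Finset.sum_le_sum
    intro c' _
    apply mul_le_mul_of_nonneg_right _ (wt_pos g h S c').le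
    have := hn c'
    unfold LS.inChild at this
    exact_mod_cast this
  set W := ∑ c ∈ Finset.Ico lo hi, S.wt g h c with hW
  have h4 : (G.map Prod.snd).sum ≤ (g : ℝ) * (h : ℝ) * W := h1.trans h3
  have h5 : (G.map Prod.snd).sum / (4 * (g : ℝ) * (h : ℝ)) ≤ W / 4 := by
    rw [div_le_iff₀ (by positivity)]
    have : W / 4 * (4 * (g : ℝ) * (h : ℝ)) = (g : ℝ) * (h : ℝ) * W := by ring
    rw [this]; exact h4
  have h6 : (hi : ℝ) - lo = 2 ^ a := by
    rw [hhi]; push_cast; ring
  rw [h6] at hpot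
  have h7 : W ≤ 4 / 3 * 2 ^ a := by linarith
  have h8 : S.wt g h c ≤ W := by
    rw [hW]
    exact Finset.single_le_sum (f := fun c => S.wt g h c)
      (fun c _ => (wt_pos g h S c).le) (by simp; omega)
  have h9 : S.wt g h c < (2 : ℝ) ^ ((a : ℝ) + 1) := by
    have e1 : (2 : ℝ) ^ ((a : ℝ) + 1) = 2 * 2 ^ a := by
      rw [Real.rpow_add (by norm_num), Real.rpow_one, Real.rpow_natCast]; ring
    rw [e1]
    have : (0 : ℝ) < 2 ^ a := by positivity
    linarith
  unfold LS.wt at h9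
  have h10 := (Real.rpow_lt_rpow_left_iff (by norm_num : (1 : ℝ) < 2)).1 h9
  rw [div_lt_iff₀ (by positivity)] at h10
  have h11 : (S.u g c : ℤ) < (g * h * (a + 1) : ℕ) := by
    have : ((S.u g c : ℤ) : ℝ) < ((g * h * (a + 1) : ℕ) : ℝ) := by
      push_cast
      calc ((S.u g c : ℤ) : ℝ) < ((a : ℝ) + 1) * ((g : ℝ) * (h : ℝ)) := h10
        _ = (g : ℝ) * (h : ℝ) * ((a : ℝ) + 1) := by ring
    exact_mod_cast this
  unfold LS.u at h11
  zify
  push_cast at h11
  linarith

end Pool.Agent.D9
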