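import Pool.Agent.Lib.MP_d9c039_lc.PotFire

set_option autoImplicit false

namespace Pool.Agent.D9

namespace PotRespAux

open PotFireAux

lemma wt_resp (g h : ℕ) (S : LS) (i c : ℕ) (hg : 0 < g) (hh : 0 < h) :
    (S.resp i).wt g h c =
      if c = i then (S.fire i).wt g h c * (2 : ℝ) ^ (1 / (h : ℝ)) else (S.fire i).wt g h c := by
  have hg' : (g : ℝ) ≠ 0 := by positivity
  have hh' : (h : ℝ) ≠ 0 := by positivity
  unfold LS.wt
  split_ifs with hc
  · subst hc
    rw [← Real.rpow_add (by norm_num)]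
    congr 1
    have : ((S.resp c).u g c : ℤ) = (S.fire c).u g c + g := by
      simp only [LS.u, LS.resp, LS.fire, Function.update_self]
      push_cast
      ring
    rw [this]
    push_cast
    field_simp
  · congr 2
    have : ((S.resp i).u g c : ℤ) = (S.fire i).u g c := by
      simp only [LS.u, LS.resp, LS.fire, Function.update_of_ne hc]
    rw [this]

lemma wt_mono (g h : ℕ) (S : LS) (c c' : ℕ) (hcc : S.u g c ≤ S.u g c') :
    S.wt g h c ≤ S.wt g h c' := by
  unfold LS.wt
  apply Real.rpow_le_rpow_of_exponent_le (by norm_num)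
  apply div_le_div_of_nonneg_right _ (by positivity)
  exact_mod_cast hcc

lemma wt_add (g h : ℕ) (S : LS) (c : ℕ) (hg : 0 < g) (hh : 0 < h) (v : ℤ)
    (hv : v = S.u g c + (g : ℤ) * (h : ℤ)) :
    (2 : ℝ) ^ ((v : ℝ) / ((g : ℝ) * (h : ℝ))) = 2 * S.wt g h c := by
  have hg' : (g : ℝ) ≠ 0 := by positivity
  have hh' : (h : ℝ) ≠ 0 := by positivity
  subst hv
  unfold LS.wt
  have : (((S.u g c + (g : ℤ) * (h : ℤ) : ℤ)) : ℝ) / ((g : ℝ) * (h : ℝ)) =
      ((S.u g c : ℤ) : ℝ) / ((g : ℝ) * (h : ℝ)) + 1 := by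
    push_cast
    field_simp
  rw [this, Real.rpow_add (by norm_num), Real.rpow_one]
  ring

/-- counting: the entries counted by `pend'` either survive or sit in `[i, j)` -/
lemma pend_split (al : List (ℕ × ℕ)) (i1 i j : ℕ) (_hij : i < j) :
    al.countP (fun e => decide (i1 < e.1 ∧ e.1 < j ∧ j ≤ e.2)) ≤
      al.countP (fun e => decide (e.1 < i ∧ i1 < e.1 ∧ j ≤ e.2)) +
      ∑ c ∈ Finset.Ico i j, al.countP (fun e => decide (e.1 = c)) := by
  induction al with
  | nil => simp
  | cons e t ih =>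
    simp only [List.countP_cons, decide_eq_true_eq, Finset.sum_add_distrib]
    have key : (if i1 < e.1 ∧ e.1 < j ∧ j ≤ e.2 then 1 else 0) ≤
        (if e.1 < i ∧ i1 < e.1 ∧ j ≤ e.2 then 1 else 0) +
        ∑ c ∈ Finset.Ico i j, (if e.1 = c then 1 else 0) := by
      rw [Finset.sum_ite_eq]
      by_cases h1 : i1 < e.1 ∧ e.1 < j ∧ j ≤ e.2
      · rw [if_pos h1]
        by_cases h2 : e.1 < i
        · rw [if_pos ⟨h2, h1.1, h1.2.2⟩]; omega
        · rw [if_pos (by simp only [Finset.mem_Ico]; omega : e.1 ∈ Finset.Ico i j)]; omega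
      · rw [if_neg h1]; omega
    omega

/-- the new ghost values -/
noncomputable def nv (i1 j : ℕ) (m0 : ℝ) (e : (ℕ × ℕ) × ℝ) : ℝ :=
  if i1 < e.1.1 ∧ j ≤ e.1.2 then 2 * m0 else e.2

lemma sum_nv (G : List ((ℕ × ℕ) × ℝ)) (i1 i j : ℕ) (m0 : ℝ)
    (hG : ∀ e ∈ G, e.1.1 < i → i1 < e.1.1 → j ≤ e.1.2 → e.2 ≤ m0) :
    (((G.filter (fun e => decide (e.1.1 < i))).map
      (fun e => ((e.1.1, min e.1.2 i), e.2))).map Prod.snd).sum +
      m0 * (((G.map Prod.fst).countP (fun e => decide (e.1 < i ∧ i1 < e.1 ∧ j ≤ e.2)) : ℕ) : ℝ) ≤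
    (((G.filter (fun e => decide (e.1.1 < i))).map
      (fun e => ((e.1.1, min e.1.2 i), nv i1 j m0 e))).map Prod.snd).sum := by
  induction G with
  | nil => simp
  | cons e t ih =>
    have ih' := ih (fun e' he' => hG e' (List.mem_cons_of_mem _ he'))
    have he := hG e List.mem_cons_self
    by_cases h1 : e.1.1 < i
    · rw [List.filter_cons_of_pos (by simpa using h1)]
      simp only [List.map_cons, List.sum_cons, List.countP_cons, decide_eq_true_eq]
      by_cases h2 : i1 < e.1.1 ∧ j ≤ e.1.2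
      · rw [if_pos ⟨h1, h2⟩]
        have h3 := he h1 h2.1 h2.2
        have h4 : nv i1 j m0 e = 2 * m0 := by unfold nv; rw [if_pos h2]
        rw [h4]
        push_cast
        linarith
      · rw [if_neg (fun h => h2 ⟨h.2.1, h.2.2⟩)]
        have h4 : nv i1 j m0 e = e.2 := by unfold nv; rw [if_neg h2]
        rw [h4]
        push_cast
        linarith
    · rw [List.filter_cons_of_neg (by simpa using h1)]
      simp only [List.map_cons, List.countP_cons, decide_eq_true_eq]
      rw [if_neg (fun h => h1 h.1)]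
      simpa using ih'

end PotRespAux

open PotFireAux PotRespAux in
theorem potResp : PotResp := by
  intro g h K lo hi S i1 j i hg hh hK hlo hhi hn hS hR
  obtain ⟨hb, G, hG, hm, hpot⟩ := hS
  obtain ⟨r1, r2, r3, m, r4, r5, r6, r7, r8⟩ := hR
  have hg' : (0 : ℝ) < g := by exact_mod_cast hg
  have hh' : (0 : ℝ) < h := by exact_mod_cast hh
  have him : i ≤ m := by
    by_contra hlt
    push Not at hlt
    have := r8 m r4 hlt
    have h0 : (0 : ℤ) ≤ (g : ℤ) * (h : ℤ) := by positivity
    omega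
  set m0 := S.wt g h m with hm0
  have hm0pos : 0 < m0 := wt_pos g h S m
  have w1 : ∀ c, i1 < c → c < j → m0 ≤ S.wt g h c := fun c hc hc' =>
    wt_mono g h S m c (r6 c hc hc')
  have w2 : S.wt g h i ≤ 2 * m0 := by
    rw [← wt_add g h S m hg hh _ rfl]
    unfold LS.wt
    apply Real.rpow_le_rpow_of_exponent_le (by norm_num)
    apply div_le_div_of_nonneg_right _ (by positivity)
    exact_mod_cast r7
  have w3 : ∀ c, i1 < c → c < i → 2 * m0 ≤ S.wt g h c := by
    intro c hc hc'
    rw [← wt_add g h S m hg hh _ rfl]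
    unfold LS.wt
    apply Real.rpow_le_rpow_of_exponent_le (by norm_num)
    apply div_le_div_of_nonneg_right _ (by positivity)
    exact_mod_cast (r8 c hc hc').le
  have hloi : lo ≤ i := by omega
  have hihi : i < hi := by omega
  refine ⟨?_, (G.filter (fun e => decide (e.1.1 < i))).map
      (fun e => ((e.1.1, min e.1.2 i), nv i1 j m0 e)), fire_al S i G hG (nv i1 j m0), ?_, ?_⟩
  · intro e he
    simp only [LS.resp, LS.fire, List.mem_map, List.mem_filter, decide_eq_true_eq] at he
    obtain ⟨e', ⟨he', hlt⟩, rfl⟩ := he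
    obtain ⟨a1, a2, a3⟩ := hb e' he'
    refine ⟨a1, ?_, ?_⟩
    · exact lt_min a2 hlt
    · exact (min_le_left _ _).trans a3
  · intro e he
    simp only [List.mem_map, List.mem_filter, decide_eq_true_eq] at he
    obtain ⟨e', ⟨he', hlt⟩, rfl⟩ := he
    obtain ⟨a1, a2⟩ := hm e' he'
    refine ⟨?_, ?_⟩
    · show 0 ≤ nv i1 j m0 e'
      unfold nv
      split_ifs
      · positivity
      · exact a1
    intro c hc1 hc2
    have hc3 : c < i := lt_of_lt_of_le hc2 (min_le_right _ _)
    have hc4 : c < e'.1.2 := lt_of_lt_of_le hc2 (min_le_left _ _)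
    rw [wt_resp g h S i c hg hh, if_neg (by omega), wt_fire, if_neg (by omega)]
    show nv i1 j m0 e' ≤ _
    unfold nv
    split_ifs with hif
    · exact w3 c (lt_of_lt_of_le hif.1 hc1) hc3
    · exact a2 c hc1 hc4
  · have hc := core g h lo hi S i hg hh hloi hn G hG hb hm
    -- the sum of the new weights
    have s1 : ∑ c ∈ Finset.Ico lo hi, (S.resp i).wt g h c ≤
        (∑ c ∈ Finset.Ico lo hi, (S.fire i).wt g h c) + 2 * m0 / h := by
      have e1 : ∀ c ∈ Finset.Ico lo hi, (S.resp i).wt g h c ≤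
          (S.fire i).wt g h c + (if i = c then 2 * m0 / h else 0) := by
        intro c _
        rw [wt_resp g h S i c hg hh]
        by_cases hci : c = i
        · subst hci
          rw [if_pos rfl, if_pos rfl]
          have f1 : (S.fire c).wt g h c ≤ 2 * m0 := by
            have := wt_fire_le g h S c c hg hh (hn c)
            rw [if_pos le_rfl] at this
            have h0 : 0 ≤ (S.inChild c : ℝ) * S.wt g h c / (2 * ((g : ℝ) * (h : ℝ))) := by
              have := (wt_pos g h S c).le
              positivity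
            linarith
          have f2 := num2 h hh
          have f3 := wt_pos g h (S.fire c) c
          have f4 : (S.fire c).wt g h c * (2 : ℝ) ^ (1 / (h : ℝ)) ≤
              (S.fire c).wt g h c * (1 + 1 / (h : ℝ)) := mul_le_mul_of_nonneg_left f2 f3.le
          have f5 : (S.fire c).wt g h c * (1 / (h : ℝ)) ≤ 2 * m0 * (1 / (h : ℝ)) :=
            mul_le_mul_of_nonneg_right f1 (by positivity)
          have f6 : 2 * m0 * (1 / (h : ℝ)) = 2 * m0 / h := by ring
          linarith
        · rw [if_neg hci, if_neg (fun h => hci h.symm)]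
          linarith
      refine (Finset.sum_le_sum e1).trans ?_
      rw [Finset.sum_add_distrib, Finset.sum_ite_eq, if_pos (by simp; omega)]
    -- the gain of the survivors
    have s2 := sum_nv G i1 i j m0 (by
      intro e he h1 h2 h3
      exact (hm e he).2 m (by omega) (by omega))
    rw [hG] at s2
    -- the gain of the dying entries
    have s3 := pend_split S.al i1 i j r2
    have s4 : m0 * ((∑ c ∈ Finset.Ico i j, S.inChild c : ℕ) : ℝ) ≤
        ∑ c ∈ Finset.Ico i hi, (S.inChild c : ℝ) * S.wt g h c := by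
      push_cast
      rw [Finset.mul_sum]
      have hsub : Finset.Ico i j ⊆ Finset.Ico i hi := Finset.Ico_subset_Ico_right hhi
      refine le_trans (Finset.sum_le_sum ?_) (Finset.sum_le_sum_of_subset_of_nonneg hsub ?_)
      · intro c hc
        rw [Finset.mem_Ico] at hc
        rw [mul_comm]
        exact mul_le_mul_of_nonneg_left (w1 c (by omega) hc.2) (Nat.cast_nonneg _)
      · intro c _ _
        exact mul_nonneg (Nat.cast_nonneg _) (wt_pos g h S c).le
    set n1 := S.al.countP (fun e => decide (e.1 < i ∧ i1 < e.1 ∧ j ≤ e.2)) with hn1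
    set n2 := ∑ c ∈ Finset.Ico i j, S.inChild c with hn2
    have s5 : K ≤ n1 + n2 := r3.trans s3
    have s6 : (K : ℝ) ≤ (n1 : ℝ) + (n2 : ℝ) := by exact_mod_cast s5
    have s7 : m0 * (K : ℝ) ≤ m0 * (n1 : ℝ) + m0 * (n2 : ℝ) := by
      have := mul_le_mul_of_nonneg_left s6 hm0pos.le
      linarith
    set A := ∑ c ∈ Finset.Ico i hi, (S.inChild c : ℝ) * S.wt g h c
    set B := (((G.filter (fun e => decide (e.1.1 < i))).map
      (fun e => ((e.1.1, min e.1.2 i), e.2))).map Prod.snd).sum
    set B' := (((G.filter (fun e => decide (e.1.1 < i))).map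
      (fun e => ((e.1.1, min e.1.2 i), nv i1 j m0 e))).map Prod.snd).sum
    have s8 : m0 * (K : ℝ) ≤ (B' - B) + A := by linarith
    have s9 : 2 * m0 / h ≤ ((B' - B) + A) / (4 * (g : ℝ) * (h : ℝ)) := by
      rw [le_div_iff₀ (by positivity)]
      have : 2 * m0 / (h : ℝ) * (4 * (g : ℝ) * (h : ℝ)) = m0 * (K : ℝ) := by
        rw [hK]; push_cast; field_simp; ring
      rw [this]
      exact s8
    have s10 : ((B' - B) + A) / (4 * (g : ℝ) * (h : ℝ)) =
        B' / (4 * (g : ℝ) * (h : ℝ)) - B / (4 * (g : ℝ) * (h : ℝ)) +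
        A / (4 * (g : ℝ) * (h : ℝ)) := by ring
    rw [s10] at s9
    linarith

end Pool.Agent.D9
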