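import Pool.Agent.Lib.MP_d9c039_lc.Spec

set_option autoImplicit false

/-!
# MP_d9c039_lc, module Plays
-/

namespace Pool.Agent.D9

namespace PlaysAux

theorem length_le {S : ℕ} {p : List ℕ} (hp : p.Nodup) (h : ∀ x ∈ p, x < S) : p.length ≤ S := by
  have h1 : p.toFinset ⊆ Finset.range S := fun x hx => by
    rw [List.mem_toFinset] at hx
    exact Finset.mem_range.mpr (h x hx)
  have h2 := Finset.card_le_card h1
  rwa [List.toFinset_card_of_nodup hp, Finset.card_range] at h2

theorem mem_nplays (S t : ℕ) (p : List ℕ) :
    p ∈ nplays S t ↔ p.Nodup ∧ (∀ x ∈ p, x < S) ∧ p.length ≤ t := by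
  induction t generalizing p with
  | zero =>
    simp only [nplays, List.mem_singleton]
    constructor
    · rintro rfl; simp
    · rintro ⟨_, _, h⟩
      exact List.length_eq_zero_iff.mp (Nat.le_zero.mp h)
  | succ t ih =>
    simp only [nplays, List.mem_append, List.mem_flatMap, List.mem_map, List.mem_filter,
      List.mem_range, decide_eq_true_eq]
    constructor
    · rintro (h | ⟨q, hq, x, ⟨hx, hxq⟩, rfl⟩)
      · rw [ih] at h
        exact ⟨h.1, h.2.1, by omega⟩
      · rw [ih] at hq
        refine ⟨?_, ?_, ?_⟩
        · rw [List.nodup_append]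
          refine ⟨hq.1, by simp, ?_⟩
          intro a ha b hb
          rw [List.mem_singleton] at hb
          rintro rfl
          exact hxq (hb ▸ ha)
        · intro a ha
          rw [List.mem_append, List.mem_singleton] at ha
          rcases ha with ha | rfl
          · exact hq.2.1 a ha
          · exact hx
        · rw [List.length_append, List.length_singleton]
          omega
    · rintro ⟨h1, h2, h3⟩
      by_cases hl : p.length ≤ t
      · exact Or.inl ((ih p).mpr ⟨h1, h2, hl⟩)
      · right
        rcases List.eq_nil_or_concat p with rfl | ⟨q, x, rfl⟩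
        · simp at hl
        · rw [List.concat_eq_append] at h1 h2 h3 hl ⊢
          rw [List.nodup_append] at h1
          rw [List.length_append, List.length_singleton] at h3 hl
          refine ⟨q, (ih q).mpr ⟨h1.1, fun y hy => h2 y (by simp [hy]), by omega⟩, x,
            ⟨h2 x (by simp), ?_⟩, rfl⟩
          intro hx
          exact h1.2.2 x hx x (by simp) rfl

theorem mem_self {S : ℕ} {p : List ℕ} : p ∈ nplays S S ↔ p.Nodup ∧ (∀ x ∈ p, x < S) := by
  rw [mem_nplays]
  exact ⟨fun h => ⟨h.1, h.2.1⟩, fun h => ⟨h.1, h.2, length_le h.1 h.2⟩⟩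

/-- the table of a strategy on a list of plays -/
def tab (σ : List ℕ → Option ℕ) (L : List (List ℕ)) : List (List ℕ × ℕ) :=
  L.filterMap (fun p => (σ p).map (fun y => (p, y)))

theorem lookup_tab (σ : List ℕ → Option ℕ) (L : List (List ℕ)) (q : List ℕ) (hq : q ∈ L) :
    (tab σ L).lookup q = σ q := by
  induction L with
  | nil => simp at hq
  | cons p L ih =>
    cases hp : σ p with
    | none =>
      have h1 : tab σ (p :: L) = tab σ L := by simp [tab, hp]
      rw [h1]
      by_cases hqL : q ∈ L
      · exact ih hqL
      · have hqp : q = p := by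
          rcases List.mem_cons.mp hq with h | h
          · exact h
          · exact absurd h hqL
        rw [hqp, hp]
        rw [List.lookup_eq_none_iff]
        intro e he
        simp only [tab, List.mem_filterMap, Option.map_eq_some_iff] at he
        obtain ⟨p', hp', y, hy, rfl⟩ := he
        rw [bne_iff_ne]
        rintro rfl
        exact hqL (hqp ▸ hp')
    | some y =>
      have h1 : tab σ (p :: L) = (p, y) :: tab σ L := by simp [tab, hp]
      rw [h1, List.lookup_cons]
      by_cases hqp : q = p
      · simp [hqp, hp]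
      · have : (q == p) = false := by simpa using hqp
        rw [this]
        rcases List.mem_cons.mp hq with h | h
        · exact absurd h hqp
        · exact ih h

theorem resp_congr {σ τ : List ℕ → Option ℕ} {p : List ℕ}
    (h : ∀ i, i < p.length → σ (p.take (i + 1)) = τ (p.take (i + 1))) : resp σ p = resp τ p := by
  unfold resp
  apply List.filterMap_congr
  intro i hi
  exact h i (List.mem_range.mp hi)

theorem chk1_iff (S R : ℕ) (T : List (List ℕ × ℕ)) (p : List ℕ) : Chk1 S R T p ↔
    ((∀ y, tabS T p = some y → p ≠ [] → y < S ∧ y % 2 = 0 ∧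
      y ∉ resp (tabS T) (p.take (p.length - 1))) ∧
    ∀ i ≤ p.length, ∀ n ≤ S,
      (cnt (resp (tabS T) (p.take i)) n = cnt (resp (tabS T) p) n → cnt p n ≤ cnt (p.take i) n + R) ∧
      (cnt (p.take i) n = cnt p n →
        cnt (resp (tabS T) p) n ≤ cnt (resp (tabS T) (p.take i)) n + R)) := by
  unfold Chk1
  constructor
  · rintro ⟨h1, h2⟩
    refine ⟨fun y hy => h1 y (by rw [hy]; simp), fun i hi n hn => h2 i (by omega) n (by omega)⟩
  · rintro ⟨h1, h2⟩
    refine ⟨fun y hy => h1 y ?_, fun i hi n hn => h2 i (by omega) n (by omega)⟩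
    rwa [Option.mem_toList] at hy

end PlaysAux

open PlaysAux in
theorem playsB : PlaysB := by
  intro S R
  constructor
  · intro σ hσ
    refine ⟨tab σ (nplays S S), ?_⟩
    intro p hp
    have hp' := mem_self.mp hp
    have htake : ∀ i, p.take i ∈ nplays S S := fun i =>
      mem_self.mpr ⟨hp'.1.sublist (List.take_sublist _ _),
        fun x hx => hp'.2 x (List.mem_of_mem_take hx)⟩
    have hT : ∀ i, tabS (tab σ (nplays S S)) (p.take i) = σ (p.take i) := fun i =>
      lookup_tab σ _ _ (htake i)
    have hTp : tabS (tab σ (nplays S S)) p = σ p := lookup_tab σ _ _ hp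
    have hR : resp (tabS (tab σ (nplays S S))) p = resp σ p :=
      resp_congr fun i _ => hT (i + 1)
    have hRt : ∀ j, resp (tabS (tab σ (nplays S S))) (p.take j) = resp σ (p.take j) := fun j =>
      resp_congr fun i _ => by rw [List.take_take]; exact hT _
    rw [chk1_iff]
    obtain ⟨h1, h2⟩ := hσ p hp'.1 hp'.2
    refine ⟨fun y hy hne => ?_, fun i hi n hn => ?_⟩
    · rw [hTp] at hy
      rw [hRt]
      exact h1 y hy hne
    · rw [hRt, hR]
      exact h2 i hi n hn
  · intro T hT p hp1 hp2
    exact (chk1_iff S R T p).mp (hT p (mem_self.mpr ⟨hp1, hp2⟩))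

end Pool.Agent.D9
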