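import Pool.Agent.Lib.MP_d9c039_lc.Spec

set_option autoImplicit false

/-!
# MP_d9c039_lc: the finite check is primitive recursive
-/

namespace Pool.Agent.D9.PrimChkAux

open Primrec

variable {α β : Type*} [Primcodable α] [Primcodable β]

theorem imp {p q : α → Prop} (hp : PrimrecPred p) (hq : PrimrecPred q) :
    PrimrecPred fun a => p a → q a :=
  (hp.not.or hq).of_eq fun _ => imp_iff_not_or.symm

theorem forall_mem {f : α → List β} {p : α → β → Prop} (hf : Primrec f) (hp : PrimrecRel p) :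
    PrimrecPred fun a => ∀ b ∈ f a, p a b :=
  (hp.swap.forall_mem_list).comp hf Primrec.id

theorem forall_lt {f : α → ℕ} {p : α → ℕ → Prop} (hf : Primrec f) (hp : PrimrecRel p) :
    PrimrecPred fun a => ∀ n < f a, p a n :=
  (forall_mem (Primrec.list_range.comp hf) hp).of_eq fun a => by simp only [List.mem_range]

theorem mem_rel : PrimrecRel fun (x : α) (L : List α) => x ∈ L := by
  have h1 : PrimrecRel fun (L : List α) (x : α) => ∃ a ∈ L, a = x :=
    PrimrecRel.exists_mem_list (R := fun a x => a = x) Primrec.eq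
  have h2 : PrimrecRel fun (L : List α) (x : α) => x ∈ L :=
    h1.of_eq fun L x => by simp
  exact h2.swap

theorem primrec_cnt : Primrec₂ cnt := by
  have h1 : Primrec₂ fun (L : List ℕ) (b : ℕ) => L.filter (fun a => decide (a < b)) :=
    PrimrecRel.listFilter (R := fun a b : ℕ => a < b) Primrec.nat_lt
  have h2 : Primrec₂ fun (L : List ℕ) (b : ℕ) => (L.filter (fun a => decide (a < b))).length :=
    Primrec.list_length.comp h1
  refine h2.of_eq fun L b => ?_
  unfold cnt
  rw [List.countP_eq_length_filter]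

theorem lookup_eq {γ δ : Type*} [DecidableEq γ] (i j : BEq γ) (hi : @LawfulBEq γ i)
    (hj : @LawfulBEq γ j) (a : γ) (L : List (γ × δ)) :
    @List.lookup γ δ i a L = @List.lookup γ δ j a L := by
  induction L with
  | nil => rfl
  | cons b L ih =>
    obtain ⟨b, c⟩ := b
    unfold List.lookup
    have h1 : @BEq.beq γ i a b = @BEq.beq γ j a b := by
      by_cases h : a = b
      · subst h
        rw [@beq_self_eq_true γ i _ a, @beq_self_eq_true γ j _ a]
      · rw [(@beq_eq_false_iff_ne γ i hi a b).2 h, (@beq_eq_false_iff_ne γ j hj a b).2 h]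
    rw [h1, ih]

theorem primrec_tabS : Primrec₂ tabS := by
  have h1 : Primrec₂ fun (T : List (List ℕ × ℕ)) (p : List ℕ) =>
      @List.lookup (List ℕ) ℕ instBEqOfDecidableEq p T :=
    (Primrec.listLookup (α := List ℕ) (β := ℕ)).swap
  refine h1.of_eq fun T p => ?_
  unfold tabS
  exact lookup_eq _ _ inferInstance inferInstance p T

theorem primrec_resp : Primrec₂ fun (T : List (List ℕ × ℕ)) (p : List ℕ) => resp (tabS T) p := by
  unfold resp
  refine Primrec.listFilterMap (Primrec.list_range.comp (Primrec.list_length.comp Primrec.snd)) ?_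
  exact primrec_tabS.comp (Primrec.fst.comp Primrec.fst)
    (Primrec.list_take.comp (Primrec.succ.comp Primrec.snd) (Primrec.snd.comp Primrec.fst))

theorem primrec_ext : Primrec₂ fun (S : ℕ) (L : List (List ℕ)) =>
    L ++ L.flatMap (fun p =>
        ((List.range S).filter (fun x => decide (x ∉ p))).map (fun x => p ++ [x])) := by
  have h0 : PrimrecRel fun (x : ℕ) (p : List ℕ) => x ∉ p := (mem_rel (α := ℕ)).not
  have h1 : Primrec₂ fun (L : List ℕ) (p : List ℕ) => L.filter (fun x => decide (x ∉ p)) :=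
    PrimrecRel.listFilter (R := fun (x : ℕ) (p : List ℕ) => x ∉ p) h0
  have h2 : Primrec fun t : (ℕ × List (List ℕ)) × List ℕ =>
      (List.range t.1.1).filter (fun x => decide (x ∉ t.2)) :=
    h1.comp (Primrec.list_range.comp (Primrec.fst.comp Primrec.fst)) Primrec.snd
  have h3 : Primrec₂ fun (t : (ℕ × List (List ℕ)) × List ℕ) (x : ℕ) => t.2 ++ [x] :=
    Primrec.list_concat.comp (Primrec.snd.comp Primrec.fst) Primrec.snd
  have h4 : Primrec₂ fun (t : ℕ × List (List ℕ)) (p : List ℕ) =>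
      ((List.range t.1).filter (fun x => decide (x ∉ p))).map (fun x => p ++ [x]) :=
    Primrec.list_map h2 h3
  exact Primrec.list_append.comp Primrec.snd (Primrec.list_flatMap Primrec.snd h4)

theorem primrec_nplays : Primrec fun S : ℕ => nplays S S := by
  have h1 : Primrec₂ fun (S : ℕ) (t : ℕ × List (List ℕ)) =>
      t.2 ++ t.2.flatMap (fun p =>
        ((List.range S).filter (fun x => decide (x ∉ p))).map (fun x => p ++ [x])) :=
    primrec_ext.comp Primrec.fst (Primrec.snd.comp Primrec.snd)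
  have h2 := Primrec.nat_rec' (f := fun S : ℕ => S) (g := fun _ : ℕ => ([[]] : List (List ℕ)))
    Primrec.id (Primrec.const _) h1
  refine h2.of_eq fun S => ?_
  have h3 : ∀ t : ℕ, Nat.rec (motive := fun _ => List (List ℕ)) ([[]] : List (List ℕ))
      (fun _ IH => IH ++ IH.flatMap (fun p =>
        ((List.range S).filter (fun x => decide (x ∉ p))).map (fun x => p ++ [x]))) t =
      nplays S t := by
    intro t
    induction t with
    | zero => rfl
    | succ t ih =>
      simp only [nplays, ih]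
  exact h3 S

/-- the parameters of the check of one play -/
abbrev Prm : Type := ((ℕ × ℕ) × List (List ℕ × ℕ)) × List ℕ

theorem pS : Primrec fun t : Prm => t.1.1.1 :=
  Primrec.fst.comp (Primrec.fst.comp Primrec.fst)

theorem pR : Primrec fun t : Prm => t.1.1.2 :=
  Primrec.snd.comp (Primrec.fst.comp Primrec.fst)

theorem pT : Primrec fun t : Prm => t.1.2 := Primrec.snd.comp Primrec.fst

theorem pp : Primrec fun t : Prm => t.2 := Primrec.snd

theorem part1 : PrimrecPred fun t : Prm =>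
    ∀ y ∈ (tabS t.1.2 t.2).toList, t.2 ≠ [] →
      y < t.1.1.1 ∧ y % 2 = 0 ∧ y ∉ resp (tabS t.1.2) (t.2.take (t.2.length - 1)) := by
  refine forall_mem (Primrec.optionToList.comp (primrec_tabS.comp pT pp)) ?_
  have h1 : PrimrecPred fun t : Prm × ℕ => t.1.2 ≠ [] :=
    (Primrec.eq.comp (pp.comp Primrec.fst) (Primrec.const [])).not
  have h2 : PrimrecPred fun t : Prm × ℕ => t.2 < t.1.1.1.1 :=
    Primrec.nat_lt.comp Primrec.snd (pS.comp Primrec.fst)
  have h3 : PrimrecPred fun t : Prm × ℕ => t.2 % 2 = 0 :=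
    Primrec.eq.comp (Primrec.nat_mod.comp Primrec.snd (Primrec.const 2)) (Primrec.const 0)
  have h4 : Primrec fun t : Prm × ℕ =>
      resp (tabS t.1.1.2) (t.1.2.take (t.1.2.length - 1)) := by
    refine primrec_resp.comp (pT.comp Primrec.fst) (Primrec.list_take.comp ?_ (pp.comp Primrec.fst))
    exact Primrec.nat_sub.comp (Primrec.list_length.comp (pp.comp Primrec.fst)) (Primrec.const 1)
  have h5 : PrimrecPred fun t : Prm × ℕ =>
      t.2 ∉ resp (tabS t.1.1.2) (t.1.2.take (t.1.2.length - 1)) :=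
    (mem_rel.comp Primrec.snd h4).not
  exact imp h1 (h2.and (h3.and h5))

/-- the condition for one cut and one bound -/
def Cond (t : (Prm × ℕ) × ℕ) : Prop :=
  (cnt (resp (tabS t.1.1.1.2) (t.1.1.2.take t.1.2)) t.2 = cnt (resp (tabS t.1.1.1.2) t.1.1.2) t.2 →
    cnt t.1.1.2 t.2 ≤ cnt (t.1.1.2.take t.1.2) t.2 + t.1.1.1.1.2) ∧
  (cnt (t.1.1.2.take t.1.2) t.2 = cnt t.1.1.2 t.2 →
    cnt (resp (tabS t.1.1.1.2) t.1.1.2) t.2 ≤
      cnt (resp (tabS t.1.1.1.2) (t.1.1.2.take t.1.2)) t.2 + t.1.1.1.1.2)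

theorem primrec_Cond : PrimrecPred Cond := by
  have e : Primrec fun t : (Prm × ℕ) × ℕ => t.1.1 := Primrec.fst.comp Primrec.fst
  have hp : Primrec fun t : (Prm × ℕ) × ℕ => t.1.1.2 := pp.comp e
  have hR : Primrec fun t : (Prm × ℕ) × ℕ => t.1.1.1.1.2 := pR.comp e
  have hT : Primrec fun t : (Prm × ℕ) × ℕ => t.1.1.1.2 := pT.comp e
  have hq : Primrec fun t : (Prm × ℕ) × ℕ => t.1.1.2.take t.1.2 :=
    Primrec.list_take.comp (Primrec.snd.comp Primrec.fst) hp
  have c1 : Primrec fun t : (Prm × ℕ) × ℕ => cnt t.1.1.2 t.2 := primrec_cnt.comp hp Primrec.snd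
  have c2 : Primrec fun t : (Prm × ℕ) × ℕ => cnt (t.1.1.2.take t.1.2) t.2 :=
    primrec_cnt.comp hq Primrec.snd
  have c3 : Primrec fun t : (Prm × ℕ) × ℕ => cnt (resp (tabS t.1.1.1.2) t.1.1.2) t.2 :=
    primrec_cnt.comp (primrec_resp.comp hT hp) Primrec.snd
  have c4 : Primrec fun t : (Prm × ℕ) × ℕ =>
      cnt (resp (tabS t.1.1.1.2) (t.1.1.2.take t.1.2)) t.2 :=
    primrec_cnt.comp (primrec_resp.comp hT hq) Primrec.snd
  refine PrimrecPred.and ?_ ?_
  · exact imp (Primrec.eq.comp c4 c3) (Primrec.nat_le.comp c1 (Primrec.nat_add.comp c2 hR))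
  · exact imp (Primrec.eq.comp c2 c1) (Primrec.nat_le.comp c3 (Primrec.nat_add.comp c4 hR))

theorem part2 : PrimrecPred fun t : Prm =>
    ∀ i < t.2.length + 1, ∀ n < t.1.1.1 + 1, Cond ((t, i), n) := by
  refine forall_lt (Primrec.succ.comp (Primrec.list_length.comp pp)) ?_
  have h1 : PrimrecPred fun t : Prm × ℕ => ∀ n < t.1.1.1.1 + 1, Cond (t, n) :=
    forall_lt (p := fun t n => Cond (t, n)) (Primrec.succ.comp (pS.comp Primrec.fst)) primrec_Cond
  exact h1

theorem primrec_Chk1 : PrimrecPred fun t : Prm => Chk1 t.1.1.1 t.1.1.2 t.1.2 t.2 :=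
  part1.and part2

end Pool.Agent.D9.PrimChkAux

namespace Pool.Agent.D9

theorem primChkB : PrimChkB := by
  have h1 : Primrec fun t : (ℕ × ℕ) × List (List ℕ × ℕ) => nplays t.1.1 t.1.1 :=
    PrimChkAux.primrec_nplays.comp (Primrec.fst.comp Primrec.fst)
  exact PrimChkAux.forall_mem h1 PrimChkAux.primrec_Chk1

end Pool.Agent.D9
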