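import Pool.Agent.Lib.MP_d9c039_lc.Spec

set_option autoImplicit false

/-!
# MP_d9c039_lc: computable tables by search
-/

namespace Pool.Agent.D9

namespace SearchAux

theorem pow_primrec : Primrec₂ (fun a b : ℕ => a ^ b) :=
  Primrec₂.unpaired'.1 Nat.Primrec.pow

theorem base_primrec : Primrec (fun m : ℕ => (32 * (m + 1)) ^ 2) :=
  pow_primrec.comp (Primrec.nat_mul.comp (Primrec.const 32) Primrec.succ) (Primrec.const 2)

theorem bS_primrec : Primrec bS := by
  have h1 : Primrec (fun m : ℕ => 4 * (32 * (m + 1)) ^ 2) :=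
    Primrec.nat_mul.comp (Primrec.const 4) base_primrec
  have h2 : Primrec₂ (fun (m : ℕ) (x : ℕ × ℕ) => x.2 * 2 ^ (x.2 / (32 * (m + 1)) ^ 2)) := by
    have a : Primrec (fun y : ℕ × (ℕ × ℕ) => y.2.2) := Primrec.snd.comp Primrec.snd
    have b : Primrec (fun y : ℕ × (ℕ × ℕ) => (32 * (y.1 + 1)) ^ 2) :=
      base_primrec.comp Primrec.fst
    exact Primrec.nat_mul.comp a (pow_primrec.comp (Primrec.const 2) (Primrec.nat_div.comp a b))
  exact Primrec.nat_rec' Primrec.succ h1 h2

theorem bR_primrec : Primrec bR := by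
  have h : Primrec (fun m : ℕ => 10000 * (m + 1) ^ 3) :=
    Primrec.nat_mul.comp (Primrec.const 10000) (pow_primrec.comp Primrec.succ (Primrec.const 3))
  exact h

open Classical in
/-- the search function -/
noncomputable def F (m n : ℕ) : Option (List (List ℕ × ℕ)) :=
  (Encodable.decode (α := List (List ℕ × ℕ)) n).bind
    (fun T => if Chk (bS m) (bR m) T then some T else none)

open Classical in
theorem F_primrec (h : PrimChkB) : Primrec₂ F := by
  have h1 : Primrec (fun y : ℕ × ℕ => Encodable.decode (α := List (List ℕ × ℕ)) y.2) :=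
    Primrec.decode.comp Primrec.snd
  refine Primrec.option_bind h1 ?_
  have hc : PrimrecPred (fun z : (ℕ × ℕ) × List (List ℕ × ℕ) =>
      Chk (bS z.1.1) (bR z.1.1) z.2) := by
    have hm : Primrec (fun z : (ℕ × ℕ) × List (List ℕ × ℕ) => z.1.1) :=
      Primrec.fst.comp Primrec.fst
    exact PrimrecPred.comp h (Primrec.pair (Primrec.pair (bS_primrec.comp hm)
      (bR_primrec.comp hm)) Primrec.snd)
  exact Primrec.ite hc (Primrec.option_some.comp Primrec.snd) (Primrec.const none)

end SearchAux

open SearchAux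

theorem searchB : PrimChkB → SearchB := by
  intro h hex
  have hF : Computable₂ F := (F_primrec h).to_comp
  have hdom : ∀ m, (Nat.rfindOpt (F m)).Dom := by
    intro m
    rw [Nat.rfindOpt_dom]
    obtain ⟨T, hT⟩ := hex m
    refine ⟨Encodable.encode T, T, ?_⟩
    simp [F, hT]
  refine ⟨fun m => (Nat.rfindOpt (F m)).get (hdom m), ?_, ?_⟩
  · exact (Partrec.rfindOpt hF).of_eq fun m => Part.eq_some_iff.2 (Part.get_mem _)
  · intro m
    obtain ⟨n, hn⟩ := Nat.rfindOpt_spec (Part.get_mem (hdom m))
    show Chk (bS m) (bR m) ((Nat.rfindOpt (F m)).get (hdom m))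
    generalize (Nat.rfindOpt (F m)).get (hdom m) = T' at hn
    unfold F at hn
    rw [Option.mem_def, Option.bind_eq_some_iff] at hn
    obtain ⟨T, _, hT⟩ := hn
    split_ifs at hT with hc
    simp only [Option.some.injEq] at hT
    rw [← hT]
    exact hc

end Pool.Agent.D9
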