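import Pool.Agent.Lib.MP_d9c039_lc.StepBase

set_option autoImplicit false

namespace Pool.Agent.D9

open StepBase in
theorem stepPot (hA : PotAdd) (hF : PotFire) (hR : PotResp) (hC : CntB) : StepPot := by
  intro P G x r hG hx hn hv l hl p
  have h1 : ((G.addA P x).st l p).Inv P.g P.h (p * 2 ^ (P.a l)) ((p + 1) * 2 ^ (P.a l)) := by
    rw [st_addA]
    split_ifs with h
    · subst h
      exact hA _ _ _ _ _ _ (lo_hi P x l).1 (lo_hi P x l).2 (hG.pot l hl _)
    · exact hG.pot l hl p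
  have hcnt := fun c => cnt_addA hC P G hG x l p c hl
  rcases r with _ | ⟨y, lam⟩
  · exact h1
  · simp only [GS.app]
    rw [st_addD]
    split_ifs with h h'
    · subst h'
      obtain ⟨v1, v2, v3, v4, v5, v6, j, v7, v8, v9, e0, v10, v11, v12, v13⟩ := hv
      rw [v4] at h
      subst h
      exact hR _ _ _ _ _ _ _ _ _ P.hg P.hh P.hK (h1.1 e0 v10).1 v8 hcnt h1 v13
    · subst h
      exact hF _ _ _ _ _ _ P.hg P.hh (lo_hi P y l).1 (lo_hi P y l).2 hcnt h1
    · exact h1

end Pool.Agent.D9
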