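import Pool.Agent.Lib.MP_d9c039_lc.StepBase

set_option autoImplicit false

namespace Pool.Agent.D9

open StepBase in
theorem stepLink : StepLink := by
  intro P G x r hG hx hn hv l hl q
  set p := q / 2 ^ (P.a (l + 1)) with hp
  -- after addA
  have h1 : ((G.addA P x).st (l + 1) p).inChild q ≤
      ((G.addA P x).st l q).pend ((q + 1) * 2 ^ (P.a l)) := by
    have h0 := hG.link l hl q
    rw [← hp] at h0
    rw [st_addA, st_addA]
    by_cases hq : x / P.s (l + 1) = q
    · have hxp : x / P.s (l + 1 + 1) = p := by rw [div_succ, hq]
      rw [if_pos hxp, if_pos hq, inChild_add, pend_add, if_pos hq]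
      have := (lo_hi P x l).2
      rw [hq] at this
      rw [if_pos ⟨this, le_rfl⟩]
      omega
    · rw [if_neg hq]
      split_ifs with h
      · rw [inChild_add, if_neg hq]
        omega
      · exact h0
  rcases r with _ | ⟨y, lam⟩
  · exact h1
  · simp only [GS.app]
    rw [st_addD, st_addD]
    by_cases hq : y / P.s (l + 1) = q
    · have hyp : y / P.s (l + 1 + 1) = p := by rw [div_succ, hq]
      rw [if_pos hyp]
      have : ∀ S : LS, (if l + 1 = lam then S.resp (y / P.s (l + 1))
          else S.fire (y / P.s (l + 1))).inChild q = 0 := by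
        intro S
        split_ifs
        · rw [inChild_resp, inChild_fire, if_neg (by omega)]
        · rw [inChild_fire, if_neg (by omega)]
      rw [this]
      exact Nat.zero_le _
    · rw [if_neg hq]
      refine le_trans ?_ h1
      split_ifs
      · rw [inChild_resp, inChild_fire]; split_ifs <;> omega
      · rw [inChild_fire]; split_ifs <;> omega
      · exact le_rfl

open StepBase in
theorem stepK : StepK := by
  intro P G x r hG hx hn hv l hl q
  set p := q / 2 ^ (P.a l) with hp
  have h1 : ((G.addA P x).st l p).k q + ((G.addA P x).st l p).inChild q ≤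
      (G.addA P x).pl.countP (fun x => decide (x / P.s l = q)) := by
    have h0 := hG.kle l hl q
    rw [← hp] at h0
    rw [st_addA, pl_addA, List.countP_cons]
    simp only [decide_eq_true_eq]
    by_cases hq : x / P.s l = q
    · have hxp : x / P.s (l + 1) = p := by rw [div_succ, hq]
      rw [if_pos hxp, if_pos hq, inChild_add, if_pos hq]
      have : ((G.st l p).add ((p + 1) * 2 ^ P.a l) (x / P.s l)).k q = (G.st l p).k q := rfl
      omega
    · rw [if_neg hq]
      split_ifs with h
      · rw [inChild_add, if_neg hq]
        have : ((G.st l p).add ((p + 1) * 2 ^ P.a l) (x / P.s l)).k q = (G.st l p).k q := rfl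
        omega
      · exact h0
  rw [pl_app]
  rcases r with _ | ⟨y, lam⟩
  · exact h1
  · simp only [GS.app]
    rw [st_addD]
    refine le_trans ?_ h1
    set S := (G.addA P x).st l p
    have key : ∀ c, (S.fire c).k q + (S.fire c).inChild q ≤ S.k q + S.inChild q := by
      intro c
      rw [inChild_fire]
      simp only [LS.fire]
      have : S.al.countP (fun e => decide (e.1 = q)) = S.inChild q := rfl
      rw [this]
      split_ifs <;> omega
    split_ifs
    · rw [k_resp, inChild_resp]; exact key _
    · exact key _
    · exact le_rfl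

open StepBase in
theorem stepViol : StepViol := by
  intro P G x r hG hx hn hv l hl p j hviol
  rcases r with _ | ⟨y, lam⟩
  · exact hv l hl p j hviol
  · obtain ⟨v1, v2, v3, v4, v5, v6, j0, v7, v8, v9, e0, v10, v11, v12, v13⟩ := hv
    simp only [GS.app] at hviol
    rw [st_addD] at hviol
    -- reduce to a violation before the mark and `j ≤ y / s l` if the block is the one of `y`
    have key : ((G.addA P x).st l p).Viol P.K j ∧ (y / P.s (l + 1) = p → j ≤ y / P.s l) := by
      split_ifs at hviol with h h'
      · have := viol_fire ((viol_resp _ _ _ _).1 hviol)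
        exact ⟨this.2, fun _ => this.1⟩
      · have := viol_fire hviol
        exact ⟨this.2, fun _ => this.1⟩
      · exact ⟨hviol, fun h'' => absurd h'' h⟩
    obtain ⟨k1, k2⟩ := key
    obtain ⟨k3, k4⟩ := viol_addA P G hG x l p j hl k1
    rcases lt_trichotomy l lam with hlt | heq | hgt
    · exact v5 l hlt p j k1
    · subst heq
      have hyp : y / P.s (l + 1) = p := by rw [v4, k3]
      have h1 := k2 hyp
      have h2 : y / P.s l < j0 := v13.2.1
      subst k3
      exact v9 j (by omega) k1
    · -- l > lam : y / s l = x / s l
      have h1 : y / P.s l = x / P.s l := div_eq_of_le P (by omega : lam + 1 ≤ l) v4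
      have h2 : y / P.s (l + 1) = p := by rw [div_succ, h1, ← div_succ, k3]
      have := k2 h2
      omega

open StepBase in
theorem stepMk : StepMk := by
  intro P G x r hG hx hn hv
  have hpl : ((G.addA P x).app P r).pl = x :: G.pl := by rw [pl_app, pl_addA]
  refine ⟨?_, ?_, ?_, ?_, ?_, ?_, ?_⟩
  · rw [hpl]; exact List.nodup_cons.2 ⟨hn, hG.nodup⟩
  · rw [hpl]
    intro z hz
    rcases List.mem_cons.1 hz with rfl | hz
    · exact hx
    · exact hG.lt z hz
  · intro l hl q
    set p := q / 2 ^ (P.a l) with hp
    have h0 := hG.fcount l hl q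
    rw [← hp] at h0
    have h1 : ((G.addA P x).st l p).f q = (G.st l p).f q := by
      rw [st_addA]; split_ifs <;> rfl
    rcases r with _ | ⟨y, lam⟩
    · show ((G.addA P x).st l p).f q + G.gr P l q = G.ld P l q
      rw [h1]; exact h0
    · simp only [GS.app]
      rw [gr_addD, ld_addD, st_addD]
      have e1 : (G.addA P x).gr P l q = G.gr P l q := rfl
      have e2 : (G.addA P x).ld P l q = G.ld P l q := rfl
      rw [e1, e2]
      by_cases hq : y / P.s l = q
      · have hyp : y / P.s (l + 1) = p := by rw [div_succ, hq]
        rw [if_pos hyp]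
        by_cases hlam : l = lam
        · rw [if_pos hlam]
          have : (((G.addA P x).st l p).resp (y / P.s l)).f q = (G.st l p).f q + 1 := by
            simp only [LS.resp]
            rw [hq, Function.update_self, h1]
          rw [this, if_neg (by omega), if_pos ⟨hq, by omega⟩]
          omega
        · rw [if_neg hlam]
          have : (((G.addA P x).st l p).fire (y / P.s l)).f q = (G.st l p).f q := h1
          rw [this]
          by_cases hll : l < lam
          · rw [if_pos ⟨hq, hll⟩, if_pos ⟨hq, by omega⟩]; omega
          · rw [if_neg (fun h => hll h.2), if_neg (fun h => by omega)]; omega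
      · have : (if y / P.s (l + 1) = p then
            (if l = lam then ((G.addA P x).st l p).resp (y / P.s l)
              else ((G.addA P x).st l p).fire (y / P.s l))
            else (G.addA P x).st l p).f q = (G.st l p).f q := by
          split_ifs
          · simp only [LS.resp]
            rw [Function.update_of_ne (fun h => hq h.symm), h1]
          · exact h1
          · exact h1
        rw [this]
        have n1 : ¬ (y / P.s l = q ∧ l < lam) := fun h => hq h.1
        have n2 : ¬ (y / P.s l = q ∧ l ≤ lam) := fun h => hq h.1
        rw [if_neg n1, if_neg n2]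
        omega
  · intro l hl q q' hqq
    have h0 := hG.rr l hl q q' hqq
    rcases r with _ | ⟨y, lam⟩
    · exact h0
    · obtain ⟨v1, v2, v3, v4, v5, v6, -⟩ := hv
      simp only [GS.app]
      rw [gr_addD, gr_addD]
      have e1 : ∀ q, (G.addA P x).gr P l q = G.gr P l q := fun _ => rfl
      rw [e1, e1]
      by_cases hq : y / P.s l = q ∧ l < lam
      · rw [if_pos hq]
        have h2 : q' / 2 ^ P.a l = y / P.s (l + 1) := by
          rw [div_succ, hq.1, hqq]
        have h3 := v6 l hq.2 q' h2
        rw [e1, e1, hq.1] at h3
        split_ifs <;> omega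
      · rw [if_neg hq]
        split_ifs <;> omega
  · intro e he
    rcases r with _ | ⟨y, lam⟩
    · exact hG.mk_lt e he
    · obtain ⟨v1, v2, v3, v4, v5, v6, -⟩ := hv
      simp only [GS.app, GS.addD, GS.addA, List.mem_cons] at he
      rcases he with rfl | he
      · refine ⟨?_, v2, v1⟩
        have h1 : y / P.s P.d = x / P.s P.d := div_eq_of_le P (by omega : lam + 1 ≤ P.d) v4
        rw [Nat.div_eq_of_lt hx] at h1
        exact (Nat.div_eq_zero_iff_lt (s_pos P P.d)).1 h1
      · exact hG.mk_lt e he
  · rcases r with _ | ⟨y, lam⟩
    · exact hG.mk_nodup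
    · obtain ⟨v1, v2, v3, -⟩ := hv
      simp only [GS.app, GS.addD, GS.addA, List.map_cons, List.nodup_cons]
      exact ⟨v3, hG.mk_nodup⟩
  · rcases r with _ | ⟨y, lam⟩
    · simp only [GS.app, GS.addA]
      rw [List.filter_cons_of_neg (by simp)]
      exact hG.mk_hist
    · simp only [GS.app, GS.addD, GS.addA, List.map_cons]
      rw [List.filter_cons_of_pos (by simp), List.filter_cons_of_neg (by simp), List.map_cons,
        hG.mk_hist]

end Pool.Agent.D9
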