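import Pool.Agent.Lib.MP_d9c039_lc.Spec

set_option autoImplicit false

/-!
# MP_d9c039_lc: computability of the marks on the union of the boards
-/

namespace Pool.Agent.D9

namespace UnionCAux

theorem pow2 : Primrec (fun n : ℕ => 2 ^ n) := by
  refine (Primrec.nat_rec₁ (f := fun _ s => s * 2) 1
    (Primrec.nat_mul.comp Primrec.snd (Primrec.const 2)).to₂).of_eq fun n => ?_
  induction n with
  | zero => rfl
  | succ n ih =>
    show Nat.rec 1 (fun _ s => s * 2) n * 2 = 2 ^ (n + 1)
    rw [ih, pow_succ]

theorem pQ : Primrec (fun m : ℕ => (32 * (m + 1)) ^ 2) := by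
  have h : Primrec (fun m : ℕ => 32 * (m + 1)) :=
    Primrec.nat_mul.comp (Primrec.const 32) Primrec.succ
  exact (Primrec.nat_mul.comp h h).of_eq fun m => (sq _).symm

theorem psz : Primrec₂ sz := by
  have hf : Primrec (fun m : ℕ => 4 * (32 * (m + 1)) ^ 2) :=
    Primrec.nat_mul.comp (Primrec.const 4) pQ
  have hg : Primrec₂ (fun (m : ℕ) (x : ℕ × ℕ) => x.2 * 2 ^ (x.2 / (32 * (m + 1)) ^ 2)) := by
    have h2 : Primrec (fun q : ℕ × (ℕ × ℕ) => q.2.2) := Primrec.snd.comp Primrec.snd
    have hd : Primrec (fun q : ℕ × (ℕ × ℕ) => q.2.2 / (32 * (q.1 + 1)) ^ 2) :=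
      Primrec.nat_div.comp h2 (pQ.comp Primrec.fst)
    exact (Primrec.nat_mul.comp h2 (pow2.comp hd)).to₂
  exact (Primrec.nat_rec hf hg).of_eq fun m l => rfl

theorem pbS : Primrec bS := psz.comp Primrec.id Primrec.succ

theorem poff : Primrec off := by
  refine (Primrec.nat_rec₁ (f := fun i s => s + bS i) 0
    (Primrec.nat_add.comp Primrec.snd (pbS.comp Primrec.fst)).to₂).of_eq fun m => rfl

theorem loc_eq (m : ℕ) (p : List ℕ) : loc m p = p.filterMap
    (fun x => if off m ≤ x ∧ x < off (m + 1) then some (x - off m) else none) := by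
  unfold loc
  induction p with
  | nil => rfl
  | cons x p ih =>
    by_cases h : off m ≤ x ∧ x < off (m + 1)
    · rw [List.filter_cons_of_pos (by simpa using h), List.map_cons, ih,
        List.filterMap_cons_some (by rw [if_pos h])]
    · rw [List.filter_cons_of_neg (by simpa using h), ih,
        List.filterMap_cons_none (by rw [if_neg h])]

theorem ploc : Primrec₂ loc := by
  have hg : Primrec₂ (fun (q : ℕ × List ℕ) (x : ℕ) =>
      if off q.1 ≤ x ∧ x < off (q.1 + 1) then some (x - off q.1) else none) := by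
    have h1 : Primrec (fun r : (ℕ × List ℕ) × ℕ => off r.1.1) :=
      poff.comp (Primrec.fst.comp Primrec.fst)
    have h2 : Primrec (fun r : (ℕ × List ℕ) × ℕ => off (r.1.1 + 1)) :=
      poff.comp (Primrec.succ.comp (Primrec.fst.comp Primrec.fst))
    have h3 : Primrec (fun r : (ℕ × List ℕ) × ℕ => some (r.2 - off r.1.1)) :=
      Primrec.option_some.comp (Primrec.nat_sub.comp Primrec.snd h1)
    have hc : PrimrecPred (fun r : (ℕ × List ℕ) × ℕ => off r.1.1 ≤ r.2 ∧ r.2 < off (r.1.1 + 1)) :=
      (Primrec.nat_le.comp h1 Primrec.snd).and (Primrec.nat_lt.comp Primrec.snd h2)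
    exact (Primrec.ite hc h3 (Primrec.const none)).to₂
  have h := Primrec.listFilterMap (f := fun q : ℕ × List ℕ => q.2) Primrec.snd hg
  exact (h.of_eq fun q => (loc_eq q.1 q.2).symm).to₂

theorem presp : Primrec₂ (fun (T : List (List ℕ × ℕ)) (p : List ℕ) => resp (tabS T) p) := by
  have hg : Primrec₂ (fun (q : List (List ℕ × ℕ) × List ℕ) (i : ℕ) =>
      (q.1).lookup (q.2.take (i + 1))) := by
    have h1 : Primrec (fun r : (List (List ℕ × ℕ) × List ℕ) × ℕ => r.1.2.take (r.2 + 1)) :=
      Primrec.list_take.comp (Primrec.succ.comp Primrec.snd) (Primrec.snd.comp Primrec.fst)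
    have h2 : Primrec (fun r : (List (List ℕ × ℕ) × List ℕ) × ℕ =>
        (r.1.1).lookup (r.1.2.take (r.2 + 1))) := by
      refine (Primrec.listLookup.comp h1 (Primrec.fst.comp Primrec.fst)).of_eq fun r => ?_
      congr 1
      exact lawful_beq_subsingleton _ _
    exact h2.to₂
  have hf : Primrec (fun q : List (List ℕ × ℕ) × List ℕ => List.range q.2.length) :=
    Primrec.list_range.comp (Primrec.list_length.comp Primrec.snd)
  exact ((Primrec.listFilterMap hf hg).of_eq fun q => rfl).to₂

/-- The marks as a function of a list of tables. -/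
def allT (q : List (List (List ℕ × ℕ)) × List ℕ) : List ℕ :=
  (List.range q.1.length).flatMap
    (fun m => (resp (tabS (q.1.getD m [])) (loc m q.2)).map (fun y => y + off m))

theorem pallT : Primrec allT := by
  have hT : Primrec₂ (fun (q : List (List (List ℕ × ℕ)) × List ℕ) (m : ℕ) => q.1.getD m []) :=
    ((Primrec.list_getD []).comp (Primrec.fst.comp Primrec.fst) Primrec.snd).to₂
  have hl : Primrec₂ (fun (q : List (List (List ℕ × ℕ)) × List ℕ) (m : ℕ) => loc m q.2) :=
    (ploc.comp Primrec.snd (Primrec.snd.comp Primrec.fst)).to₂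
  have hr : Primrec₂ (fun (q : List (List (List ℕ × ℕ)) × List ℕ) (m : ℕ) =>
      resp (tabS (q.1.getD m [])) (loc m q.2)) := presp.comp₂ hT hl
  have ho : Primrec₂ (fun (r : (List (List (List ℕ × ℕ)) × List ℕ) × ℕ) (y : ℕ) => y + off r.2) :=
    (Primrec.nat_add.comp Primrec.snd (poff.comp (Primrec.snd.comp Primrec.fst))).to₂
  have hg : Primrec₂ (fun (q : List (List (List ℕ × ℕ)) × List ℕ) (m : ℕ) =>
      (resp (tabS (q.1.getD m [])) (loc m q.2)).map (fun y => y + off m)) :=
    (Primrec.list_map hr ho).to₂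
  exact Primrec.list_flatMap (Primrec.list_range.comp (Primrec.list_length.comp Primrec.fst)) hg

theorem comp_map {α : Type*} [Primcodable α] {T : ℕ → α} (hT : Computable T) :
    Computable (fun s => (List.range s).map T) := by
  have hh : Computable₂ (fun (_ : ℕ) (x : ℕ × List α) => x.2 ++ [T x.1]) :=
    (Computable.list_concat.comp (Computable.snd.comp Computable.snd)
      (hT.comp (Computable.fst.comp Computable.snd))).to₂
  refine (Computable.nat_rec Computable.id (Computable.const []) hh).of_eq fun s => ?_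
  show Nat.rec [] (fun y IH => IH ++ [T y]) s = (List.range s).map T
  induction s with
  | zero => rfl
  | succ n ih =>
    show Nat.rec [] (fun y IH => IH ++ [T y]) n ++ [T n] = (List.range (n + 1)).map T
    rw [ih, List.range_succ, List.map_append]
    rfl

end UnionCAux

open UnionCAux

/-- Computability of the marks. -/
theorem unionC : UnionC := by
  intro T a hT ha
  refine (pallT.to_comp.comp ((comp_map hT).pair ha)).of_eq fun s => ?_
  unfold allT allD
  simp only [List.length_map, List.length_range]
  refine List.flatMap_congr fun m hm => ?_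
  have hm' : m < s := List.mem_range.1 hm
  have h1 : ((List.range s).map T).getD m [] = T m := by
    rw [List.getD_eq_getElem _ _ (by simpa using hm')]
    simp
  rw [h1]

end Pool.Agent.D9
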