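import Pool.Agent.Lib.MP_d9c039_lc.Spec

set_option autoImplicit false

/-!
# MP_d9c039_lc, module UnionM: combinatorics of the union of the boards
-/

namespace Pool.Agent.D9.UnionMAux

open Pool.Agent.D9

theorem off_succ (m : ℕ) : off (m + 1) = off m + bS m := rfl

theorem off_even (hb : ∀ m, Even (bS m) ∧ 0 < bS m) (m : ℕ) : Even (off m) := by
  induction m with
  | zero => exact ⟨0, rfl⟩
  | succ m ih => rw [off_succ]; exact ih.add (hb m).1

theorem le_off (hb : ∀ m, Even (bS m) ∧ 0 < bS m) (m : ℕ) : m ≤ off m := by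
  induction m with
  | zero => exact Nat.zero_le _
  | succ m ih => rw [off_succ]; have := (hb m).2; omega

theorem off_mono : Monotone off := monotone_nat_of_le_succ fun m => by rw [off_succ]; omega

theorem resp_append (σ : List ℕ → Option ℕ) (q : List ℕ) (x : ℕ) :
    resp σ (q ++ [x]) = resp σ q ++ (σ (q ++ [x])).toList := by
  unfold resp
  rw [List.length_append, List.length_singleton, List.range_succ, List.filterMap_append]
  congr 1
  · apply List.filterMap_congr
    intro i hi
    rw [List.mem_range] at hi
    rw [List.take_append_of_le_length (by omega)]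
  · have h : (q ++ [x]).take (q.length + 1) = q ++ [x] := by
      apply List.take_of_length_le
      simp
    cases hσ : σ (q ++ [x]) with
    | none => simp [List.filterMap, h, hσ]
    | some y => simp [List.filterMap, h, hσ]

theorem resp_le (σ : List ℕ → Option ℕ) {p q : List ℕ} (h : p <+: q) :
    resp σ p <+: resp σ q := by
  obtain ⟨r, rfl⟩ := h
  induction r using List.reverseRecOn with
  | nil => rw [List.append_nil]
  | append_singleton r x ih =>
    rw [← List.append_assoc, resp_append]
    exact ih.trans (List.prefix_append _ _)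

theorem resp_good {S R : ℕ} {σ : List ℕ → Option ℕ} (hG : Good S R σ) (q : List ℕ)
    (hn : q.Nodup) (hq : ∀ x ∈ q, x < S) :
    (resp σ q).Nodup ∧ ∀ y ∈ resp σ q, y < S ∧ Even y := by
  induction q using List.reverseRecOn with
  | nil => simp [resp]
  | append_singleton q x ih =>
    have hn' : q.Nodup := (List.nodup_append.1 hn).1
    have hq' : ∀ z ∈ q, z < S := fun z hz => hq z (List.mem_append_left _ hz)
    obtain ⟨h1, h2⟩ := ih hn' hq'
    rw [resp_append]
    cases hσ : σ (q ++ [x]) with
    | none => simpa using ⟨h1, h2⟩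
    | some y =>
      obtain ⟨h3, h4, h5⟩ := (hG (q ++ [x]) hn hq).1 y hσ (by simp)
      have h6 : (q ++ [x]).take ((q ++ [x]).length - 1) = q := by simp
      rw [h6] at h5
      refine ⟨?_, fun z hz => ?_⟩
      · rw [Option.toList_some, List.nodup_append]
        refine ⟨h1, by simp, ?_⟩
        intro a ha b hb
        rw [List.mem_singleton] at hb
        rw [hb]
        rintro rfl
        exact h5 ha
      · rw [List.mem_append, Option.toList_some, List.mem_singleton] at hz
        rcases hz with hz | rfl
        · exact h2 z hz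
        · exact ⟨h3, Nat.even_iff.2 h4⟩

theorem loc_le (m : ℕ) {p q : List ℕ} (h : p <+: q) : loc m p <+: loc m q :=
  (h.filter _).map _

theorem mem_loc {m x : ℕ} {p : List ℕ} (h : x ∈ loc m p) :
    ∃ z ∈ p, off m ≤ z ∧ z < off (m + 1) ∧ x = z - off m := by
  unfold loc at h
  rw [List.mem_map] at h
  obtain ⟨z, hz, rfl⟩ := h
  rw [List.mem_filter] at hz
  have := of_decide_eq_true hz.2
  exact ⟨z, hz.1, this.1, this.2, rfl⟩

theorem loc_lt {m x : ℕ} {p : List ℕ} (h : x ∈ loc m p) : x < bS m := by
  obtain ⟨z, -, h1, h2, rfl⟩ := mem_loc h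
  rw [off_succ] at h2
  omega

theorem loc_nodup (m : ℕ) {p : List ℕ} (hn : p.Nodup) : (loc m p).Nodup := by
  unfold loc
  refine List.Nodup.map_on ?_ (hn.filter _)
  intro x hx y hy hxy
  rw [List.mem_filter] at hx hy
  have h1 := of_decide_eq_true hx.2
  have h2 := of_decide_eq_true hy.2
  omega

theorem loc_nil (hb : ∀ m, Even (bS m) ∧ 0 < bS m) {m s : ℕ} {p : List ℕ} (hp : ∀ x ∈ p, x < s)
    (hm : s ≤ m) : loc m p = [] := by
  rw [List.eq_nil_iff_forall_not_mem]
  intro x hx
  obtain ⟨z, hz, h1, -, -⟩ := mem_loc hx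
  have := hp z hz
  have := le_off hb m
  omega

/-- the part of the cut `n` on board `m` -/
def nm (n m : ℕ) : ℕ := min (n - off m) (bS m)

theorem cnt_step (n M : ℕ) (p : List ℕ) :
    cnt p (min n (off (M + 1))) = cnt p (min n (off M)) + cnt (loc M p) (nm n M) := by
  have h0 := off_succ M
  induction p with
  | nil => simp [cnt, loc]
  | cons x p ih =>
    unfold cnt loc nm at ih ⊢
    rw [List.countP_cons, List.countP_cons, List.filter_cons, ih]
    by_cases h : off M ≤ x ∧ x < off (M + 1)
    · rw [if_pos (decide_eq_true h), List.map_cons, List.countP_cons]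
      simp only [decide_eq_true_eq]
      split_ifs <;> omega
    · rw [if_neg (fun hc => h (of_decide_eq_true hc))]
      simp only [decide_eq_true_eq]
      split_ifs <;> omega

theorem cntA (n M : ℕ) (p : List ℕ) :
    cnt p (min n (off M)) = ∑ m ∈ Finset.range M, cnt (loc m p) (nm n m) := by
  induction M with
  | zero =>
    have h : off 0 = 0 := rfl
    rw [h, Finset.range_zero, Finset.sum_empty]
    simp [cnt]
  | succ M ih => rw [Finset.sum_range_succ, ← ih, cnt_step]

theorem cnt_shift (n m : ℕ) (l : List ℕ) (hl : ∀ y ∈ l, y < bS m) :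
    cnt (l.map (fun y => y + off m)) n = cnt l (nm n m) := by
  induction l with
  | nil => simp [cnt]
  | cons x l ih =>
    have h1 := ih fun y hy => hl y (List.mem_cons_of_mem _ hy)
    have h2 := hl x List.mem_cons_self
    unfold cnt nm at h1 ⊢
    rw [List.map_cons, List.countP_cons, List.countP_cons, h1]
    simp only [decide_eq_true_eq]
    split_ifs <;> omega

theorem cnt_allD (σ : ℕ → List ℕ → Option ℕ) (p : List ℕ) (n t : ℕ)
    (h : ∀ m, ∀ y ∈ resp (σ m) (loc m p), y < bS m) :
    cnt (allD σ t p) n = ∑ m ∈ Finset.range t, cnt (resp (σ m) (loc m p)) (nm n m) := by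
  induction t with
  | zero => simp [cnt, allD]
  | succ t ih =>
    rw [Finset.sum_range_succ, ← ih, ← cnt_shift n t _ (h t)]
    unfold allD cnt
    rw [List.range_succ, List.flatMap_append, List.countP_append]
    simp

theorem cnt_mono_prefix {p q : List ℕ} (h : p <+: q) (n : ℕ) : cnt p n ≤ cnt q n :=
  h.sublist.countP_le

theorem eq_take {p q : List ℕ} (h : p <+: q) : q.take p.length = p := by
  obtain ⟨r, rfl⟩ := h
  simp

end Pool.Agent.D9.UnionMAux

namespace Pool.Agent.D9

open UnionMAux

theorem unionM : UnionM := by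
  intro σ a hG hb hnd hstep h0 hlt
  -- monotone
  have hpre1 : ∀ s, a s <+: a (s + 1) := by
    intro s
    rcases hstep s with h | ⟨x, h⟩
    · rw [h]
    · rw [h]
      exact List.prefix_append _ _
  have hpre : ∀ s s', s ≤ s' → a s <+: a s' := by
    intro s s' h
    induction s', h using Nat.le_induction with
    | base => exact List.prefix_rfl
    | succ s' _ ih => exact ih.trans (hpre1 s')
  have hresp : ∀ s m, (resp (σ m) (loc m (a s))).Nodup ∧
      ∀ y ∈ resp (σ m) (loc m (a s)), y < bS m ∧ Even y := fun s m =>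
    resp_good (hG m) _ (loc_nodup m (hnd s)) (fun x hx => loc_lt hx)
  have hA : ∀ s n M, n ≤ off M → cnt (a s) n = ∑ m ∈ Finset.range M, cnt (loc m (a s)) (nm n m) := by
    intro s n M h
    rw [← cntA, min_eq_left h]
  have hD : ∀ s n M, n ≤ off M → cnt (allD σ s (a s)) n
      = ∑ m ∈ Finset.range M, cnt (resp (σ m) (loc m (a s))) (nm n m) := by
    intro s n M h
    rw [cnt_allD σ (a s) n s (fun m y hy => ((hresp s m).2 y hy).1)]
    have h1 : ∀ m, s ≤ m → cnt (resp (σ m) (loc m (a s))) (nm n m) = 0 := by
      intro m hm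
      rw [loc_nil hb (hlt s) hm]
      simp [resp, cnt]
    have h2 : ∀ m, M ≤ m → cnt (resp (σ m) (loc m (a s))) (nm n m) = 0 := by
      intro m hm
      have h3 : nm n m = 0 := by
        unfold nm
        have := off_mono hm
        omega
      rw [h3]
      simp [cnt]
    rcases le_total s M with hsM | hsM
    · refine Finset.sum_subset (Finset.range_mono hsM) fun m _ hm => h1 m ?_
      rw [Finset.mem_range, not_lt] at hm
      exact hm
    · symm
      refine Finset.sum_subset (Finset.range_mono hsM) fun m _ hm => h2 m ?_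
      rw [Finset.mem_range, not_lt] at hm
      exact hm
  refine ⟨fun s => ?_, fun s x hx => ?_, fun s x hx => ?_, fun M n s s' hn hs he => ?_,
    fun M n s s' hn hs he => ?_⟩
  · unfold allD
    rw [List.nodup_flatMap]
    refine ⟨fun m _ => (hresp s m).1.map (fun x y h => by simpa using h), ?_⟩
    have hdis : ∀ m m', m < m' →
        List.Disjoint ((resp (σ m) (loc m (a s))).map (fun y => y + off m))
          ((resp (σ m') (loc m' (a s))).map (fun y => y + off m')) := by
      intro m m' h z hz hz'
      rw [List.mem_map] at hz hz'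
      obtain ⟨y, hy, rfl⟩ := hz
      obtain ⟨y', -, h2⟩ := hz'
      have h3 := ((hresp s m).2 y hy).1
      have h4 : off (m + 1) ≤ off m' := off_mono h
      rw [off_succ] at h4
      omega
    exact List.Pairwise.imp (fun h => hdis _ _ h) (List.pairwise_lt_range (n := s))
  · unfold allD at hx ⊢
    rw [List.mem_flatMap] at hx ⊢
    obtain ⟨m, hm, hx⟩ := hx
    rw [List.mem_range] at hm
    refine ⟨m, List.mem_range.2 (by omega), ?_⟩
    rw [List.mem_map] at hx ⊢
    obtain ⟨y, hy, rfl⟩ := hx
    exact ⟨y, (resp_le (σ m) (loc_le m (hpre1 s))).subset hy, rfl⟩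
  · unfold allD at hx
    rw [List.mem_flatMap] at hx
    obtain ⟨m, -, hx⟩ := hx
    rw [List.mem_map] at hx
    obtain ⟨y, hy, rfl⟩ := hx
    exact ((hresp s m).2 y hy).2.add (off_even hb m)
  · rw [hD s n M hn, hD s' n M hn] at he
    have hmono : ∀ m ∈ Finset.range M, cnt (resp (σ m) (loc m (a s))) (nm n m)
        ≤ cnt (resp (σ m) (loc m (a s'))) (nm n m) := fun m _ =>
      cnt_mono_prefix (resp_le (σ m) (loc_le m (hpre s s' hs))) _
    have heq := (Finset.sum_eq_sum_iff_of_le hmono).1 he
    rw [hA s n M hn, hA s' n M hn, ← Finset.sum_add_distrib]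
    refine Finset.sum_le_sum fun m hm => ?_
    have hpr := loc_le m (hpre s s' hs)
    have hg := ((hG m (loc m (a s')) (loc_nodup m (hnd s')) (fun x hx => loc_lt hx)).2
      (loc m (a s)).length hpr.length_le (nm n m) (min_le_right _ _)).1
    rw [eq_take hpr] at hg
    exact hg (heq m hm)
  · rw [hA s n M hn, hA s' n M hn] at he
    have hmono : ∀ m ∈ Finset.range M, cnt (loc m (a s)) (nm n m)
        ≤ cnt (loc m (a s')) (nm n m) := fun m _ =>
      cnt_mono_prefix (loc_le m (hpre s s' hs)) _
    have heq := (Finset.sum_eq_sum_iff_of_le hmono).1 he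
    rw [hD s n M hn, hD s' n M hn, ← Finset.sum_add_distrib]
    refine Finset.sum_le_sum fun m hm => ?_
    have hpr := loc_le m (hpre s s' hs)
    have hg := ((hG m (loc m (a s')) (loc_nodup m (hnd s')) (fun x hx => loc_lt hx)).2
      (loc m (a s)).length hpr.length_le (nm n m) (min_le_right _ _)).2
    rw [eq_take hpr] at hg
    exact hg (heq m hm)

end Pool.Agent.D9
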