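import Pool.Agent.Lib.MP_d9c039_lc.Spec

set_option autoImplicit false

/-!
# MP_d9c039_lc: the module Params
-/

namespace Pool.Agent.D9

namespace ParamsAux

theorem sz_zero (m : ℕ) : sz m 0 = 4 * (32 * (m + 1)) ^ 2 := rfl

theorem sz_succ (m l : ℕ) : sz m (l + 1) = sz m l * 2 ^ (sz m l / (32 * (m + 1)) ^ 2) := rfl

theorem sz_pos (m l : ℕ) : 0 < sz m l := by
  induction l with
  | zero => rw [sz_zero]; positivity
  | succ l ih => rw [sz_succ]; positivity

theorem sz_even (m l : ℕ) : Even (sz m l) := by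
  induction l with
  | zero => rw [sz_zero]; exact ⟨2 * (32 * (m + 1)) ^ 2, by ring⟩
  | succ l ih => rw [sz_succ]; exact ih.mul_right _

/-- `sz m l ≥ Q (tower l + 2)`. -/
theorem sz_ge (m l : ℕ) : (32 * (m + 1)) ^ 2 * (tower l + 2) ≤ sz m l := by
  induction l with
  | zero =>
    rw [sz_zero]
    simp only [tower]
    have : 0 < (32 * (m + 1)) ^ 2 := by positivity
    omega
  | succ l ih =>
    rw [sz_succ]
    set Q := (32 * (m + 1)) ^ 2 with hQ
    have hQ0 : 0 < Q := by positivity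
    have h1 : tower l + 2 ≤ sz m l / Q := by
      rw [Nat.le_div_iff_mul_le hQ0, mul_comm]
      exact ih
    have h2 : 2 ^ (tower l + 2) ≤ 2 ^ (sz m l / Q) := Nat.pow_le_pow_right (by norm_num) h1
    have h3 : tower (l + 1) + 2 ≤ 2 ^ (tower l + 2) := by
      simp only [tower]
      rw [pow_add]
      have : 0 < 2 ^ tower l := by positivity
      omega
    have h4 : Q ≤ sz m l := by
      calc Q = Q * 1 := by ring
        _ ≤ Q * (tower l + 2) := Nat.mul_le_mul_left _ (by omega)
        _ ≤ _ := ih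
    calc Q * (tower (l + 1) + 2) ≤ sz m l * 2 ^ (sz m l / Q) :=
        Nat.mul_le_mul h4 (h3.trans h2)

/-- The parameters of board `m`. -/
def par (m : ℕ) : Par where
  d := m + 1
  g := 32 * (m + 1)
  h := 5 * (32 * (m + 1))
  K := 8 * (32 * (m + 1))
  a := fun l => sz m l / (32 * (m + 1)) ^ 2
  s := fun l => sz m l
  hd := by omega
  hg := by omega
  hh := by omega
  hK := rfl
  hs0 := sz_pos m 0
  hev := sz_even m 0
  hs := fun l => sz_succ m l
  hM := by
    rw [sz_zero]
    nlinarith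
  hload := by
    intro l _
    have h1 := sz_ge m l
    have h2 := Nat.div_mul_le_self (sz m l) ((32 * (m + 1)) ^ 2)
    set Q := (32 * (m + 1)) ^ 2 with hQ
    have hQ' : 32 * (m + 1) * (32 * (m + 1)) = Q := by rw [hQ]; ring
    have ht : 1 ≤ tower l := by
      cases l with
      | zero => simp [tower]
      | succ l => simp only [tower]; exact Nat.one_le_two_pow
    have h3 : Q * 3 ≤ sz m l := (Nat.mul_le_mul_left _ (by omega)).trans h1
    have hg1 : 32 * (m + 1) ≤ Q := by rw [← hQ']; nlinarith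
    calc 32 * (m + 1) * (5 * (32 * (m + 1)) * (sz m l / Q + 1) + 1)
        = 5 * (sz m l / Q * (32 * (m + 1) * (32 * (m + 1)))) +
          5 * (32 * (m + 1) * (32 * (m + 1))) + 32 * (m + 1) := by ring
      _ = 5 * (sz m l / Q * Q) + 5 * Q + 32 * (m + 1) := by rw [hQ']
      _ ≤ 7 * sz m l := by omega
  hfree := by omega

end ParamsAux

open ParamsAux in
theorem paramsB : ParamsB := by
  intro m
  refine ⟨⟨par m, rfl, ?_, ?_⟩, ?_, sz_even m (m + 1), sz_pos m (m + 1)⟩
  · have h1 : ∀ l ∈ Finset.range (m + 1), (par m).L (l + 1)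
        ≤ 4 * (32 * (m + 1)) ^ 2 + (m + 1) * (8 * (32 * (m + 1))) := by
      intro l hl
      rw [Finset.mem_range] at hl
      show sz m 0 + (l + 1) * (8 * (32 * (m + 1))) ≤ _
      rw [sz_zero]
      have : (l + 1) * (8 * (32 * (m + 1))) ≤ (m + 1) * (8 * (32 * (m + 1))) :=
        Nat.mul_le_mul_right _ (by omega)
      omega
    have h2 := Finset.sum_le_sum h1
    rw [Finset.sum_const, Finset.card_range, smul_eq_mul] at h2
    show sz m 0 + ∑ l ∈ Finset.range (m + 1), (par m).L (l + 1) ≤ bR m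
    rw [sz_zero]
    unfold bR
    refine (Nat.add_le_add_left h2 _).trans ?_
    nlinarith [Nat.zero_le m, Nat.zero_le (m ^ 2), Nat.zero_le (m ^ 3)]
  · show m + 1 + 1 ≤ bR m
    unfold bR
    nlinarith [Nat.zero_le m, Nat.zero_le (m ^ 2), Nat.zero_le (m ^ 3)]
  · have h := sz_ge m (m + 1)
    have : 1 ≤ (32 * (m + 1)) ^ 2 := Nat.one_le_pow _ _ (by omega)
    show tower (m + 1) ≤ sz m (m + 1)
    nlinarith [Nat.zero_le (tower (m + 1))]

end Pool.Agent.D9
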