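import Pool.Agent.Lib.MP_d9c039_lc.Spec

set_option autoImplicit false

namespace Pool.Agent.D9

namespace PotFireAux

lemma wt_pos (g h : ℕ) (S : LS) (c : ℕ) : 0 < S.wt g h c := by
  unfold LS.wt; positivity

/-- `2^(-n/(gh)) ≤ 1 - n/(2gh)` -/
lemma num1 (q n : ℕ) (hq : 0 < q) (hn : n ≤ q) :
    (2 : ℝ) ^ (-((n : ℝ) / (q : ℝ))) ≤ 1 - (n : ℝ) / (2 * (q : ℝ)) := by
  have hq' : (0 : ℝ) < q := by exact_mod_cast hq
  have hn' : (n : ℝ) ≤ q := by exact_mod_cast hn
  have h0 : (0 : ℝ) ≤ (n : ℝ) / q := by positivity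
  have h1 : (n : ℝ) / q ≤ 1 := (div_le_one hq').2 hn'
  have h := rpow_one_add_le_one_add_mul_self (s := -(1 / 2 : ℝ)) (p := (n : ℝ) / q)
    (by norm_num) h0 h1
  have e1 : (1 + -(1 / 2 : ℝ)) = (2 : ℝ)⁻¹ := by norm_num
  rw [e1, Real.inv_rpow (by norm_num), ← Real.rpow_neg (by norm_num)] at h
  have e2 : 1 + (n : ℝ) / q * -(1 / 2) = 1 - (n : ℝ) / (2 * q) := by
    field_simp
    ring
  rw [e2] at h
  exact h

lemma num2 (h : ℕ) (hh : 0 < h) : (2 : ℝ) ^ (1 / (h : ℝ)) ≤ 1 + 1 / (h : ℝ) := by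
  have hh' : (1 : ℝ) ≤ h := by exact_mod_cast hh
  have h0 : (0 : ℝ) ≤ 1 / (h : ℝ) := by positivity
  have h1 : 1 / (h : ℝ) ≤ 1 := by
    rw [div_le_one (by linarith)]; exact hh'
  have h := rpow_one_add_le_one_add_mul_self (s := (1 : ℝ)) (p := 1 / (h : ℝ))
    (by norm_num) h0 h1
  have e1 : (1 + 1 : ℝ) = 2 := by norm_num
  rw [e1] at h
  linarith

lemma wt_fire (g h : ℕ) (S : LS) (i c : ℕ) :
    (S.fire i).wt g h c =
      if i ≤ c then S.wt g h c * (2 : ℝ) ^ (-((S.inChild c : ℝ) / ((g * h : ℕ) : ℝ)))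
      else S.wt g h c := by
  unfold LS.wt
  split_ifs with hc
  · rw [← Real.rpow_add (by norm_num)]
    congr 1
    have : ((S.fire i).u g c : ℤ) = S.u g c - (S.inChild c : ℤ) := by
      simp only [LS.u, LS.fire, LS.inChild, if_pos hc]
      push_cast
      ring
    rw [this]
    push_cast
    ring
  · congr 2
    have : ((S.fire i).u g c : ℤ) = S.u g c := by
      simp only [LS.u, LS.fire, if_neg hc]
    rw [this]

lemma wt_fire_le (g h : ℕ) (S : LS) (i c : ℕ) (hg : 0 < g) (hh : 0 < h)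
    (hn : S.inChild c ≤ g * h) :
    (S.fire i).wt g h c ≤ S.wt g h c -
      (if i ≤ c then (S.inChild c : ℝ) * S.wt g h c / (2 * ((g : ℝ) * (h : ℝ))) else 0) := by
  rw [wt_fire]
  split_ifs with hc
  · have h1 := num1 (g * h) (S.inChild c) (Nat.mul_pos hg hh) hn
    have h2 := wt_pos g h S c
    have h3 := mul_le_mul_of_nonneg_left h1 h2.le
    refine h3.trans (le_of_eq ?_)
    push_cast
    ring
  · simp

lemma sum_filter_snd (G : List ((ℕ × ℕ) × ℝ)) (i : ℕ) :
    (((G.filter (fun e => decide (e.1.1 < i))).map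
      (fun e => ((e.1.1, min e.1.2 i), e.2))).map Prod.snd).sum +
      (G.map (fun e => if e.1.1 < i then (0 : ℝ) else e.2)).sum = (G.map Prod.snd).sum := by
  induction G with
  | nil => simp
  | cons e t ih =>
    by_cases he : e.1.1 < i
    · simp only [List.map_cons, List.sum_cons, if_pos he]
      rw [List.filter_cons_of_pos (by simpa using he)]
      simp only [List.map_cons, List.sum_cons]
      linarith
    · simp only [List.map_cons, List.sum_cons, if_neg he]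
      rw [List.filter_cons_of_neg (by simpa using he)]
      linarith

/-- the dropped entries: `∑ m ≤ ∑_{c ≥ i} n c w c` -/
lemma drop_le (w : ℕ → ℝ) (G : List ((ℕ × ℕ) × ℝ)) (i hi : ℕ)
    (hG : ∀ e ∈ G, e.1.1 < hi ∧ e.2 ≤ w e.1.1) :
    (G.map (fun e => if e.1.1 < i then (0 : ℝ) else e.2)).sum ≤
      ∑ c ∈ Finset.Ico i hi, (((G.map Prod.fst).countP (fun e => decide (e.1 = c)) : ℕ) : ℝ) * w c := by
  induction G with
  | nil => simp
  | cons e t ih =>
    have ih' := ih (fun e' he' => hG e' (List.mem_cons_of_mem _ he'))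
    obtain ⟨h1, h2⟩ := hG e List.mem_cons_self
    simp only [List.map_cons, List.sum_cons, List.countP_cons, decide_eq_true_eq, Nat.cast_add,
      add_mul, Finset.sum_add_distrib]
    have key : (if e.1.1 < i then (0 : ℝ) else e.2) ≤
        ∑ c ∈ Finset.Ico i hi, (((if e.1.1 = c then 1 else 0 : ℕ)) : ℝ) * w c := by
      have e1 : ∑ c ∈ Finset.Ico i hi, (((if e.1.1 = c then 1 else 0 : ℕ)) : ℝ) * w c =
          ∑ c ∈ Finset.Ico i hi, if e.1.1 = c then w c else 0 := by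
        apply Finset.sum_congr rfl
        intro c _
        split_ifs <;> simp
      rw [e1, Finset.sum_ite_eq]
      by_cases he : e.1.1 < i
      · rw [if_pos he, if_neg (by simp; omega)]
      · rw [if_neg he, if_pos (by simp; omega)]
        exact h2
    linarith

lemma fire_al (S : LS) (i : ℕ) (G : List ((ℕ × ℕ) × ℝ)) (hG : G.map Prod.fst = S.al)
    (F : ((ℕ × ℕ) × ℝ) → ℝ) :
    ((G.filter (fun e => decide (e.1.1 < i))).map
      (fun e => ((e.1.1, min e.1.2 i), F e))).map Prod.fst = (S.fire i).al := by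
  rw [List.map_map]
  simp only [LS.fire, ← hG, List.filter_map, List.map_map]
  rfl

/-- sharper form: the potential drops by at least `(1/(4gh)) ∑_{c ≥ i} n c w c` -/
lemma core (g h lo hi : ℕ) (S : LS) (i : ℕ) (hg : 0 < g) (hh : 0 < h) (hlo : lo ≤ i)
    (hn : ∀ c, S.inChild c ≤ g * h)
    (G : List ((ℕ × ℕ) × ℝ)) (hG : G.map Prod.fst = S.al)
    (hb : ∀ e ∈ S.al, lo ≤ e.1 ∧ e.1 < e.2 ∧ e.2 ≤ hi)
    (hm : ∀ e ∈ G, 0 ≤ e.2 ∧ ∀ c, e.1.1 ≤ c → c < e.1.2 → e.2 ≤ S.wt g h c) :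
    (∑ c ∈ Finset.Ico lo hi, (S.fire i).wt g h c) +
      (∑ c ∈ Finset.Ico i hi, (S.inChild c : ℝ) * S.wt g h c) / (4 * (g : ℝ) * (h : ℝ)) -
      (((G.filter (fun e => decide (e.1.1 < i))).map
        (fun e => ((e.1.1, min e.1.2 i), e.2))).map Prod.snd).sum / (4 * (g : ℝ) * (h : ℝ))
      ≤ (∑ c ∈ Finset.Ico lo hi, S.wt g h c) - (G.map Prod.snd).sum / (4 * (g : ℝ) * (h : ℝ)) := by
  have hg' : (0 : ℝ) < g := by exact_mod_cast hg
  have hh' : (0 : ℝ) < h := by exact_mod_cast hh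
  have h1 : ∑ c ∈ Finset.Ico lo hi, (S.fire i).wt g h c ≤
      ∑ c ∈ Finset.Ico lo hi, (S.wt g h c -
        (if i ≤ c then (S.inChild c : ℝ) * S.wt g h c / (2 * ((g : ℝ) * (h : ℝ))) else 0)) :=
    Finset.sum_le_sum (fun c _ => wt_fire_le g h S i c hg hh (hn c))
  rw [Finset.sum_sub_distrib, ← Finset.sum_filter] at h1
  have h2 : (Finset.Ico lo hi).filter (fun c => i ≤ c) = Finset.Ico i hi := by
    ext c
    simp only [Finset.mem_filter, Finset.mem_Ico]
    omega
  rw [h2, ← Finset.sum_div] at h1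
  have h3 := sum_filter_snd G i
  have h4 := drop_le (S.wt g h) G i hi (by
    intro e he
    have he' : e.1 ∈ S.al := by rw [← hG]; exact List.mem_map_of_mem he
    obtain ⟨a1, a2, a3⟩ := hb _ he'
    exact ⟨by omega, (hm e he).2 _ le_rfl a2⟩)
  rw [hG] at h4
  set A := ∑ c ∈ Finset.Ico i hi, (S.inChild c : ℝ) * S.wt g h c with hA
  have h4' : (G.map (fun e => if e.1.1 < i then (0 : ℝ) else e.2)).sum ≤ A := h4
  have e1 : A / (2 * ((g : ℝ) * (h : ℝ))) = 2 * (A / (4 * (g : ℝ) * (h : ℝ))) := by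
    field_simp
    ring
  rw [e1] at h1
  have h5 : (G.map (fun e => if e.1.1 < i then (0 : ℝ) else e.2)).sum / (4 * (g : ℝ) * (h : ℝ)) ≤
      A / (4 * (g : ℝ) * (h : ℝ)) := div_le_div_of_nonneg_right h4' (by positivity)
  rw [← h3, add_div]
  linarith

end PotFireAux

open PotFireAux in
theorem potAdd : PotAdd := by
  intro g h lo hi S i h1 h2 hS
  obtain ⟨hb, G, hG, hm, hpot⟩ := hS
  refine ⟨?_, ((i, hi), 0) :: G, ?_, ?_, ?_⟩
  · intro e he
    simp only [LS.add, List.mem_cons] at he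
    rcases he with rfl | he
    · exact ⟨h1, h2, le_rfl⟩
    · exact hb e he
  · simp [LS.add, hG]
  · intro e he
    rw [List.mem_cons] at he
    rcases he with rfl | he
    · exact ⟨le_rfl, fun c _ _ => (wt_pos g h _ c).le⟩
    · exact hm e he
  · simp only [List.map_cons, List.sum_cons, zero_add]
    exact hpot

open PotFireAux in
theorem potFire : PotFire := by
  intro g h lo hi S i hg hh hlo hhi hn hS
  obtain ⟨hb, G, hG, hm, hpot⟩ := hS
  refine ⟨?_, (G.filter (fun e => decide (e.1.1 < i))).map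
      (fun e => ((e.1.1, min e.1.2 i), e.2)), fire_al S i G hG (fun e => e.2), ?_, ?_⟩
  · intro e he
    simp only [LS.fire, List.mem_map, List.mem_filter, decide_eq_true_eq] at he
    obtain ⟨e', ⟨he', hlt⟩, rfl⟩ := he
    obtain ⟨a1, a2, a3⟩ := hb e' he'
    refine ⟨a1, ?_, ?_⟩
    · exact lt_min a2 hlt
    · exact (min_le_left _ _).trans a3
  · intro e he
    simp only [List.mem_map, List.mem_filter, decide_eq_true_eq] at he
    obtain ⟨e', ⟨he', hlt⟩, rfl⟩ := he
    obtain ⟨a1, a2⟩ := hm e' he'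
    refine ⟨a1, ?_⟩
    intro c hc1 hc2
    have hc3 : c < i := lt_of_lt_of_le hc2 (min_le_right _ _)
    have hc4 : c < e'.1.2 := lt_of_lt_of_le hc2 (min_le_left _ _)
    rw [wt_fire, if_neg (by omega)]
    exact a2 c hc1 hc4
  · have hc := core g h lo hi S i hg hh hlo hn G hG hb hm
    have hg' : (0 : ℝ) < g := by exact_mod_cast hg
    have hh' : (0 : ℝ) < h := by exact_mod_cast hh
    have h0 : 0 ≤ (∑ c ∈ Finset.Ico i hi, (S.inChild c : ℝ) * S.wt g h c) /
        (4 * (g : ℝ) * (h : ℝ)) := by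
      apply div_nonneg _ (by positivity)
      exact Finset.sum_nonneg (fun c _ => mul_nonneg (Nat.cast_nonneg _) (wt_pos g h S c).le)
    linarith

end Pool.Agent.D9
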