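import Pool.Agent.Lib.MP_d9c039_lc.Defs

set_option autoImplicit false

/-!
# MP_d9c039_lc: the modules (each is a Prop; prove it in its own file, other modules may be used
as hypotheses)
-/

namespace Pool.Agent.D9

/-- MODULE PotAdd (with PotFire). Take `G' = ((i,hi),0) :: G`; weights and sums are unchanged. -/
def PotAdd : Prop := ∀ (g h lo hi : ℕ) (S : LS) (i : ℕ), lo ≤ i → i < hi →
  S.Inv g h lo hi → (S.add hi i).Inv g h lo hi

/-- MODULE PotFire. Proof: write `e = 1/(4gh)`, `w c = S.wt g h c`, `n c = S.inChild c`.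
`f` is unchanged, `k` grows by `n c` for `c ≥ i`, so the new weight of `c ≥ i` is
`w c * 2^(-n c/(gh))`, the weights of `c < i` are unchanged.  New ghost list: keep the entries with
first component `< i` (and the ghost value), replace `E` by `min E i`: the range `[e.1, min E i)` is
contained in the old one and in `[lo, i)`, where weights did not change.  Change of the potential:
`∑_{c ∈ [i,hi)} (w c (2^(-n c/(gh)) - 1)) + e ∑_{dropped} m`.  Every dropped entry (`e.1 ≥ i`) has
`m ≤ w e.1`, so the second sum is at most `e ∑_{c ≥ i} n c * w c`.  Now `n c ≤ gh` and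
`2^(-t) ≤ 1 - t/2` for `0 ≤ t ≤ 1` (convexity, or Bernoulli) give
`w c (2^(-n c/(gh)) - 1) + e n c w c ≤ - e n c w c ≤ 0`.
It is useful to prove first the sharper statement that the potential drops by at least
`e ∑_{c ∈ [i,hi)} n c w c` (needed again in PotResp). -/
def PotFire : Prop := ∀ (g h lo hi : ℕ) (S : LS) (i : ℕ), 0 < g → 0 < h → lo ≤ i → i < hi →
  (∀ c, S.inChild c ≤ g * h) → S.Inv g h lo hi → (S.fire i).Inv g h lo hi

/-- MODULE PotResp. Proof: as PotFire, with two changes.  Let `m` be the child of the definition of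
`Req` (minimum of `u` on `(i1,j)`), `m0 = w m > 0`, so `w c ≥ m0` for all `c ∈ (i1,j)`,
`w i ≤ 2 m0` (because `2^((u m + gh)/(gh)) = 2 w m`) and `w c > 2 m0` for `c ∈ (i1, i)`.
(1) the new weight of `i` gets an additional factor `2^(1/h) ≤ 1 + 1/h`; the additional cost is at
most `w i / h ≤ 2 m0 / h`.  (2) surviving entries with `i1 < e.1 < i` and `j ≤ E` (they are exactly
the survivors among the `K` entries counted by `pend'`) get the new ghost value `2 m0`: allowed,
because the new range `[e.1, i)` lies in `(i1, i)`; the old value was `≤ w m = m0`, because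
`m ≥ i > e.1` and `m < j ≤ E` (note `m ≥ i`, since `u m ≤ u m + gh` contradicts the last clause of
`Req` if `m < i`).  Gain: `e m0` per survivor.  The dying entries counted by `pend'` have
`e.1 ∈ [i, j)`, `w e.1 ≥ m0`, gain at least `e m0` each by the sharper form of PotFire.  Total gain
at least `K e m0 = 8 g m0 / (4 g h) = 2 m0 / h`. -/
def PotResp : Prop := ∀ (g h K lo hi : ℕ) (S : LS) (i1 j i : ℕ), 0 < g → 0 < h → K = 8 * g →
  lo ≤ i1 → j ≤ hi → (∀ c, S.inChild c ≤ g * h) → S.Inv g h lo hi → S.Req g h K i1 j i →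
  (S.resp i).Inv g h lo hi

/-- MODULE PotBound. Proof: each ghost value is `≤ wt` of the child of its entry (the range
contains `e.1`), so `∑ m ≤ ∑_c inChild c * wt c ≤ gh ∑_c wt c` and
`(3/4) ∑ wt ≤ hi - lo = 2^a`; hence `2^(u c/(gh)) ≤ (4/3) 2^a < 2^(a+1)` and `u c < gh(a+1)`. -/
def PotBound : Prop := ∀ (g h lo hi a : ℕ) (S : LS), 0 < g → 0 < h → hi = lo + 2 ^ a →
  (∀ c, S.inChild c ≤ g * h) → S.Inv g h lo hi → ∀ c, lo ≤ c → c < hi →
  g * S.f c ≤ S.k c + g * h * (a + 1)

/-- MODULE Cnt. Proof by induction on `l`, simultaneously.  `inChild` at level 0: by `kle` at most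
the number of A-events in a block of length `s 0` (the list `pl` has no duplicates; if `c` is not a
child of `p`, then `inChild c = 0` by `pot.1`).  `pend j` at level `l`: if there is a pending entry,
let `e0` be one with minimal child; the entries pending at `j` in the child `e0.1` are at most
`inChild e0.1`, the others at most `K` (not `Viol`).  `inChild` at level `l+1`: `link` and the bound
for `pend` at level `l`. -/
def CntB : Prop := ∀ (P : Par) (G : GS), GInv P G →
  (∀ l < P.d, ∀ p c, (G.st l p).inChild c ≤ P.L l) ∧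
  (∀ l < P.d, ∀ p j, (G.st l p).pend j ≤ P.L (l + 1))

/-- MODULE Load (hypotheses PotBound and CntB are available).  Proof by downward induction on `l`.
`ld d q = 0` (all levels are `< d`).  For `l < d`: `g f ≤ k + gh(a+1) ≤ s l + gh(a+1)` by PotBound
(`k ≤` number of A-events in the block `≤ s l`; `inChild ≤ L l ≤ gh` by `hM`) and
`g (gr - 1) ≤ 8 (d-l-1) s l`: by `rr`, `2^a * (gr(q) - 1) ≤ ∑_{q' sibling} gr(q') = ld (l+1) (q/2^a)`,
and induction with `s (l+1) = s l 2^a`.  Add up with `fcount` and `hload`. -/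
def LoadB : Prop := ∀ (P : Par) (G : GS), GInv P G → ∀ l ≤ P.d, ∀ q,
  P.g * G.ld P l q ≤ 8 * (P.d - l) * P.s l

/-- MODULE Choose (hypothesis LoadB is available).  Proof: if no level `< d` has a violation in
`addA P G x`, take `none`.  Otherwise take the smallest such level `lam`; by `noviol` and since only
the block `p = x / s (lam+1)` has changed at this level, the violation is there; take the smallest
`j`; then `x / s lam < j` (otherwise the new entry is not pending at `j` and the violation was
there before) and `j ≤ hi` (`j ≤ e0.2 ≤ hi`).  Choose `m` in `(i1,j)`, `i1 = e0.1`, with minimal `u` (the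
interval is not empty since `pend' > 0`) and `i` the least element of `(i1,j)` with
`u i ≤ u m + gh`.  Descend: `q lam = i`, `q l` = a child of `q (l+1)` (i.e. `q l / 2^(a l) = q (l+1)`)
with minimal `gr l`, down to level 0.  The block `q 0` of length `s 0` (even) has `s 0 / 2` even
numbers and `ld 0 (q 0) ≤ 8 d s 0 / g < s 0 / 2` marks (LoadB, `hfree`), so it has a free even
number `y`; `y / s l = q l` for `l ≤ lam`. -/
def ChooseB : Prop := ∀ (P : Par) (G : GS) (x : ℕ), GInv P G → x < P.s P.d → x ∉ G.pl →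
  ∃ r, Valid P (G.addA P x) x r

/-- MODULE StepPot (hypotheses PotAdd, PotFire, PotResp, CntB are available).  Only one block per
level changes.  After `addA`, `inChild ≤ L l + 1 ≤ gh` (`hM`). -/
def StepPot : Prop := ∀ (P : Par) (G : GS) (x : ℕ) (r : Option (ℕ × ℕ)), GInv P G →
  x < P.s P.d → x ∉ G.pl → Valid P (G.addA P x) x r → ∀ l < P.d, ∀ p,
  (((G.addA P x).app P r).st l p).Inv P.g P.h (p * 2 ^ (P.a l)) ((p + 1) * 2 ^ (P.a l))

/-- MODULE StepLink.  `link`, first for `addA`, then for a mark: for a mark in the child `q` or to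
the left of it (in the same parent) `inChild q` becomes 0; a mark to the right of child `q` changes
neither side; `x` in `q` increases both by one. -/
def StepLink : Prop := ∀ (P : Par) (G : GS) (x : ℕ) (r : Option (ℕ × ℕ)), GInv P G →
  x < P.s P.d → x ∉ G.pl → Valid P (G.addA P x) x r → ∀ l, l + 1 < P.d → ∀ q,
  (((G.addA P x).app P r).st (l + 1) (q / 2 ^ (P.a (l + 1)))).inChild q ≤
    (((G.addA P x).app P r).st l q).pend ((q + 1) * 2 ^ (P.a l))

/-- MODULE StepK.  `kle` (`k + inChild` counts A-events of the child: `+1` for `x`, unchanged by a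
mark: `inChild` moves to `k` if the mark is in a child `≤ q`). -/
def StepK : Prop := ∀ (P : Par) (G : GS) (x : ℕ) (r : Option (ℕ × ℕ)), GInv P G →
  x < P.s P.d → x ∉ G.pl → Valid P (G.addA P x) x r → ∀ l < P.d, ∀ q,
  (((G.addA P x).app P r).st l (q / 2 ^ (P.a l))).k q +
    (((G.addA P x).app P r).st l (q / 2 ^ (P.a l))).inChild q
    ≤ ((G.addA P x).app P r).pl.countP (fun x => decide (x / P.s l = q))

/-- MODULE StepViol.  `noviol`.  If `r = none` this is `Valid`.  Let `r = some (y, lam)`.
A mark never creates a violation: after `fire c` the pending entries at `j` are the old ones if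
`j ≤ c` and none if `j > c`.  Levels `< lam`: no violation before the mark by `Valid`.
Level `lam`: only the block of `x` can have one (`noviol` of `G`), there all violations are at
`j' ≥ j > i = y / s lam`, and after `resp i` nothing is pending at `j' > i`.  Levels `l > lam`
(`l < d`): only the block `p` of `x` at level `l+1` and boundaries `j' > x / s l` can have a
violation after `addA` (as in Choose); `y` lies in the same block of level `lam+1 ≤ l` as `x`, so
`y / s l = x / s l < j'` and nothing is pending at `j'` after `fire (y / s l)`. -/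
def StepViol : Prop := ∀ (P : Par) (G : GS) (x : ℕ) (r : Option (ℕ × ℕ)), GInv P G →
  x < P.s P.d → x ∉ G.pl → Valid P (G.addA P x) x r → ∀ l < P.d, ∀ p j,
  ¬ (((G.addA P x).app P r).st l p).Viol P.K j

/-- MODULE StepMk.  The fields `nodup lt fcount rr mk_lt mk_nodup mk_hist` of `GInv` for the new
state.  `rr`: for `l < lam` the block `y / s l` has minimal `gr l` among its siblings; for
`l ≥ lam` nothing changes.  `y < s d`: `y / s (lam+1) = x / s (lam+1)` and `lam + 1 ≤ d`.
`fcount`: `f` changes only at level `lam` in the child `y / s lam`. -/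
def StepMk : Prop := ∀ (P : Par) (G : GS) (x : ℕ) (r : Option (ℕ × ℕ)), GInv P G →
  x < P.s P.d → x ∉ G.pl → Valid P (G.addA P x) x r →
  let G' := (G.addA P x).app P r
  G'.pl.Nodup ∧ (∀ x ∈ G'.pl, x < P.s P.d) ∧
  (∀ l < P.d, ∀ q, (G'.st l (q / 2 ^ (P.a l))).f q + G'.gr P l q = G'.ld P l q) ∧
  (∀ l < P.d, ∀ q q', q / 2 ^ (P.a l) = q' / 2 ^ (P.a l) → G'.gr P l q ≤ G'.gr P l q' + 1) ∧
  (∀ e ∈ G'.mks, e.1 < P.s P.d ∧ Even e.1 ∧ e.2 < P.d) ∧
  (G'.mks.map Prod.fst).Nodup ∧
  G'.mks.map Prod.fst = (G'.hist.filter (fun e => e.1)).map Prod.snd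

/-- MODULE ARun (hypotheses CntB and `∀ P G, Reach P G → GInv P G` are available).  Proof: show by
induction on `Reach` that for all `N < s d`, `l < d`, with `p = N / s (l+1)`, `j = N / s l`:
`arun (s (l+1)) p N hist ≤ (st l p).pend j + arun (s l) j N hist`.
It is preserved by `addA` and by `addD` separately (no validity needed).  `addA x`: if `x ≤ N` is in
block `p` and in a child `c < j`, the new entry `(c, hi)` is pending at `j < hi`; if `c = j` the last
term grows.  `addD y`: if `y ≤ N` is in block `p` the left side is 0; if `y > N` is in block `p`,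
then `y / s l ≥ j`, the entries pending at `j` survive and stay pending, `arun (s l) j N` does not
change; if `y` is not in block `p` nothing changes.  At the bottom `arun (s 0) q N ≤` number of
A-events in a block of length `s 0`, `≤ s 0`.  Sum up with `pend ≤ L (l+1)`. -/
def ARunB : Prop := ∀ (P : Par) (G : GS), Reach P G → ∀ N < P.s P.d,
  arun (P.s P.d) 0 N G.hist ≤ P.s 0 + ∑ l ∈ Finset.range P.d, P.L (l + 1)

/-- MODULE DRun (hypothesis `∀ P G, Reach P G → GInv P G` is available).  Proof: show by induction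
on `Reach` that `drun N hist + #{l < d | Z l N} ≤ d + 1` (`N < s d`).  A-event `x ≤ N`: `drun = 0`,
and a mark after it in the same round gives `1 + d`.  A-event `x > N`: `drun` is unchanged and no
`Z l N` becomes true (the new entry has child `x / s l ≥ N / s l`).  A mark never makes `Z l N`
true (entries only disappear or get a smaller `E`).  A mark `y > N` does not change `drun`.  A mark `y ≤ N` in a round
with `x > N`: the block `x / s (lam+1) = y / s (lam+1)` is the one of `N`, the entry `e0` of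
`Valid` has `e0.1 < y / s lam ≤ N / s lam ≤ x / s lam < j ≤ e0.2`, so `Z lam N` is true before, and
false after `resp (y / s lam)`, since all entries then have `E ≤ y / s lam ≤ N / s lam`. -/
def DRunB : Prop := ∀ (P : Par) (G : GS), Reach P G → ∀ N < P.s P.d, drun N G.hist ≤ P.d + 1

/-- MODULE Board (hypotheses: ChooseB, ARunB, DRunB and `∀ P G, Reach P G → GInv P G`).
Proof: by choice there is `nx : GS → ℕ → Option (ℕ × ℕ)` with `Valid P (G.addA P x) x (nx G x)`
whenever `GInv P G`, `x < s d`, `x ∉ G.pl`; run it along a play `p` (oldest first):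
`run [] = init`, `run (p ++ [x]) = ((run p).addA P x).app P (nx (run p) x)` (recursion on the
reversed list); `σ p` = first component of the last response.  Then `(run p).pl = p.reverse` and the
marks are `(resp σ p).reverse`.  If the number of marks `< n` does not change between `p.take i` and
`p`, then `arun (s d) 0 (n-1)` has grown by the number of A-events `< n` in between; similarly
for `drun`. -/
def BoardB : Prop := ∀ (P : Par) (R : ℕ), P.s 0 + ∑ l ∈ Finset.range P.d, P.L (l + 1) ≤ R →
  P.d + 1 ≤ R → ∃ σ, Good (P.s P.d) R σ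

/-- MODULE Params.  `d = m+1`, `g = 32 d`, `h = 5 g`, `K = 8 g`, `Q = g^2`, `s l = sz m l`
(so `s 0 = 4 Q`), `a l = s l / Q`.  `sz m l ≥ Q (tower l + 2)` by induction. -/
def ParamsB : Prop := ∀ m : ℕ, (∃ P : Par, P.s P.d = bS m ∧
  P.s 0 + ∑ l ∈ Finset.range P.d, P.L (l + 1) ≤ bR m ∧ P.d + 1 ≤ bR m) ∧
  tower (m + 1) ≤ bS m ∧ Even (bS m) ∧ 0 < bS m

/-- MODULE Plays.  (1) `p ∈ nplays S t` iff `p.Nodup`, all entries `< S` and `length ≤ t`; a
duplicate-free list with entries `< S` has length `≤ S`.  (2) a good strategy gives a table: take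
the list of all `(p, y)` with `p ∈ nplays S S`, `p ≠ []`, `σ p = some y` (dedup `nplays` or note
that `lookup` takes the first pair with key `p`, all of them have the same value).
(3) conversely. -/
def PlaysB : Prop := ∀ S R : ℕ,
  (∀ σ, Good S R σ → ∃ T, Chk S R T) ∧ (∀ T, Chk S R T → Good S R (tabS T))

/-- MODULE PrimChk.  Everything is primitive recursive: `Primrec.listLookup`, `Primrec.listFilter`,
`Primrec.listFilterMap`, `Primrec.list_flatMap`, `PrimrecRel.forall_mem_list`,
`PrimrecRel.forall_lt`, `Primrec.nat_rec` for `nplays`. -/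
def PrimChkB : Prop := PrimrecPred (fun t : (ℕ × ℕ) × List (List ℕ × ℕ) => Chk t.1.1 t.1.2 t.2)

/-- MODULE Search (hypothesis PrimChkB).  `bS`, `bR` are computable (powers by `Primrec.nat_rec`),
search with `Nat.rfind`. -/
def SearchB : Prop := (∀ m, ∃ T, Chk (bS m) (bR m) T) →
  ∃ T : ℕ → List (List ℕ × ℕ), Computable T ∧ ∀ m, Chk (bS m) (bR m) (T m)

/-- MODULE Guess.  `φ(τ, j)`: let `n = τ.length`; find the least `s0` with
`τ = (range n).map (· ∈ d s0)`, then the least `s ≥ s0` with
`cnt (a s) n = cnt (a s0) n + j`, output `(range n).map (· ∈ a s)`.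
If `τ` is `D` cut at `n` then `s0` exists (monotone, finite), `cnt (d s) n = cnt (d s0) n` for all
`s ≥ s0`, so `cnt (a s) n ≤ cnt (a s0) n + b n`; let `j = max_s cnt (a s) n - cnt (a s0) n`. -/
def GuessB : Prop := ∀ (a d : ℕ → List ℕ) (A D : Set ℕ) (b : ℕ → ℕ),
  Computable a → Computable d → (∀ s, (a s).Nodup) → (∀ s, (d s).Nodup) →
  (∀ s x, x ∈ a s → x ∈ a (s + 1)) → (∀ s x, x ∈ d s → x ∈ d (s + 1)) →
  (∀ x, x ∈ A ↔ ∃ s, x ∈ a s) → (∀ x, x ∈ D ↔ ∃ s, x ∈ d s) →
  (∀ n s s', s ≤ s' → cnt (d s) n = cnt (d s') n → cnt (a s') n ≤ cnt (a s) n + b n) →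
  ∃ φ : List Bool × ℕ →. List Bool, Partrec φ ∧ ∀ n : ℕ, ∀ τ : List Bool,
    τ.length = n → (∀ i < n, (τ.getD i false = true ↔ i ∈ D)) →
    ∃ j ≤ b n, ∃ σ ∈ φ (τ, j), σ.length = n ∧ ∀ i < n, (σ.getD i false = true ↔ i ∈ A)

/-- MODULE Enum.  From `REPred` get a code `c` with `x ∈ A ↔ (eval c x).Dom`; stage `s + 1` looks at
`(x, k) = unpair s` and appends `x` if `evaln k c x` is some and `x` is not yet in the list. -/
def EnumB : Prop := ∀ A : Set ℕ, REPred (fun n : ℕ => n ∈ A) →
  ∃ a : ℕ → List ℕ, Computable a ∧ (∀ s, (a s).Nodup) ∧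
    (∀ s, a (s + 1) = a s ∨ ∃ x, a (s + 1) = a s ++ [x]) ∧ a 0 = [] ∧
    (∀ s x, x ∈ a s → x < s) ∧ (∀ x, x ∈ A ↔ ∃ s, x ∈ a s)

/-- MODULE UnionC.  Computability of the marks. -/
def UnionC : Prop := ∀ (T : ℕ → List (List ℕ × ℕ)) (a : ℕ → List ℕ), Computable T → Computable a →
  Computable (fun s => allD (fun m => tabS (T m)) s (a s))

/-- MODULE UnionM.  Combinatorics of the union of the boards.  `off` is strictly increasing, all
`off m` are even, `m ≤ off m`; for a play `p` with entries `< s` the boards `≥ s` are empty.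
`cnt p n = ∑_{m < M} cnt (loc m p) (min n (off (m+1)) - off m)` for `n ≤ off M`, similarly for
`allD`; `loc m (p.take i)` is a `take` of `loc m p`.  If `cnt (d s) n = cnt (d s') n` then all
summands agree (each is monotone), so `Good` applies on each board. -/
def UnionM : Prop := ∀ (σ : ℕ → List ℕ → Option ℕ) (a : ℕ → List ℕ),
  (∀ m, Good (bS m) (bR m) (σ m)) → (∀ m, Even (bS m) ∧ 0 < bS m) → (∀ s, (a s).Nodup) →
  (∀ s, a (s + 1) = a s ∨ ∃ x, a (s + 1) = a s ++ [x]) → a 0 = [] → (∀ s x, x ∈ a s → x < s) →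
  (∀ s, (allD σ s (a s)).Nodup) ∧
  (∀ s x, x ∈ allD σ s (a s) → x ∈ allD σ (s + 1) (a (s + 1))) ∧
  (∀ s, ∀ x ∈ allD σ s (a s), Even x) ∧
  (∀ M n s s', n ≤ off M → s ≤ s' → cnt (allD σ s (a s)) n = cnt (allD σ s' (a s')) n →
    cnt (a s') n ≤ cnt (a s) n + ∑ m ∈ Finset.range M, bR m) ∧
  (∀ M n s s', n ≤ off M → s ≤ s' → cnt (a s) n = cnt (a s') n →
    cnt (allD σ s' (a s')) n ≤ cnt (allD σ s (a s)) n + ∑ m ∈ Finset.range M, bR m)

/-- FINAL: the theorem. -/
def FinalB : Prop := ∃ c : ℕ, ∀ A : Set ℕ, REPred (fun n : ℕ => n ∈ A) →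
  ∃ D : Set ℕ, REPred (fun n : ℕ => n ∈ D) ∧ (∀ n ∈ D, Even n) ∧
    (∃ φ : List Bool × ℕ →. List Bool, Partrec φ ∧ ∀ k n : ℕ, n ≤ tower k → ∀ τ : List Bool,
      τ.length = n → (∀ i < n, (τ.getD i false = true ↔ i ∈ D)) →
      ∃ j ≤ c * (k + 1) ^ 4, ∃ σ ∈ φ (τ, j), σ.length = n ∧
        ∀ i < n, (σ.getD i false = true ↔ i ∈ A)) ∧
    (∃ ψ : List Bool × ℕ →. List Bool, Partrec ψ ∧ ∀ k n : ℕ, n ≤ tower k → ∀ τ : List Bool,
      τ.length = n → (∀ i < n, (τ.getD i false = true ↔ i ∈ A)) →
      ∃ j ≤ c * (k + 1) ^ 4, ∃ σ ∈ ψ (τ, j), σ.length = n ∧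
        ∀ i < n, (σ.getD i false = true ↔ i ∈ D))

end Pool.Agent.D9
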