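import Pool.Agent.Lib.MP_d9c039_lc.Spec

set_option autoImplicit false

namespace Pool.Agent.D9

namespace StepBase

lemma s_pos (P : Par) (l : ℕ) : 0 < P.s l := by
  induction l with
  | zero => exact P.hs0
  | succ l ih => rw [P.hs]; exact Nat.mul_pos ih (by positivity)

lemma div_succ (P : Par) (x l : ℕ) : x / P.s (l + 1) = x / P.s l / 2 ^ (P.a l) := by
  rw [P.hs, Nat.div_div_eq_div_mul]

lemma s_dvd (P : Par) {l l' : ℕ} (h : l ≤ l') : P.s l ∣ P.s l' := by
  induction l', h using Nat.le_induction with
  | base => exact dvd_rfl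
  | succ n _ ih => rw [P.hs]; exact ih.mul_right _

lemma div_eq_of_le (P : Par) {x y l l' : ℕ} (h : l ≤ l') (hxy : y / P.s l = x / P.s l) :
    y / P.s l' = x / P.s l' := by
  obtain ⟨t, ht⟩ := s_dvd P h
  rw [ht, ← Nat.div_div_eq_div_mul, ← Nat.div_div_eq_div_mul, hxy]

lemma lo_hi (P : Par) (x l : ℕ) :
    (x / P.s (l + 1)) * 2 ^ (P.a l) ≤ x / P.s l ∧
      x / P.s l < (x / P.s (l + 1) + 1) * 2 ^ (P.a l) := by
  rw [div_succ]
  constructor
  · exact Nat.div_mul_le_self _ _
  · have h2 : 0 < 2 ^ P.a l := by positivity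
    rw [Nat.mul_comm]
    exact Nat.lt_mul_div_succ _ h2

lemma inChild_add (S : LS) (hi i c : ℕ) :
    (S.add hi i).inChild c = S.inChild c + if i = c then 1 else 0 := by
  unfold LS.inChild LS.add
  rw [List.countP_cons]
  simp

lemma pend_add (S : LS) (hi i j : ℕ) :
    (S.add hi i).pend j = S.pend j + if i < j ∧ j ≤ hi then 1 else 0 := by
  unfold LS.pend LS.add
  rw [List.countP_cons]
  simp

lemma pend'_add (S : LS) (hi i i1 j : ℕ) :
    (S.add hi i).pend' i1 j = S.pend' i1 j + if i1 < i ∧ i < j ∧ j ≤ hi then 1 else 0 := by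
  unfold LS.pend' LS.add
  rw [List.countP_cons]
  simp

lemma inChild_fire (S : LS) (i c : ℕ) :
    (S.fire i).inChild c = if c < i then S.inChild c else 0 := by
  unfold LS.inChild LS.fire
  rw [List.countP_map, List.countP_filter]
  split_ifs with h
  · apply List.countP_congr
    intro e _
    simp only [Function.comp, Bool.and_eq_true, decide_eq_true_eq]
    omega
  · rw [List.countP_eq_zero]
    intro e _
    simp only [Function.comp, Bool.and_eq_true, decide_eq_true_eq]
    omega

lemma pend_fire (S : LS) (i j : ℕ) :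
    (S.fire i).pend j = if j ≤ i then S.pend j else 0 := by
  unfold LS.pend LS.fire
  rw [List.countP_map, List.countP_filter]
  split_ifs with h
  · apply List.countP_congr
    intro e _
    simp only [Function.comp, Bool.and_eq_true, decide_eq_true_eq]
    omega
  · rw [List.countP_eq_zero]
    intro e _
    simp only [Function.comp, Bool.and_eq_true, decide_eq_true_eq]
    omega

lemma pend'_fire (S : LS) (i i1 j : ℕ) :
    (S.fire i).pend' i1 j = if j ≤ i then S.pend' i1 j else 0 := by
  unfold LS.pend' LS.fire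
  rw [List.countP_map, List.countP_filter]
  split_ifs with h
  · apply List.countP_congr
    intro e _
    simp only [Function.comp, Bool.and_eq_true, decide_eq_true_eq]
    omega
  · rw [List.countP_eq_zero]
    intro e _
    simp only [Function.comp, Bool.and_eq_true, decide_eq_true_eq]
    omega

lemma inChild_resp (S : LS) (i c : ℕ) : (S.resp i).inChild c = (S.fire i).inChild c := rfl
lemma pend_resp (S : LS) (i j : ℕ) : (S.resp i).pend j = (S.fire i).pend j := rfl
lemma pend'_resp (S : LS) (i i1 j : ℕ) : (S.resp i).pend' i1 j = (S.fire i).pend' i1 j := rfl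
lemma k_resp (S : LS) (i c : ℕ) : (S.resp i).k c = (S.fire i).k c := rfl

lemma viol_resp (K : ℕ) (S : LS) (i j : ℕ) : (S.resp i).Viol K j ↔ (S.fire i).Viol K j := Iff.rfl

/-- a mark never creates a violation -/
lemma viol_fire {K : ℕ} {S : LS} {i j : ℕ} (hv : (S.fire i).Viol K j) :
    j ≤ i ∧ S.Viol K j := by
  obtain ⟨e, he, h1, h2, h3⟩ := hv
  simp only [LS.fire, List.mem_map, List.mem_filter, decide_eq_true_eq] at he
  obtain ⟨e', ⟨he', hlt⟩, rfl⟩ := he
  have hj : j ≤ i := h2.trans (min_le_right _ _)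
  refine ⟨hj, e', he', h1, h2.trans (min_le_left _ _), ?_⟩
  rw [pend'_fire, if_pos hj] at h3
  exact h3

/-- a violation after `add` which was not there before is at a boundary `> i` -/
lemma viol_add {K : ℕ} {S : LS} {hi i j : ℕ} (hv : (S.add hi i).Viol K j) :
    i < j ∨ S.Viol K j := by
  by_cases hij : i < j
  · exact Or.inl hij
  · right
    obtain ⟨e, he, h1, h2, h3⟩ := hv
    simp only [LS.add, List.mem_cons] at he
    rcases he with rfl | he
    · exact absurd h1 hij
    · refine ⟨e, he, h1, h2, ?_⟩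
      rw [pend'_add, if_neg (by omega)] at h3
      exact h3

lemma st_addA (P : Par) (G : GS) (x l p : ℕ) : (G.addA P x).st l p =
    if x / P.s (l + 1) = p then (G.st l p).add ((p + 1) * 2 ^ (P.a l)) (x / P.s l)
    else G.st l p := rfl

lemma st_addD (P : Par) (G : GS) (y lam l p : ℕ) : (G.addD P y lam).st l p =
    if y / P.s (l + 1) = p then
      (if l = lam then (G.st l p).resp (y / P.s l) else (G.st l p).fire (y / P.s l))
    else G.st l p := rfl

/-- violations of `addA` -/
lemma viol_addA (P : Par) (G : GS) (hG : GInv P G) (x l p j : ℕ) (hl : l < P.d)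
    (hv : ((G.addA P x).st l p).Viol P.K j) : x / P.s (l + 1) = p ∧ x / P.s l < j := by
  rw [st_addA] at hv
  split_ifs at hv with h
  · refine ⟨h, ?_⟩
    rcases viol_add hv with h' | h'
    · exact h'
    · exact absurd h' (hG.noviol l hl p j)
  · exact absurd hv (hG.noviol l hl p j)

lemma L_le (P : Par) {l : ℕ} (hl : l < P.d) : P.L l + 1 ≤ P.g * P.h := by
  have h := P.hM
  unfold Par.L
  have : l * P.K ≤ (P.d + 1) * P.K := Nat.mul_le_mul_right _ (by omega)
  omega

/-- counts after `addA` -/
lemma cnt_addA (hC : CntB) (P : Par) (G : GS) (hG : GInv P G) (x l p c : ℕ) (hl : l < P.d) :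
    ((G.addA P x).st l p).inChild c ≤ P.g * P.h := by
  have h1 := (hC P G hG).1 l hl p c
  have h2 := L_le P hl
  rw [st_addA]
  split_ifs with h
  · rw [inChild_add]
    split_ifs <;> omega
  · omega

lemma pl_app (P : Par) (G : GS) (r : Option (ℕ × ℕ)) : (G.app P r).pl = G.pl := by
  cases r with
  | none => rfl
  | some r => simp [GS.app, GS.addD, GS.pl]

lemma pl_addA (P : Par) (G : GS) (x : ℕ) : (G.addA P x).pl = x :: G.pl := by
  simp [GS.addA, GS.pl]

lemma gr_addD (P : Par) (G : GS) (y lam l q : ℕ) : (G.addD P y lam).gr P l q =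
    G.gr P l q + if y / P.s l = q ∧ l < lam then 1 else 0 := by
  unfold GS.gr GS.addD
  rw [List.countP_cons]
  simp

lemma ld_addD (P : Par) (G : GS) (y lam l q : ℕ) : (G.addD P y lam).ld P l q =
    G.ld P l q + if y / P.s l = q ∧ l ≤ lam then 1 else 0 := by
  unfold GS.ld GS.addD
  rw [List.countP_cons]
  simp

end StepBase

end Pool.Agent.D9
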